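import Pool.Agent.Run7.h440.Exc

set_option autoImplicit false

/-!
# Primitive roots within `2 ^ (θ n)` steps for all but very few primes
-/

namespace Pool.Agent.Run7.h440

open Finset Pool.Agent.H595R2.PR Pool.Agent.R562.PR Pool.Agent.TH668.PR

/-- from the intervals `(√x, x]` to all numbers -/
theorem total_count (P : ℕ → Prop) [DecidablePred P] (hP : ∀ p, P p → 2 ≤ p) (K : ℕ)
    (hK : ∀ x : ℕ, #{p ∈ range (x + 1) | x < p ^ 2 ∧ P p} ≤ K) (x : ℕ) :
    #{p ∈ range (x + 1) | P p} ≤ K * (Nat.log 2 (Nat.log 2 x) + 1) := by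
  induction x using Nat.strong_induction_on with
  | _ x ih =>
  rcases Nat.lt_or_ge x 4 with hx | hx
  · have h1 : #{p ∈ range (x + 1) | P p} ≤ #{p ∈ range (x + 1) | x < p ^ 2 ∧ P p} := by
      refine card_le_card fun p hp => ?_
      rw [mem_filter] at hp ⊢
      have := hP p hp.2
      exact ⟨hp.1, by nlinarith, hp.2⟩
    refine (h1.trans (hK x)).trans ?_
    exact Nat.le_mul_of_pos_right _ (by omega)
  · set s := Nat.sqrt x with hs
    have hsx : s < x := Nat.sqrt_lt_self (by omega)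
    have hs2 : s * s ≤ x := Nat.sqrt_le x
    have hs3 : x < (s + 1) * (s + 1) := Nat.lt_succ_sqrt x
    have h1 : #{p ∈ range (x + 1) | P p} ≤
        #{p ∈ range (s + 1) | P p} + #{p ∈ range (x + 1) | x < p ^ 2 ∧ P p} := by
      refine (card_le_card ?_).trans (card_union_le _ _)
      intro p hp
      rw [mem_filter, mem_range] at hp
      rw [mem_union, mem_filter, mem_filter, mem_range, mem_range]
      rcases Nat.lt_or_ge p (s + 1) with h | h
      · exact Or.inl ⟨h, hp.2⟩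
      · refine Or.inr ⟨hp.1, ?_, hp.2⟩
        nlinarith
    have h2 := ih s hsx
    have h3 := hK x
    have h4 : Nat.log 2 (Nat.log 2 s) + 1 ≤ Nat.log 2 (Nat.log 2 x) := by
      have hs0 : s ≠ 0 := by
        rintro h0
        rw [h0] at hs3
        omega
      have h5 : 2 * Nat.log 2 s ≤ Nat.log 2 x := by
        refine Nat.le_log_of_pow_le (by norm_num) ?_
        calc 2 ^ (2 * Nat.log 2 s) = 2 ^ Nat.log 2 s * 2 ^ Nat.log 2 s := by ring
          _ ≤ s * s := Nat.mul_le_mul (Nat.pow_log_le_self 2 hs0) (Nat.pow_log_le_self 2 hs0)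
          _ ≤ x := hs2
      have h6 : 2 ≤ Nat.log 2 x := Nat.le_log_of_pow_le (by norm_num) (by omega)
      have h7 : Nat.log 2 (Nat.log 2 s) ≤ Nat.log 2 (Nat.log 2 x / 2) :=
        Nat.log_mono_right (by omega)
      have h8 : Nat.log 2 (Nat.log 2 x) = Nat.log 2 (Nat.log 2 x / 2) + 1 :=
        Nat.log_of_one_lt_of_le (by norm_num) h6
      omega
    calc #{p ∈ range (x + 1) | P p} ≤ K * (Nat.log 2 (Nat.log 2 s) + 1) + K := by omega
      _ = K * (Nat.log 2 (Nat.log 2 s) + 1 + 1) := by ring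
      _ ≤ K * (Nat.log 2 (Nat.log 2 x) + 1) := Nat.mul_le_mul_left _ (by omega)

theorem loglog_le {x : ℕ} (hx : 16 ≤ x) :
    ((Nat.log 2 (Nat.log 2 x) + 1 : ℕ) : ℝ) ≤ 4 * Real.log (Real.log x) := by
  have hl2 : (0.6931471803 : ℝ) < Real.log 2 := Real.log_two_gt_d9
  have hl2' : Real.log 2 < 0.6931471808 := Real.log_two_lt_d9
  have hx0 : (0 : ℝ) < x := by exact_mod_cast (by omega : 0 < x)
  have ha : 4 ≤ Nat.log 2 x := Nat.le_log_of_pow_le (by norm_num) (by omega)
  set a := Nat.log 2 x with hadef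
  have h1 : (a : ℝ) * Real.log 2 ≤ Real.log x := by
    rw [← Real.log_pow]
    apply Real.log_le_log (by positivity)
    exact_mod_cast Nat.pow_log_le_self 2 (by omega : x ≠ 0)
  set b := Nat.log 2 a with hbdef
  have ha0 : (0 : ℝ) < a := by exact_mod_cast (by omega : 0 < a)
  have h2 : (b : ℝ) * Real.log 2 ≤ Real.log a := by
    rw [← Real.log_pow]
    apply Real.log_le_log (by positivity)
    exact_mod_cast Nat.pow_log_le_self 2 (by omega : a ≠ 0)
  have h3 : Real.log ((a : ℝ) * Real.log 2) ≤ Real.log (Real.log x) :=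
    Real.log_le_log (by positivity) h1
  rw [Real.log_mul ha0.ne' (by linarith)] at h3
  have h4 : -(1 / 2 : ℝ) + 0.05 ≤ Real.log (Real.log 2) := by
    have h5 : Real.exp (-(9 / 20 : ℝ)) ≤ Real.log 2 := by
      have h6 : Real.exp (-(9 / 20 : ℝ)) = (Real.exp (9 / 20))⁻¹ := Real.exp_neg _
      have h7 : (1.5 : ℝ) ≤ Real.exp (9 / 20) := by
        have h8 := Real.quadratic_le_exp_of_nonneg (show (0 : ℝ) ≤ 9 / 20 by norm_num)
        linarith
      rw [h6]
      have h8 : (Real.exp (9 / 20))⁻¹ ≤ (1.5 : ℝ)⁻¹ := inv_anti₀ (by norm_num) h7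
      refine h8.trans ?_
      norm_num
      linarith
    have h9 := Real.log_le_log (Real.exp_pos _) h5
    rw [Real.log_exp] at h9
    linarith
  have h5 : 2 * Real.log 2 ≤ Real.log a := by
    have : Real.log 4 ≤ Real.log a := Real.log_le_log (by norm_num) (by exact_mod_cast ha)
    have e : Real.log 4 = 2 * Real.log 2 := by
      rw [show (4 : ℝ) = 2 ^ 2 by norm_num, Real.log_pow]
      norm_num
    linarith
  push_cast
  have h6 : (b : ℝ) ≤ 1.5 * Real.log a := by
    have h7 : (b : ℝ) * 0.6931471803 ≤ Real.log a := by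
      refine le_trans (mul_le_mul_of_nonneg_left hl2.le (Nat.cast_nonneg _)) h2
    have h8 : 0 ≤ Real.log a := by linarith
    have h9 : (0 : ℝ) ≤ b := Nat.cast_nonneg _
    nlinarith
  linarith

open Classical in
/-- **Theorem B.** -/
theorem theoremB {θ : ℝ} (hθ : 0 < θ) (B : ℕ) :
    ∃ (C : ℕ) (F : ℕ → List ℕ), ExpTimeList θ F ∧ (∀ p : ℕ, (F p).length = p.size ^ C) ∧
      ∃ K : ℕ, ∀ x : ℕ, #{p ∈ range (x + 1) | x < p ^ 2 ∧ (p.Prime ∧
        ¬ p.size ^ B * #{i ∈ range (F p).length | ¬ IsPrimRoot p ((F p).getD i 0)} ≤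
          (F p).length)} ≤ K := by
  have hm : 0 < min θ 1 := lt_min hθ one_pos
  obtain ⟨η, h0, h1⟩ := exists_between hm
  obtain ⟨C, F, hF, hlen, p₀, hp₀⟩ := core_time h0 (h1.trans_le (min_le_right _ _))
    (h1.trans_le (min_le_left _ _)) B
  obtain ⟨K, Q₀, hK⟩ := few_bad h0
  refine ⟨C, F, hF, hlen, ⌈K⌉₊ + p₀ + Q₀ + 1, fun x => ?_⟩
  have hbad : ∀ p : ℕ, p₀ ≤ p → p.Prime →
      ¬ p.size ^ B * #{i ∈ range (F p).length | ¬ IsPrimRoot p ((F p).getD i 0)} ≤
        (F p).length → Bad η p := by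
    intro p hp hpp hno
    have : Fact p.Prime := ⟨hpp⟩
    obtain ⟨Γ, Y, hY, hYp, hΓ, _, h3⟩ := hp₀ p hp hpp
    refine ⟨hpp, Y, hY, hYp, fun htop => hno ?_⟩
    have htop' : Γ = ⊤ := by
      rw [htop] at hΓ
      exact top_le_iff.1 hΓ
    refine le_trans (Nat.mul_le_mul_left _ (card_le_card ?_)) h3
    intro i hi
    rw [mem_filter] at hi ⊢
    refine ⟨hi.1, fun hg => hi.2 ?_⟩
    rw [htop'] at hg
    exact prim_of_generates hg
  rcases Nat.lt_or_ge x Q₀ with hx | hx
  · refine (card_le_card (filter_subset _ _)).trans ?_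
    rw [card_range]
    omega
  · have h2 : #{p ∈ range (x + 1) | x < p ^ 2 ∧ (p.Prime ∧
        ¬ p.size ^ B * #{i ∈ range (F p).length | ¬ IsPrimRoot p ((F p).getD i 0)} ≤
          (F p).length)} ≤ #(range p₀) + #{p ∈ range (x + 1) | x < p ^ 2 ∧ Bad η p} := by
      refine (card_le_card ?_).trans (card_union_le _ _)
      intro p hp
      rw [mem_filter] at hp
      rw [mem_union, mem_filter, mem_range]
      rcases Nat.lt_or_ge p p₀ with h | h
      · exact Or.inl h
      · exact Or.inr ⟨hp.1, hp.2.1, hbad p h hp.2.2.1 hp.2.2.2⟩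
    have h3 : #{p ∈ range (x + 1) | x < p ^ 2 ∧ Bad η p} ≤ ⌈K⌉₊ := by
      have h4 := hK x hx
      exact_mod_cast h4.trans (Nat.le_ceil K)
    rw [card_range] at h2
    omega

end Pool.Agent.Run7.h440
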