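import Pool.Agent.Run7.h440.Idx

set_option autoImplicit false

/-!
# Candidates for every prime within `2 ^ (θ n)` steps
-/

namespace Pool.Agent.Run7.h440

open Finset Pool.Agent.H595R2.PR Pool.Agent.R562.PR Pool.Agent.TH668.PR
  Pool.Agent.Helper923.HRho

section

variable {p : ℕ} [hp : Fact p.Prime]

/-- a group which contains `-1` and `2` has odd index unless `p = 1` modulo `8` -/
theorem odd_index (Γ : Subgroup (ZMod p)ˣ) (h3 : 3 ≤ p) (h8 : p % 8 ≠ 1) (h1 : -1 ∈ Γ)
    (h2 : un p 2 ∈ Γ) : Odd Γ.index := by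
  rw [← Nat.not_even_iff_odd, even_iff_two_dvd]
  intro hd
  have hodd : p % 2 = 1 := by
    rcases hp.out.eq_two_or_odd with h' | h'
    · omega
    · exact h'
  have hne : (2 : ZMod p) ≠ 0 := by
    have := nat_ne_zero (p := p) (n := 2) (by norm_num) (by omega)
    exact_mod_cast this
  by_cases h4 : p % 4 = 3
  · have h5 := pow_div Γ (by norm_num) hd h1
    have h6 : Odd ((p - 1) / 2) := Nat.odd_iff.2 (by omega)
    rw [h6.neg_one_pow] at h5
    have h7 := congrArg Units.val h5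
    simp only [Units.val_neg, Units.val_one] at h7
    apply hne
    have : (2 : ZMod p) = 1 - (-1) := by norm_num
    rw [this, h7, sub_self]
  · have h5 := pow_div Γ (by norm_num) hd h2
    have h6 := congrArg Units.val h5
    rw [Units.val_pow_eq_pow_val, un_val (nat_ne_zero (by norm_num) (by omega)), Units.val_one]
      at h6
    have h7 : (p - 1) / 2 = p / 2 := by omega
    rw [h7] at h6
    have h9 := (ZMod.euler_criterion p (nat_ne_zero (p := p) (n := 2) (by norm_num)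
      (by omega))).2 h6
    have h10 : IsSquare (2 : ZMod p) := by simpa using h9
    rw [ZMod.exists_sq_eq_two_iff (by omega)] at h10
    omega

theorem order_of_generates {Γ : Subgroup (ZMod p)ˣ} {g : ℕ} (h : Generates p Γ g) :
    orderOf (g : ZMod p) * Γ.index = p - 1 := by
  obtain ⟨u, hu1, hu2⟩ := h
  rw [← hu1, orderOf_units, ← Nat.card_zpowers, hu2]
  exact card_mul_index Γ

end

open Classical in
/-- **Theorem A.** -/
theorem theoremA {θ : ℝ} (hθ : 0 < θ) (B : ℕ) :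
    ∃ (C : ℕ) (F : ℕ → List ℕ), ExpTimeList θ F ∧ (∀ p : ℕ, (F p).length = p.size ^ C) ∧
      ∃ p₀ : ℕ, ∀ p : ℕ, p₀ ≤ p → p.Prime → ∃ d : ℕ, (d : ℝ) * rho (1 / (4 * θ)) ≤ 1 ∧
        d ∣ p - 1 ∧ (p % 8 ≠ 1 → Odd d) ∧
        p.size ^ B * #{i ∈ range (F p).length |
          ¬ orderOf (((F p).getD i 0 : ℕ) : ZMod p) * d = p - 1} ≤ (F p).length := by
  set θ' : ℝ := min θ (1 / 2) with hθ'
  have hθ'0 : 0 < θ' := lt_min hθ (by norm_num)
  obtain ⟨η, h0, h1, p₁, hp₁⟩ := index_bound hθ'0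
  obtain ⟨C, F, hF, hlen, p₂, hp₂⟩ := core_time h0 (by
    have : θ' ≤ 1 / 2 := min_le_right _ _
    linarith) (h1.trans_le (min_le_left _ _)) B
  have hrho : rho (1 / (4 * θ)) ≤ rho (1 / (4 * θ')) := by
    rcases le_total θ (1 / 2) with h | h
    · rw [hθ', min_eq_left h]
    · rw [hθ', min_eq_right h, rho_one (v := 1 / (4 * (1 / 2))) (by norm_num)]
      exact rho_le_one _
  -- `2 ≤ p ^ η`
  obtain ⟨p₃, hp₃⟩ := Filter.eventually_atTop.1 (tendsto_natCast_atTop_atTop.eventually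
    ((tendsto_rpow_atTop h0).eventually_ge_atTop 2))
  refine ⟨C, F, hF, hlen, max (max p₁ p₂) (max p₃ 3), fun p hp hpp => ?_⟩
  have : Fact p.Prime := ⟨hpp⟩
  have hp1 : p₁ ≤ p := le_trans (le_trans (le_max_left _ _) (le_max_left _ _)) hp
  have hp2 : p₂ ≤ p := le_trans (le_trans (le_max_right _ _) (le_max_left _ _)) hp
  have hp3 : p₃ ≤ p := le_trans (le_trans (le_max_left _ _) (le_max_right _ _)) hp
  have hp4 : 3 ≤ p := le_trans (le_trans (le_max_right _ _) (le_max_right _ _)) hp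
  obtain ⟨Γ, Y, hY, hYp, hΓ, hneg, h3⟩ := hp₂ p hp2 hpp
  refine ⟨Γ.index, ?_, dvd_sub_one Γ dvd_rfl, fun h8 => ?_, ?_⟩
  · have h4 := hp₁ p hp1 hpp Y hY Γ hΓ
    refine le_trans (mul_le_mul_of_nonneg_left hrho (Nat.cast_nonneg _)) h4
  · have hY2 : 2 ≤ Y := by exact_mod_cast (hp₃ p hp3).trans hY
    exact odd_index Γ hp4 h8 hneg (hΓ (mem_Gam (by norm_num) hY2 _
      (un_val (nat_ne_zero (by norm_num) (by omega)))))
  · refine le_trans (Nat.mul_le_mul_left _ (card_le_card ?_)) h3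
    intro i hi
    rw [mem_filter] at hi ⊢
    exact ⟨hi.1, fun hg => hi.2 (order_of_generates hg)⟩

end Pool.Agent.Run7.h440
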