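import Pool.Agent.Run7.h440.ThmC
import Pool.Agent.Run7.h440.ThmA
import Pool.Agent.Run7.h440.ThmB

set_option autoImplicit false

/-!
# Time `exp (n ^ α)`: index `exp (n ^ (1 - α + ε))`, and few exceptional primes
-/

namespace Pool.Agent.Run7.h440

open Finset Pool.Agent.H595R2.PR Pool.Agent.R562.PR Pool.Agent.TH668.PR Filter Topology

theorem ev_exp_le {α ε β : ℝ} (hβ0 : 0 < β) (h : α - ε < β) :
    ∃ p₁ : ℕ, ∀ p : ℕ, p₁ ≤ p → ∀ Z : ℕ, (2 : ℝ) ^ ((p.size : ℝ) ^ β - 1) ≤ Z →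
      Real.exp ((p.size : ℝ) ^ (α - ε)) ≤ Z := by
  have hev : ∀ᶠ n : ℝ in atTop, n ^ (α - ε) ≤ (n ^ β - 1) * Real.log 2 := by
    have h1 : Tendsto (fun n : ℝ => n ^ (-(β - (α - ε)))) atTop (𝓝 0) :=
      tendsto_rpow_neg_atTop (by linarith)
    filter_upwards [h1.eventually (gt_mem_nhds (show (0 : ℝ) < 1 / 4 by norm_num)),
      (tendsto_rpow_atTop hβ0).eventually_ge_atTop 3, eventually_gt_atTop 0] with n h2 h3 h4
    have h5 : n ^ (α - ε) = n ^ β * n ^ (-(β - (α - ε))) := by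
      rw [← Real.rpow_add h4]
      congr 1
      ring
    have hl2 : (0.6931471803 : ℝ) < Real.log 2 := Real.log_two_gt_d9
    rw [h5]
    nlinarith
  obtain ⟨n₀, hn₀⟩ := eventually_atTop.1 (tendsto_natCast_atTop_atTop.eventually hev)
  refine ⟨2 ^ n₀, fun p hp Z hZ => ?_⟩
  have hsz : n₀ < p.size := Nat.lt_size.2 hp
  refine le_trans ?_ hZ
  rw [Real.rpow_def_of_pos (show (0 : ℝ) < 2 by norm_num) ((p.size : ℝ) ^ β - 1)]
  apply Real.exp_le_exp.mpr
  have := hn₀ p.size hsz.le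
  linarith

open Classical in
/-- **Theorem C.** -/
theorem theoremC {α ε : ℝ} (hα0 : 0 < α) (hα1 : α < 1) (hε : 0 < ε) :
    ∃ F : ℕ → List ℕ, SubexpTimeList α F ∧
      (∃ p₀ : ℕ, ∀ p : ℕ, p₀ ≤ p → p.Prime → 0 < (F p).length ∧ ∃ d : ℕ,
        (d : ℝ) ≤ Real.exp ((p.size : ℝ) ^ (1 - α + ε)) ∧ d ∣ p - 1 ∧
        Real.exp ((p.size : ℝ) ^ (α - ε)) * #{i ∈ range (F p).length |
          ¬ orderOf (((F p).getD i 0 : ℕ) : ZMod p) * d = p - 1} ≤ (F p).length) ∧
      ∃ x₀ : ℕ, ∀ x : ℕ, x₀ ≤ x → (#{p ∈ range (x + 1) | p.Prime ∧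
        ¬ (0 < (F p).length ∧ Real.exp ((p.size : ℝ) ^ (α - ε)) * #{i ∈ range (F p).length |
          ¬ orderOf (((F p).getD i 0 : ℕ) : ZMod p) = p - 1} ≤ (F p).length)} : ℝ) ≤
        Real.exp (Real.log x ^ (1 - α + ε)) := by
  obtain ⟨β, hβ1, hβ2⟩ := exists_between (max_lt hα0 (show α - ε / 4 < α by linarith))
  have hβ0 : 0 < β := (le_max_left _ _).trans_lt hβ1
  have hβε : α - ε / 4 < β := (le_max_right _ _).trans_lt hβ1
  have hβ' : β < 1 := hβ2.trans hα1
  obtain ⟨F, hF, p₂, hp₂⟩ := core_sub hβ0 hβ2 hα1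
  obtain ⟨p₃, hp₃⟩ := ev_exp_le (α := α) (ε := ε) hβ0 (by linarith)
  obtain ⟨p₀, hp₀⟩ : ∃ p₀ : ℕ, ∀ p : ℕ, p₀ ≤ p → p.Prime →
      ∃ Z : ℕ, (2 : ℝ) ^ ((p.size : ℝ) ^ β - 1) ≤ Z ∧ Z < p ∧ 0 < (F p).length ∧
        Real.exp ((p.size : ℝ) ^ (α - ε)) *
          #{i ∈ range (F p).length | ¬ Generates p (Gam p Z) ((F p).getD i 0)} ≤
          (F p).length := by
    refine ⟨max p₂ p₃, fun p hp hpp => ?_⟩
    obtain ⟨Z, hZ1, hZ2, hZ3, hZ4⟩ := hp₂ p (le_of_max_le_left hp) hpp
    refine ⟨Z, hZ1, hZ2, hZ3, ?_⟩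
    refine le_trans (mul_le_mul_of_nonneg_right (hp₃ p (le_of_max_le_right hp) Z hZ1)
      (Nat.cast_nonneg _)) ?_
    exact_mod_cast hZ4
  refine ⟨F, hF, ?_, ?_⟩
  · obtain ⟨p₁, hp₁⟩ := index_sub (δ := ε / 2) hβ' hβ0 (by linarith)
    refine ⟨max p₀ p₁, fun p hp hpp => ?_⟩
    have : Fact p.Prime := ⟨hpp⟩
    obtain ⟨Z, hZ1, hZ2, hZ0, hZ3⟩ := hp₀ p (le_of_max_le_left hp) hpp
    refine ⟨hZ0, (Gam p Z).index, ?_, dvd_sub_one _ dvd_rfl, ?_⟩
    · refine (hp₁ p (le_of_max_le_right hp) hpp Z hZ1).trans ?_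
      apply Real.exp_le_exp.mpr
      apply Real.rpow_le_rpow_of_exponent_le
      · have : 0 < p.size := Nat.size_pos.2 hpp.pos
        exact_mod_cast this
      · linarith
    · refine le_trans (mul_le_mul_of_nonneg_left (Nat.cast_le.2 (card_le_card ?_))
        (Real.exp_pos _).le) hZ3
      intro i hi
      rw [mem_filter] at hi ⊢
      exact ⟨hi.1, fun hg => hi.2 (order_of_generates hg)⟩
  · obtain ⟨Q₀, hQ₀⟩ := bad_sub (δ := ε / 4) hβ0 hβ' (by linarith)
    set P : ℕ → Prop := fun p => p.Prime ∧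
        ¬ (0 < (F p).length ∧ Real.exp ((p.size : ℝ) ^ (α - ε)) * #{i ∈ range (F p).length |
          ¬ orderOf (((F p).getD i 0 : ℕ) : ZMod p) = p - 1} ≤ (F p).length) with hP
    have hbad : ∀ p : ℕ, p₀ ≤ p → P p → BadS β p := by
      intro p hp hPp
      obtain ⟨hpp, hno⟩ := hPp
      have : Fact p.Prime := ⟨hpp⟩
      obtain ⟨Z, hZ1, hZ2, hZ0, hZ3⟩ := hp₀ p hp hpp
      refine ⟨hpp, Z, hZ1, hZ2, fun htop => hno ⟨hZ0, ?_⟩⟩
      refine le_trans (mul_le_mul_of_nonneg_left (Nat.cast_le.2 (card_le_card ?_))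
        (Real.exp_pos _).le) hZ3
      intro i hi
      rw [mem_filter] at hi ⊢
      refine ⟨hi.1, fun hg => hi.2 ?_⟩
      have h1 := order_of_generates hg
      rw [htop, Subgroup.index_top, mul_one] at h1
      exact h1
    -- the count in `(√y, y]` for `y ≤ x`
    set γ : ℝ := 1 - β + ε / 4 with hγ
    have hγ0 : 0 < γ := by linarith
    have key : ∀ x y : ℕ, y ≤ x → 1 ≤ x → #{p ∈ range (y + 1) | y < p ^ 2 ∧ (p ≤ x ∧ P p)} ≤
        Q₀ + p₀ + 1 + ⌈Real.exp (Real.log x ^ γ)⌉₊ := by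
      intro x y hyx hx1
      rcases Nat.lt_or_ge y Q₀ with hy | hy
      · refine (card_le_card (filter_subset _ _)).trans ?_
        rw [card_range]
        omega
      · have h2 : #{p ∈ range (y + 1) | y < p ^ 2 ∧ (p ≤ x ∧ P p)} ≤
            #(range p₀) + #{p ∈ range (y + 1) | y < p ^ 2 ∧ BadS β p} := by
          refine (card_le_card ?_).trans (card_union_le _ _)
          intro p hp
          rw [mem_filter] at hp
          rw [mem_union, mem_filter, mem_range]
          rcases Nat.lt_or_ge p p₀ with h | h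
          · exact Or.inl h
          · exact Or.inr ⟨hp.1, hp.2.1, hbad p h hp.2.2.2⟩
        have h3 : #{p ∈ range (y + 1) | y < p ^ 2 ∧ BadS β p} ≤
            ⌈Real.exp (Real.log x ^ γ)⌉₊ := by
          have h4 := hQ₀ y hy
          have h5 : Real.log y ^ γ ≤ Real.log x ^ γ := by
            rcases Nat.eq_zero_or_pos y with rfl | hy0
            · simp only [Nat.cast_zero, Real.log_zero]
              rw [Real.zero_rpow hγ0.ne']
              exact Real.rpow_nonneg (Real.log_nonneg (by exact_mod_cast hx1)) _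
            · apply Real.rpow_le_rpow (Real.log_nonneg (by exact_mod_cast hy0)) _ hγ0.le
              apply Real.log_le_log (by exact_mod_cast hy0)
              exact_mod_cast hyx
          have h6 := (h4.trans (Real.exp_le_exp.mpr h5)).trans (Nat.le_ceil _)
          exact_mod_cast h6
        rw [card_range] at h2
        omega
    have key2 : ∀ x : ℕ, 1 ≤ x → #{p ∈ range (x + 1) | P p} ≤
        (Q₀ + p₀ + 1 + ⌈Real.exp (Real.log x ^ γ)⌉₊) * (Nat.log 2 (Nat.log 2 x) + 1) := by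
      intro x hx1
      have h1 := total_count (fun p => p ≤ x ∧ P p) (fun p hp => hp.2.1.two_le)
        (Q₀ + p₀ + 1 + ⌈Real.exp (Real.log x ^ γ)⌉₊) (fun y => ?_) x
      · refine le_trans (card_le_card ?_) h1
        intro p hp
        rw [mem_filter, mem_range] at hp ⊢
        exact ⟨hp.1, by omega, hp.2⟩
      · rcases Nat.lt_or_ge x y with hxy | hxy
        · -- primes `≤ x < y` with `y < p ^ 2`
          refine le_trans (card_le_card ?_) (key x x le_rfl hx1)
          intro p hp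
          rw [mem_filter, mem_range] at hp ⊢
          exact ⟨by omega, by omega, hp.2.2⟩
        · exact key x y hxy hx1
    -- the final estimate
    have hfin : ∀ᶠ L : ℝ in atTop, 1 ≤ L ∧ Real.log (Q₀ + p₀ + 3) + L ^ γ + Real.log 4 +
        Real.log (Real.log L) ≤ L ^ (1 - α + ε) := by
      have hγε : γ < 1 - α + ε := by
        rw [hγ]
        linarith
      have ht : Tendsto (fun L : ℝ => (Real.log (Q₀ + p₀ + 3) + Real.log 4) / L ^ (1 - α + ε) +
          L ^ γ / L ^ (1 - α + ε) + Real.log L / L ^ (1 - α + ε)) atTop (𝓝 (0 + 0 + 0)) := by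
        refine Tendsto.add (Tendsto.add ?_ ?_) ?_
        · exact tendsto_const_nhds.div_atTop (tendsto_rpow_atTop (by linarith))
        · have h1 : Tendsto (fun L : ℝ => L ^ (-(1 - α + ε - γ))) atTop (𝓝 0) :=
            tendsto_rpow_neg_atTop (by linarith)
          refine h1.congr' ?_
          filter_upwards [eventually_gt_atTop 0] with L hL
          rw [← Real.rpow_sub hL]
          congr 1
          ring
        · exact (isLittleO_log_rpow_atTop (by linarith)).tendsto_div_nhds_zero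
      rw [add_zero, add_zero] at ht
      filter_upwards [ht.eventually (gt_mem_nhds one_pos), eventually_ge_atTop 3] with L h1 h2
      refine ⟨by linarith, ?_⟩
      have hL0 : 0 < L := by linarith
      have h3 : 0 < L ^ (1 - α + ε) := Real.rpow_pos_of_pos hL0 _
      rw [← add_div, ← add_div, div_lt_one h3] at h1
      have h4 : Real.log (Real.log L) ≤ Real.log L := by
        have h5 : 0 < Real.log L := Real.log_pos (by linarith)
        apply Real.log_le_log h5
        have := Real.log_le_sub_one_of_pos hL0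
        linarith
      linarith
    obtain ⟨x₀, hx₀⟩ := eventually_atTop.1 ((Real.tendsto_log_atTop.comp
      tendsto_natCast_atTop_atTop).eventually hfin)
    refine ⟨max x₀ 16, fun x hx => ?_⟩
    have hx16 : 16 ≤ x := le_of_max_le_right hx
    obtain ⟨h1, h2⟩ := hx₀ x (le_of_max_le_left hx)
    simp only [Function.comp] at h1 h2
    have h3 := key2 x (by omega)
    have h4 := loglog_le hx16
    have hE : 1 ≤ Real.exp (Real.log x ^ γ) :=
      Real.one_le_exp (Real.rpow_nonneg (by linarith) _)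
    have h5 : (⌈Real.exp (Real.log x ^ γ)⌉₊ : ℝ) ≤ 2 * Real.exp (Real.log x ^ γ) := by
      have := (Nat.ceil_lt_add_one (by linarith : 0 ≤ Real.exp (Real.log x ^ γ))).le
      linarith
    have h6 : ((Q₀ + p₀ + 1 + ⌈Real.exp (Real.log x ^ γ)⌉₊ : ℕ) : ℝ) ≤
        (Q₀ + p₀ + 3) * Real.exp (Real.log x ^ γ) := by
      push_cast
      have h7 : (0 : ℝ) ≤ (Q₀ : ℝ) + p₀ + 1 := by positivity
      nlinarith
    have hL2 : (1 : ℝ) < Real.log x := by
      have h7 : (1 : ℝ) < Real.log 16 := by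
        rw [Real.lt_log_iff_exp_lt (by norm_num)]
        have := Real.exp_one_lt_d9
        linarith
      refine h7.trans_le (Real.log_le_log (by norm_num) (by exact_mod_cast hx16))
    have hLL : 0 < Real.log (Real.log x) := Real.log_pos hL2
    calc (#{p ∈ range (x + 1) | P p} : ℝ)
        ≤ (((Q₀ + p₀ + 1 + ⌈Real.exp (Real.log x ^ γ)⌉₊) *
            (Nat.log 2 (Nat.log 2 x) + 1) : ℕ) : ℝ) := by exact_mod_cast h3
      _ = ((Q₀ + p₀ + 1 + ⌈Real.exp (Real.log x ^ γ)⌉₊ : ℕ) : ℝ) *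
            ((Nat.log 2 (Nat.log 2 x) + 1 : ℕ) : ℝ) := by rw [Nat.cast_mul]
      _ ≤ ((Q₀ + p₀ + 3) * Real.exp (Real.log x ^ γ)) * (4 * Real.log (Real.log x)) := by
            gcongr
      _ = Real.exp (Real.log (Q₀ + p₀ + 3) + Real.log x ^ γ + Real.log 4 +
            Real.log (Real.log (Real.log x))) := by
            rw [Real.exp_add, Real.exp_add, Real.exp_add, Real.exp_log (by positivity),
              Real.exp_log (by norm_num), Real.exp_log hLL]
            ring
      _ ≤ Real.exp (Real.log x ^ (1 - α + ε)) := Real.exp_le_exp.mpr h2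

end Pool.Agent.Run7.h440
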