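import Mathlib

set_option autoImplicit false

/-!
# Characters trivial on a subgroup
-/

namespace Pool.Agent.Run7.h440

open Finset

variable {p : ℕ} [hp : Fact p.Prime]

/-- a character which is trivial on `Γ` and not at `u` -/
theorem exists_char_sub (Γ : Subgroup (ZMod p)ˣ) {u : (ZMod p)ˣ} (hu : u ∉ Γ) :
    ∃ χ : DirichletCharacter ℂ p, (∀ w ∈ Γ, χ (w : ZMod p) = 1) ∧ χ (u : ZMod p) ≠ 1 := by
  have hu1 : (QuotientGroup.mk u : (ZMod p)ˣ ⧸ Γ) ≠ 1 := by
    intro h1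
    exact hu ((QuotientGroup.eq_one_iff u).1 h1)
  obtain ⟨psi, hpsi⟩ := CommGroup.exists_apply_ne_one_of_hasEnoughRootsOfUnity
    ((ZMod p)ˣ ⧸ Γ) ℂ hu1
  refine ⟨MulChar.ofUnitHom (psi.comp (QuotientGroup.mk' Γ)), ?_, ?_⟩
  · intro w hw
    rw [MulChar.ofUnitHom_coe]
    have h1 : (QuotientGroup.mk' Γ) w = 1 := (QuotientGroup.eq_one_iff _).2 hw
    rw [MonoidHom.comp_apply, h1, map_one]
    rfl
  · intro h1
    apply hpsi
    rw [MulChar.ofUnitHom_coe] at h1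
    exact Units.ext h1

open Classical in
/-- the characters which are trivial on `Γ` -/
noncomputable def ann (Γ : Subgroup (ZMod p)ˣ) : Finset (DirichletCharacter ℂ p) :=
  univ.filter (fun χ => ∀ w ∈ Γ, χ (w : ZMod p) = 1)

theorem mem_ann {Γ : Subgroup (ZMod p)ˣ} {χ : DirichletCharacter ℂ p} :
    χ ∈ ann Γ ↔ ∀ w ∈ Γ, χ (w : ZMod p) = 1 := by
  simp only [ann, mem_filter, mem_univ, true_and]

theorem one_mem_ann (Γ : Subgroup (ZMod p)ˣ) : (1 : DirichletCharacter ℂ p) ∈ ann Γ := by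
  rw [mem_ann]
  intro w _
  exact MulChar.one_apply_coe w

open Classical in
theorem sum_ann (Γ : Subgroup (ZMod p)ˣ) (u : (ZMod p)ˣ) :
    ∑ χ ∈ ann Γ, χ (u : ZMod p) = if u ∈ Γ then ((ann Γ).card : ℂ) else 0 := by
  split_ifs with h
  · rw [sum_congr rfl (g := fun _ => (1 : ℂ)) (fun χ hχ => mem_ann.1 hχ u h)]
    simp
  · obtain ⟨ψ, h1, h2⟩ := exists_char_sub Γ h
    have h3 : ∑ χ ∈ ann Γ, χ (u : ZMod p) = ∑ χ ∈ ann Γ, (ψ * χ) (u : ZMod p) := by
      refine sum_nbij' (fun χ => ψ⁻¹ * χ) (fun χ => ψ * χ) ?_ ?_ ?_ ?_ ?_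
      · intro χ hχ
        rw [mem_ann] at hχ ⊢
        intro w hw
        rw [MulChar.mul_apply, hχ w hw, mul_one, MulChar.inv_apply_eq_inv', h1 w hw, inv_one]
      · intro χ hχ
        rw [mem_ann] at hχ ⊢
        intro w hw
        rw [MulChar.mul_apply, hχ w hw, mul_one, h1 w hw]
      · intro χ _
        simp
      · intro χ _
        simp
      · intro χ _
        simp
    have h4 : ∑ χ ∈ ann Γ, (ψ * χ) (u : ZMod p) = ψ (u : ZMod p) * ∑ χ ∈ ann Γ, χ (u : ZMod p) := by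
      rw [mul_sum]
      rfl
    rw [h4] at h3
    have h5 : (1 - ψ (u : ZMod p)) * ∑ χ ∈ ann Γ, χ (u : ZMod p) = 0 := by
      rw [sub_mul, one_mul, ← h3, sub_self]
    rcases mul_eq_zero.1 h5 with h6 | h6
    · exact absurd (sub_eq_zero.1 h6).symm h2
    · exact h6

theorem card_ann (Γ : Subgroup (ZMod p)ˣ) : (ann Γ).card = Γ.index := by
  classical
  have h1 : ∑ u : (ZMod p)ˣ, ∑ χ ∈ ann Γ, χ (u : ZMod p) =
      ((ann Γ).card : ℂ) * Nat.card Γ := by
    rw [sum_congr rfl (fun u _ => sum_ann Γ u), ← sum_filter, sum_const, nsmul_eq_mul, mul_comm]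
    congr 2
    rw [Nat.card_eq_fintype_card]
    exact (Fintype.card_subtype _).symm
  have h2 : ∑ u : (ZMod p)ˣ, ∑ χ ∈ ann Γ, χ (u : ZMod p) = (Nat.card (ZMod p)ˣ : ℂ) := by
    rw [sum_comm, sum_eq_single_of_mem (1 : DirichletCharacter ℂ p) (one_mem_ann Γ)]
    · simp only [MulChar.one_apply_coe, sum_const, nsmul_eq_mul, mul_one]
      rw [Nat.card_eq_fintype_card]
      rfl
    · intro χ _ hχ
      have h3 : ∑ a : ZMod p, χ a = 0 := MulChar.sum_eq_zero_of_ne_one hχ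
      have h4 : ∑ u : (ZMod p)ˣ, χ (u : ZMod p) = ∑ a : ZMod p, χ a := by
        refine sum_bij_ne_zero (fun u _ _ => (u : ZMod p)) (fun _ _ _ => mem_univ _)
          (fun _ _ _ _ _ _ h => Units.ext h) ?_ (fun _ _ _ => rfl)
        intro b _ hb
        have hu : IsUnit b := by
          by_contra hc
          exact hb (χ.map_nonunit hc)
        exact ⟨hu.unit, mem_univ _, hb, rfl⟩
      rw [h4, h3]
  rw [h1] at h2
  have h5 : (ann Γ).card * Nat.card Γ = Nat.card (ZMod p)ˣ := by exact_mod_cast h2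
  have h6 := Γ.card_mul_index
  have h7 : 0 < Nat.card Γ := Nat.card_pos
  rw [← h6, mul_comm] at h5
  exact Nat.eq_of_mul_eq_mul_left h7 h5

end Pool.Agent.Run7.h440
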