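import Pool.Agent.Run7.h440.Inv
import Pool.Agent.H595R2.PR.STR
import Pool.Agent.H595R2.PR.COR

set_option autoImplicit false

/-!
# Correctness of the search
-/

namespace Pool.Agent.Run7.h440

open Pool.Agent.NPC Function Pool.Agent.H595R2.PR Pool.Agent.NPC.H595POL

/-- the invariant of the first phase -/
structure Ph1 (p : ℕ) (s : St) : Prop where
  dvd : s.2.2.1 ∣ p - 1
  low : ∀ q : ℕ, q.Prime → q < s.2.1 → ¬ q ∣ s.2.2.1
  high : ∀ q : ℕ, q.Prime → s.2.1 ≤ q → ∀ a : ℕ, q ^ a ∣ p - 1 → q ^ a ∣ s.2.2.1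
  mem : ∀ q : ℕ, q.Prime → q < s.2.1 → ∀ a : ℕ, 1 ≤ a → q ^ a ∣ p - 1 → q ^ a ∈ s.2.2.2.1
  nil : s.2.2.2.2 = []

theorem Ph1.init {p : ℕ} (Z Y : ℕ) (hp : 2 ≤ p) : Ph1 p (init p Z Y) where
  dvd := by
    show max (p - 1) 1 ∣ p - 1
    rw [max_eq_left (by omega)]
  low := by
    intro q hq h
    have : q < 2 := h
    exact absurd hq.two_le (by omega)
  high := by
    intro q _ _ a h
    show q ^ a ∣ max (p - 1) 1
    rwa [max_eq_left (by omega)]
  mem := by
    intro q hq h
    have : q < 2 := h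
    exact absurd hq.two_le (by omega)
  nil := rfl

theorem Ph1.step {p Z Y i M : ℕ} {r f : List ℕ} (hp : 2 ≤ p) (h : Ph1 p ((p, Z, Y), i, M, r, f))
    (hi : 2 ≤ i) (hiZ : i ≤ Z) : Ph1 p (stepS ((p, Z, Y), i, M, r, f)) := by
  have hM : M ∣ p - 1 := h.dvd
  have hM0 : 0 < M := Nat.pos_of_dvd_of_pos hM (by omega)
  have hMlt : M < 2 ^ p.size := by
    have h1 := Nat.le_of_dvd (by omega) hM
    have h2 : p < 2 ^ p.size := Nat.lt_size_self _
    omega
  have hlow : ∀ q : ℕ, q.Prime → q < i → ¬ q ∣ M := h.low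
  have hhigh : ∀ q : ℕ, q.Prime → i ≤ q → ∀ a : ℕ, q ^ a ∣ p - 1 → q ^ a ∣ M := h.high
  have hmem : ∀ q : ℕ, q.Prime → q < i → ∀ a : ℕ, 1 ≤ a → q ^ a ∣ p - 1 → q ^ a ∈ r := h.mem
  have hnil : f = [] := h.nil
  unfold stepS
  dsimp only
  rw [if_pos hiZ]
  by_cases g : M % i = 0
  · rw [if_pos g]
    have hdi : i ∣ M := Nat.dvd_of_mod_eq_zero g
    have hpr : i.Prime := by
      obtain ⟨q, hq, hqi⟩ := Nat.exists_prime_and_dvd (n := i) (by omega)
      have h1 : q ≤ i := Nat.le_of_dvd (by omega) hqi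
      rcases h1.lt_or_eq with h2 | h2
      · exact absurd (hqi.trans hdi) (hlow q hq h2)
      · rwa [← h2]
    have hs : strip i p.size M = M / i ^ M.factorization i := strip_eq hpr hM0 hMlt
    have hsd : strip i p.size M ∣ M := by
      rw [hs]
      exact Nat.div_dvd_of_dvd (Nat.ordProj_dvd M i)
    refine ⟨hsd.trans hM, ?_, ?_, ?_, hnil⟩
    · intro q hq hqi
      dsimp only at hqi ⊢
      rcases (Nat.lt_succ_iff.1 hqi).lt_or_eq with h2 | h2
      · exact fun h3 => hlow q hq h2 (h3.trans hsd)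
      · rw [h2, hs]
        exact Nat.not_dvd_ordCompl hpr hM0.ne'
    · intro q hq hqi a ha
      dsimp only at hqi ⊢
      have h1 := hhigh q hq (by omega) a ha
      have h2 : M = i ^ M.factorization i * strip i p.size M := by
        rw [hs]
        exact (Nat.ordProj_mul_ordCompl_eq_self M i).symm
      rw [h2] at h1
      refine Nat.Coprime.dvd_of_dvd_mul_left ?_ h1
      exact Nat.Coprime.pow _ _ ((Nat.coprime_primes hq hpr).2 (by omega))
    · intro q hq hqi a ha1 ha
      dsimp only at hqi ⊢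
      rcases (Nat.lt_succ_iff.1 hqi).lt_or_eq with h2 | h2
      · exact List.mem_append_right _ (hmem q hq h2 a ha1 ha)
      · refine List.mem_append_left _ (mem_pows.2 ⟨a - 1, ?_, ?_, ?_⟩)
        · have h3 := hhigh q hq (by omega) a ha
          have h4 := Nat.le_of_dvd hM0 h3
          have h5 : 2 ^ a ≤ q ^ a := Nat.pow_le_pow_left hq.two_le a
          have h6 : 2 ^ a < 2 ^ p.size := by omega
          have := (Nat.pow_lt_pow_iff_right (by norm_num)).1 h6
          omega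
        · rw [h2, Nat.sub_add_cancel ha1]
        · exact hhigh q hq (by omega) a ha
  · rw [if_neg g]
    have hdi : ¬ i ∣ M := fun h => g (Nat.mod_eq_zero_of_dvd h)
    refine ⟨hM, ?_, ?_, ?_, hnil⟩
    · intro q hq hqi
      dsimp only at hqi ⊢
      rcases (Nat.lt_succ_iff.1 hqi).lt_or_eq with h2 | h2
      · exact hlow q hq h2
      · rwa [h2]
    · intro q hq hqi a ha
      dsimp only at hqi ⊢
      exact hhigh q hq (by omega) a ha
    · intro q hq hqi a ha1 ha
      dsimp only at hqi ⊢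
      rcases (Nat.lt_succ_iff.1 hqi).lt_or_eq with h2 | h2
      · exact hmem q hq h2 a ha1 ha
      · exfalso
        have h3 := hhigh q hq (by omega) a ha
        rw [h2] at h3
        exact hdi ((dvd_pow_self i (by omega)).trans h3)

/-- the first phase -/
theorem ph1_it {p Z Y : ℕ} (hp : 2 ≤ p) (k : ℕ) (hk : k + 1 ≤ Z) :
    Ph1 p (stepS^[k] (init p Z Y)) := by
  induction k with
  | zero => exact Ph1.init Z Y hp
  | succ k ih =>
    have h1 := ih (by omega)
    have h2 := it_fst p Z Y k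
    have h3 := it_i p Z Y k
    rw [iterate_succ_apply']
    generalize stepS^[k] (init p Z Y) = s at *
    obtain ⟨a, i, M, r, f⟩ := s
    dsimp only at h2 h3
    subst h2 h3
    exact h1.step hp (by omega) (by omega)

/-- the invariant of the second phase; `r₀` is the list at the end of the first phase -/
structure Ph2 (p Z : ℕ) (r₀ : List ℕ) (s : St) : Prop where
  i : Z < s.2.1
  f : ∀ y ∈ s.2.2.2.2, 1 ≤ y ∧ y + Z < s.2.1
  mem : ∀ q ∈ r₀, (∃ y ∈ s.2.2.2.2, isres p y q = false) ∨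
    (q ∈ s.2.2.2.1 ∧ ∀ x, 1 ≤ x → x + Z < s.2.1 → isres p x q = true)

theorem Ph2.step {p Z Y i M : ℕ} {r₀ r f : List ℕ} (h : Ph2 p Z r₀ ((p, Z, Y), i, M, r, f)) :
    Ph2 p Z r₀ (stepS ((p, Z, Y), i, M, r, f)) := by
  have h1 : Z < i := h.i
  have h2 : ∀ y ∈ f, 1 ≤ y ∧ y + Z < i := h.f
  have h3 : ∀ q ∈ r₀, (∃ y ∈ f, isres p y q = false) ∨
    (q ∈ r ∧ ∀ x, 1 ≤ x → x + Z < i → isres p x q = true) := h.mem
  unfold stepS
  dsimp only
  rw [if_neg (by omega)]
  refine ⟨by dsimp only; omega, ?_, ?_⟩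
  · intro y hy
    dsimp only at hy ⊢
    split_ifs at hy
    · have := h2 y hy; omega
    · rcases List.mem_cons.1 hy with rfl | hy
      · omega
      · have := h2 y hy; omega
  · intro q hq
    dsimp only
    rcases h3 q hq with ⟨y, hy, hy'⟩ | ⟨hqr, hx⟩
    · left
      refine ⟨y, ?_, hy'⟩
      split_ifs
      · exact hy
      · exact List.mem_cons_of_mem _ hy
    · cases hc : isres p (i - Z) q with
      | false =>
        left
        refine ⟨i - Z, ?_, hc⟩
        rw [if_neg]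
        · exact List.mem_cons_self
        · intro hall
          rw [List.all_eq_true] at hall
          rw [hall q hqr] at hc
          exact absurd hc (by simp)
      | true =>
        right
        refine ⟨List.mem_filter.2 ⟨hqr, hc⟩, fun x hx1 hx2 => ?_⟩
        rcases Nat.lt_or_ge (x + Z) i with h4 | h4
        · exact hx x hx1 h4
        · have : x = i - Z := by omega
          rwa [this]

/-- the second phase -/
theorem ph2_it {p Z Y : ℕ} (hp : 2 ≤ p) (hZ : 1 ≤ Z) (k : ℕ) :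
    Ph2 p Z (stepS^[Z - 1] (init p Z Y)).2.2.2.1 (stepS^[Z - 1 + k] (init p Z Y)) := by
  induction k with
  | zero =>
    have h1 := ph1_it (Z := Z) (Y := Y) hp (Z - 1) (by omega)
    have h3 := it_i p Z Y (Z - 1)
    refine ⟨by rw [add_zero, h3]; omega, ?_, ?_⟩
    · intro y hy
      rw [add_zero, h1.nil] at hy
      cases hy
    · intro q hq
      right
      refine ⟨hq, fun x hx1 hx2 => ?_⟩
      rw [add_zero, h3] at hx2
      omega
  | succ k ih =>
    have h2 := it_fst p Z Y (Z - 1 + k)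
    rw [← add_assoc, iterate_succ_apply']
    generalize stepS^[Z - 1 + k] (init p Z Y) = s at *
    obtain ⟨a, i, M, r, f⟩ := s
    dsimp only at h2
    subst h2
    exact ih.step

/-- the numbers which have been found -/
def found (p Z Y : ℕ) : List ℕ := (stepS^[Z + Y - 1] (init p Z Y)).2.2.2.2

theorem length_found (p Z Y : ℕ) : (found p Z Y).length ≤ p.size := by
  have h1 := (bd_it p Z Y (Z + Y - 1)).length
  rw [it_fst] at h1
  unfold found
  dsimp only at h1
  omega

theorem mem_found {p Z Y : ℕ} (hp : 2 ≤ p) (hZ : 1 ≤ Z) {y : ℕ} (hy : y ∈ found p Z Y) :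
    1 ≤ y ∧ y ≤ Y := by
  have h1 := (ph2_it (Y := Y) hp hZ Y).f
  have e : Z - 1 + Y = Z + Y - 1 := by omega
  rw [e] at h1
  have h2 := h1 y hy
  rw [it_i] at h2
  omega

theorem found_spec {p Z Y : ℕ} (hp : 2 ≤ p) (hZ : 1 ≤ Z) {q a x : ℕ} (hq : q.Prime) (hqZ : q ≤ Z)
    (ha : 1 ≤ a) (hd : q ^ a ∣ p - 1) (hx : 1 ≤ x) (hxY : x ≤ Y)
    (hres : isres p x (q ^ a) = false) : ∃ y ∈ found p Z Y, isres p y (q ^ a) = false := by
  have h1 := ph1_it (Z := Z) (Y := Y) hp (Z - 1) (by omega)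
  have h3 := it_i p Z Y (Z - 1)
  have h4 := h1.mem q hq (by rw [h3]; omega) a ha hd
  have h2 := ph2_it (Y := Y) hp hZ Y
  have e : Z - 1 + Y = Z + Y - 1 := by omega
  rcases h2.mem _ h4 with h5 | ⟨_, h5⟩
  · rw [e] at h5
    exact h5
  · exfalso
    have h6 := h5 x hx (by rw [it_i]; omega)
    rw [hres] at h6
    exact absurd h6 (by simp)

theorem isres_iff {p : ℕ} [Fact p.Prime] (x l : ℕ) :
    isres p x l = true ↔ (x : ZMod p) ^ ((p - 1) / l) = 1 := by
  unfold isres
  rw [decide_eq_true_iff]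
  have h1 := cor_pw (p := p) x ((p - 1) / l)
  have h2 := cor_md (p := p) 1
  rw [Nat.cast_one] at h2
  rw [← h1, ← h2]
  constructor
  · intro h; rw [h]
  · intro h
    have h3 := (ZMod.natCast_eq_natCast_iff _ _ _).1 h
    have h4 := cor_pw_lt (p := p) x ((p - 1) / l)
    have h5 := cor_md_lt (p := p) 1
    exact Nat.ModEq.eq_of_lt_of_lt h3 h4 h5

theorem isres_false_iff {p : ℕ} [Fact p.Prime] (x l : ℕ) :
    isres p x l = false ↔ (x : ZMod p) ^ ((p - 1) / l) ≠ 1 := by
  rw [← Bool.not_eq_true, isres_iff]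

end Pool.Agent.Run7.h440
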