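import Pool.Agent.Run7.h440.Main
import Pool.Agent.H595R2.PR.FEW
import Pool.Agent.Y165.HN.Burg

set_option autoImplicit false

/-!
# The Burgess bound: all residues are reached
-/

namespace Pool.Agent.Run7.h440

open Finset Pool.Agent.H595R2.PR Pool.Agent.R562.PR

/-- The numbers up to `p ^ η` generate the whole group if `η > 1 / (4 √e)`. -/
theorem gam_top {η : ℝ} (hη : 1 / (4 * Real.exp (1 / 2)) < η) : ∃ p₀ : ℕ, ∀ p : ℕ, p₀ ≤ p →
    p.Prime → ∀ Y : ℕ, (p : ℝ) ^ η ≤ Y → Y < p → Gam p Y = ⊤ := by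
  set c : ℝ := 1 / (4 * Real.exp (1 / 2)) with hc
  obtain ⟨q0, hq0⟩ := Pool.Agent.Y165.HN.burg ((η - c) / 2) (by linarith)
  refine ⟨max q0 2, fun p hp hpp Y hY hYp => ?_⟩
  have : Fact p.Prime := ⟨hpp⟩
  by_contra hne
  obtain ⟨χ, hχ, h1⟩ := FEW.exists_char hYp hne
  have h2 := hq0 p (le_of_max_le_left hp) hpp χ hχ Y (fun l hl hlY => h1 l hl.one_le hlY)
  have hp1 : (1 : ℝ) < p := by exact_mod_cast hpp.one_lt
  have h3 : (p : ℝ) ^ (c + (η - c) / 2) < (p : ℝ) ^ η :=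
    Real.rpow_lt_rpow_of_exponent_lt hp1 (by linarith)
  linarith

open Classical in
/-- Lists of candidates for every prime, in time `p ^ θ`, `θ > 1 / (4 √e)`. -/
theorem every_prime {θ : ℝ} (hθ : 1 / (4 * Real.exp (1 / 2)) < θ) (B : ℕ) :
    ∃ (C : ℕ) (F : ℕ → List ℕ), ExpTimeList θ F ∧ (∀ p : ℕ, (F p).length = p.size ^ C) ∧
      ∃ p₀ : ℕ, ∀ p : ℕ, p₀ ≤ p → p.Prime →
        p.size ^ B * #{i ∈ range (F p).length | ¬ IsPrimRoot p ((F p).getD i 0)} ≤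
          (F p).length := by
  have h4 : (1 : ℝ) / (4 * Real.exp (1 / 2)) < 1 := by
    rw [div_lt_one (by positivity)]
    have := Real.add_one_le_exp (1 / 2 : ℝ)
    linarith
  obtain ⟨η, h1, h2⟩ := exists_between (lt_min hθ h4)
  obtain ⟨C, F, hF, hlen, p₁, hp₁⟩ := core_time (lt_trans (by positivity) h1)
    (h2.trans_le (min_le_right _ _)) (h2.trans_le (min_le_left _ _)) B
  obtain ⟨p₂, hp₂⟩ := gam_top h1
  refine ⟨C, F, hF, hlen, max p₁ p₂, fun p hp hpp => ?_⟩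
  have : Fact p.Prime := ⟨hpp⟩
  obtain ⟨Γ, Y, hY, hYp, hΓ, _, h3⟩ := hp₁ p (le_of_max_le_left hp) hpp
  have htop : Γ = ⊤ := by
    rw [hp₂ p (le_of_max_le_right hp) hpp Y hY hYp] at hΓ
    exact top_le_iff.1 hΓ
  refine le_trans (Nat.mul_le_mul_left _ (card_le_card ?_)) h3
  intro i hi
  rw [mem_filter] at hi ⊢
  refine ⟨hi.1, fun hg => hi.2 ?_⟩
  rw [htop] at hg
  exact prim_of_generates hg

end Pool.Agent.Run7.h440
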