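import Pool.Agent.Run7.h440.Idx

set_option autoImplicit false

/-!
# Few primes for which the numbers up to a power of `p` do not generate the group
-/

namespace Pool.Agent.Run7.h440

open Finset Filter Topology Pool.Agent.H595R2.PR Pool.Agent.R562.PR Pool.Agent.TH668.PR
  Pool.Agent.Helper923.HRho

/-- a character which is `1` at `1, …, Y` is `1` at the smooth numbers -/
theorem char_smooth {p Y : ℕ} {χ : DirichletCharacter ℂ p}
    (h : ∀ i : ℕ, 1 ≤ i → i ≤ Y → χ (i : ZMod p) = 1) :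
    ∀ n : ℕ, 1 ≤ n → (∀ l : ℕ, l.Prime → l ∣ n → l ≤ Y) → χ (n : ZMod p) = 1 := by
  intro n
  induction n using Nat.strong_induction_on with
  | _ n ih =>
  intro h1 h3
  rcases Nat.lt_or_ge 1 n with hn | hn
  · have hl : n.minFac.Prime := Nat.minFac_prime (by omega)
    obtain ⟨m, hm⟩ := Nat.minFac_dvd n
    set l := n.minFac with hldef
    have hm1 : 1 ≤ m := by
      rcases Nat.eq_zero_or_pos m with h0 | h0
      · rw [h0, mul_zero] at hm; omega
      · exact h0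
    have hmn : m < n := by
      rw [hm]
      exact lt_mul_of_one_lt_left (by omega) hl.one_lt
    have hmem := ih m hmn hm1 (fun q hq hd => h3 q hq (hm ▸ dvd_mul_of_dvd_right hd l))
    rw [hm, Nat.cast_mul, map_mul, hmem, mul_one]
    exact h l hl.one_le (h3 l hl (Nat.minFac_dvd n))
  · have : n = 1 := by omega
    subst this
    rw [Nat.cast_one, map_one]

open Classical in
/-- the primes `p` for which `1, …, ⌊p ^ η⌋` do not generate the group -/
def Bad (η : ℝ) (p : ℕ) : Prop :=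
  p.Prime ∧ ∃ Y : ℕ, (p : ℝ) ^ η ≤ Y ∧ Y < p ∧ Gam p Y ≠ ⊤

open Classical in
/-- the large sieve bound -/
theorem sieve_bound {Q y : ℕ} {E : Finset ℕ} (hE : ∀ p ∈ E, p ≤ Q ∧ p.Prime ∧ y < p ∧ Gam p y ≠ ⊤) :
    (E.card : ℝ) * (smo (Q ^ 2) y).card ≤ 12 * (Q : ℝ) ^ 2 := by
  set N := Q ^ 2 with hN
  set S := smo N y with hS
  have hLS := Helper112.mult_large_sieve N Q (fun n => if n ∈ S then (1 : ℂ) else 0)
  have hsub : E ⊆ Icc 1 Q := by
    intro p hp
    rw [mem_Icc]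
    exact ⟨(hE p hp).2.1.one_le, (hE p hp).1⟩
  have hSI : S ⊆ Icc 1 N := filter_subset _ _
  have hlow : (E.card : ℝ) * (S.card : ℝ) ^ 2 ≤ ∑ f ∈ Icc 1 Q, ((f : ℝ) / (Nat.totient f : ℝ)) *
      ∑ χ ∈ (univ : Finset (DirichletCharacter ℂ f)).filter (fun χ => χ.IsPrimitive),
        ‖∑ n ∈ Icc 1 N, (if n ∈ S then (1 : ℂ) else 0) * χ (n : ZMod f)‖ ^ 2 := by
    rw [← nsmul_eq_mul, ← sum_const]
    refine le_trans (sum_le_sum ?_) (sum_le_sum_of_subset_of_nonneg hsub ?_)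
    · intro p hp
      obtain ⟨hpQ, hpp, hyp, hne⟩ := hE p hp
      have : Fact p.Prime := ⟨hpp⟩
      obtain ⟨χ, hχ1, hχ⟩ := FEW.exists_char hyp hne
      have hprim := Pool.Agent.H386R2.Artin.T1.prim_of_prime hpp hχ1
      have h1 : (S.card : ℝ) ^ 2 ≤
          ‖∑ n ∈ Icc 1 N, (if n ∈ S then (1 : ℂ) else 0) * χ (n : ZMod p)‖ ^ 2 := by
        have h2 : ∑ n ∈ Icc 1 N, (if n ∈ S then (1 : ℂ) else 0) * χ (n : ZMod p) = (S.card : ℂ) := by
          rw [sum_congr rfl (g := fun n => if n ∈ S then (1 : ℂ) else 0), ← sum_filter,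
            filter_mem_eq_inter, inter_eq_right.2 hSI, sum_const, nsmul_eq_mul, mul_one]
          intro n _
          split_ifs with hn
          · rw [hS, mem_smo] at hn
            rw [one_mul]
            exact char_smooth hχ n hn.1.1 hn.2
          · rw [zero_mul]
        rw [h2, Complex.norm_natCast]
      have h2 : ‖∑ n ∈ Icc 1 N, (if n ∈ S then (1 : ℂ) else 0) * χ (n : ZMod p)‖ ^ 2 ≤
          ∑ χ ∈ (univ : Finset (DirichletCharacter ℂ p)).filter (fun χ => χ.IsPrimitive),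
            ‖∑ n ∈ Icc 1 N, (if n ∈ S then (1 : ℂ) else 0) * χ (n : ZMod p)‖ ^ 2 :=
        single_le_sum (f := fun χ : DirichletCharacter ℂ p =>
          ‖∑ n ∈ Icc 1 N, (if n ∈ S then (1 : ℂ) else 0) * χ (n : ZMod p)‖ ^ 2)
          (fun _ _ => sq_nonneg _) (mem_filter.mpr ⟨mem_univ _, hprim⟩)
      have h3 : (1 : ℝ) ≤ (p : ℝ) / (Nat.totient p : ℝ) := by
        have h0 : (0 : ℝ) < (Nat.totient p : ℝ) := by
          exact_mod_cast Nat.totient_pos.mpr hpp.pos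
        rw [le_div_iff₀ h0, one_mul]
        exact_mod_cast Nat.totient_le p
      calc (S.card : ℝ) ^ 2 ≤ _ := h1.trans h2
        _ ≤ _ := le_mul_of_one_le_left (sum_nonneg fun _ _ => sq_nonneg _) h3
    · intro f _ _
      exact mul_nonneg (div_nonneg (Nat.cast_nonneg _) (Nat.cast_nonneg _))
        (sum_nonneg fun _ _ => sq_nonneg _)
  have hsq : ∑ n ∈ Icc 1 N, ‖(if n ∈ S then (1 : ℂ) else 0)‖ ^ 2 = (S.card : ℝ) := by
    rw [sum_congr rfl (g := fun n => if n ∈ S then (1 : ℝ) else 0), ← sum_filter,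
      filter_mem_eq_inter, inter_eq_right.2 hSI, sum_const, nsmul_eq_mul, mul_one]
    intro n _
    split_ifs <;> simp
  have h5 : (E.card : ℝ) * (S.card : ℝ) ^ 2 ≤ 12 * (Q : ℝ) ^ 2 * S.card := by
    refine (hlow.trans (le_of_le_of_eq ?_ (by
      show 6 * ((N : ℝ) + (Q : ℝ) ^ 2) *
        ∑ n ∈ Icc 1 N, ‖(if n ∈ S then (1 : ℂ) else 0)‖ ^ 2 = _
      rw [hsq, hN]
      push_cast
      ring)))
    convert hLS using 1
  rcases Nat.eq_zero_or_pos S.card with h0 | h0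
  · rw [h0]
    simp
  · have h0' : (0 : ℝ) < S.card := by exact_mod_cast h0
    have h6 : (E.card : ℝ) * S.card * S.card ≤ 12 * (Q : ℝ) ^ 2 * S.card := by
      calc (E.card : ℝ) * S.card * S.card = (E.card : ℝ) * (S.card : ℝ) ^ 2 := by ring
        _ ≤ _ := h5
    exact le_of_mul_le_mul_right h6 h0'

theorem gam_mono {p Y Y' : ℕ} (h : Y ≤ Y') : Gam p Y ≤ Gam p Y' := by
  unfold Gam
  refine Subgroup.closure_mono ?_
  rintro u ⟨i, hi, hu⟩
  exact ⟨i, by omega, hu⟩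

open Classical in
/-- **At most `K` exceptional primes between `√Q` and `Q`.** -/
theorem few_bad {η : ℝ} (hη : 0 < η) : ∃ K : ℝ, ∃ Q₀ : ℕ, ∀ Q : ℕ, Q₀ ≤ Q →
    (#{p ∈ range (Q + 1) | Q < p ^ 2 ∧ Bad η p} : ℝ) ≤ K := by
  set v : ℝ := max 1 (8 / η) with hv
  have hv1 : 1 ≤ v := le_max_left _ _
  have hr : 0 < rho v := rho_pos v
  obtain ⟨X₀, hX₀⟩ := smo_ge hv1 (half_pos hr)
  have hev : ∀ᶠ x : ℝ in atTop, x ^ (η / 4) + 1 ≤ x ^ (η / 2) ∧ 1 < x ∧ (X₀ : ℝ) ≤ x := by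
    filter_upwards [(tendsto_rpow_atTop (show 0 < η / 4 by positivity)).eventually_ge_atTop 2,
      eventually_gt_atTop 1, eventually_ge_atTop (X₀ : ℝ)] with x h1 h2 h3
    refine ⟨?_, h2, h3⟩
    have e : x ^ (η / 2) = x ^ (η / 4) * x ^ (η / 4) := by
      rw [← Real.rpow_add (by linarith)]
      congr 1
      ring
    rw [e]
    nlinarith
  obtain ⟨Q₀, hQ₀⟩ := eventually_atTop.1 (tendsto_natCast_atTop_atTop.eventually hev)
  refine ⟨24 / rho v, Q₀, fun Q hQ => ?_⟩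
  obtain ⟨h1, h2, h3⟩ := hQ₀ Q hQ
  have hQ1 : 1 ≤ Q := by
    have : (1 : ℝ) ≤ Q := h2.le
    exact_mod_cast this
  have hQ0 : (0 : ℝ) < Q := by linarith
  set y : ℕ := min ⌊(Q : ℝ) ^ (η / 2)⌋₊ (Q ^ 2) with hy
  set E : Finset ℕ := {p ∈ range (Q + 1) | Q < p ^ 2 ∧ Bad η p} with hEdef
  have hEprop : ∀ p ∈ E, p ≤ Q ∧ p.Prime ∧ y < p ∧ Gam p y ≠ ⊤ := by
    intro p hp
    rw [hEdef, mem_filter, mem_range] at hp
    obtain ⟨hpQ, hQp, hpp, Y, hY, hYp, hne⟩ := hp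
    have hp0 : (0 : ℝ) < p := by exact_mod_cast hpp.pos
    have hyY : y ≤ Y := by
      have h4 : (Q : ℝ) ^ (η / 2) ≤ (p : ℝ) ^ η := by
        have h5 : (Q : ℝ) ≤ (p : ℝ) ^ (2 : ℝ) := by
          have : (Q : ℝ) ≤ (p : ℝ) ^ 2 := by exact_mod_cast hQp.le
          calc (Q : ℝ) ≤ (p : ℝ) ^ 2 := this
            _ = (p : ℝ) ^ (2 : ℝ) := by norm_cast
        calc (Q : ℝ) ^ (η / 2) ≤ ((p : ℝ) ^ (2 : ℝ)) ^ (η / 2) :=
              Real.rpow_le_rpow hQ0.le h5 (by positivity)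
          _ = (p : ℝ) ^ η := by
              rw [← Real.rpow_mul hp0.le]
              congr 1
              ring
      have h5 : y ≤ ⌊(Q : ℝ) ^ (η / 2)⌋₊ := min_le_left _ _
      have h6 : (⌊(Q : ℝ) ^ (η / 2)⌋₊ : ℝ) ≤ Y :=
        (Nat.floor_le (Real.rpow_nonneg hQ0.le _)).trans (h4.trans hY)
      exact h5.trans (by exact_mod_cast h6)
    refine ⟨by omega, hpp, by omega, fun htop => hne ?_⟩
    exact top_le_iff.1 (htop ▸ gam_mono hyY)
  have h4 := sieve_bound hEprop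
  have h5 : ((Q ^ 2 : ℕ) : ℝ) * (rho v - rho v / 2) ≤ (smo (Q ^ 2) y).card := by
    refine hX₀ (Q ^ 2) ?_ y ?_ (min_le_right _ _)
    · have : X₀ ≤ Q := by exact_mod_cast h3
      nlinarith
    · have h6 : (1 : ℝ) ≤ ((Q ^ 2 : ℕ) : ℝ) := by
        exact_mod_cast Nat.one_le_pow _ _ hQ1
      rw [hy, Nat.cast_min]
      apply le_min
      · calc ((Q ^ 2 : ℕ) : ℝ) ^ (1 / v) ≤ ((Q ^ 2 : ℕ) : ℝ) ^ (η / 8) := by
              apply Real.rpow_le_rpow_of_exponent_le h6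
              have h7 : 8 / η ≤ v := le_max_right _ _
              rw [div_le_iff₀ hη] at h7
              rw [div_le_iff₀ (by linarith)]
              linarith
          _ = (Q : ℝ) ^ (η / 4) := by
              push_cast
              rw [← Real.rpow_natCast (Q : ℝ) 2, ← Real.rpow_mul hQ0.le]
              congr 1
              push_cast
              ring
          _ ≤ (⌊(Q : ℝ) ^ (η / 2)⌋₊ : ℝ) := by
              have := Nat.lt_floor_add_one ((Q : ℝ) ^ (η / 2))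
              linarith
      · calc ((Q ^ 2 : ℕ) : ℝ) ^ (1 / v) ≤ ((Q ^ 2 : ℕ) : ℝ) ^ (1 : ℝ) := by
              apply Real.rpow_le_rpow_of_exponent_le h6
              rw [div_le_one (by linarith)]
              exact hv1
          _ = _ := Real.rpow_one _
  rw [le_div_iff₀ hr]
  have hQ2 : (0 : ℝ) < (Q : ℝ) ^ 2 := by positivity
  push_cast at h5
  have h7 : (E.card : ℝ) * ((Q : ℝ) ^ 2 * (rho v - rho v / 2)) ≤ 12 * (Q : ℝ) ^ 2 :=
    (mul_le_mul_of_nonneg_left h5 (Nat.cast_nonneg _)).trans h4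
  have h8 : (Q : ℝ) ^ 2 * ((E.card : ℝ) * rho v) ≤ (Q : ℝ) ^ 2 * 24 := by
    have e : (Q : ℝ) ^ 2 * ((E.card : ℝ) * rho v) =
      2 * ((E.card : ℝ) * ((Q : ℝ) ^ 2 * (rho v - rho v / 2))) := by ring
    rw [e]
    linarith
  exact le_of_mul_le_mul_left h8 hQ2

end Pool.Agent.Run7.h440
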