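import Pool.Agent.Run7.h440.HH

set_option autoImplicit false

/-!
# Candidates for the group generated by `1, …, 2 ^ h`
-/

namespace Pool.Agent.Run7.h440

open Finset Pool.Agent.NPC Function Turing Pool.Agent.H595R2.PR Pool.Agent.NPC.H595POL
  Pool.Agent.NPC.R562POL Pool.Agent.R562.PR

/-- the list of `L` candidates -/
def candsL (L p : ℕ) (s : List ℕ) : List ℕ := (List.range L).map (candS p p.size L s)

theorem length_candsL (L p : ℕ) (s : List ℕ) : (candsL L p s).length = L := by simp [candsL]

open Classical in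
theorem coreL (L p : ℕ) (hpp : p.Prime) (s : List ℕ) :
    #{a ∈ range L | ¬ Generates p (listGroup p s) ((candsL L p s).getD a 0)} ≤
      s.length * p.size := by
  have : Fact p.Prime := ⟨hpp⟩
  obtain ⟨b, E, hb, hE, hE', hc⟩ := candS_eq (p := p) (n := p.size) (L := L) s
    (Nat.lt_size_self p)
  have h1 := main_alg (ut p s) s.length L (listGroup p s) (closure_eq s) b hb E hE hE'
  have h2 : #{l ∈ (Nat.card (listGroup p s)).primeFactors | L < l} ≤ p.size := by
    refine (card_filter_le _ _).trans (card_primeFactors_le Nat.card_pos ?_)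
    refine lt_of_le_of_lt (Subgroup.card_le_card_group _) ?_
    rw [Nat.card_eq_fintype_card, ZMod.card_units]
    exact lt_of_le_of_lt (Nat.sub_le _ _) (Nat.lt_size_self p)
  refine le_trans (card_le_card ?_) (h1.trans (Nat.mul_le_mul (Nat.sub_le _ _) h2))
  intro a ha
  obtain ⟨ha1, ha2⟩ := mem_filter.1 ha
  refine mem_filter.2 ⟨ha1, fun hord => ha2 ⟨_, ?_, zpowers_eq_of_orderOf _ hord⟩⟩
  rw [← hc a]
  congr 1
  unfold candsL
  rw [List.getD_eq_getElem?_getD, List.getElem?_map, List.getElem?_range (by simpa using ha1)]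
  rfl

/-- the numbers `1, …, Z` -/
def upTo (Z : ℕ) : List ℕ := (List.range Z).map (· + 1)

theorem listGroup_upTo (p Z : ℕ) : listGroup p (upTo Z) = Gam p Z := by
  unfold listGroup Gam upTo
  congr 1
  ext u
  constructor
  · rintro ⟨x, hx, hu⟩
    rw [List.mem_map] at hx
    obtain ⟨i, hi, rfl⟩ := hx
    exact ⟨i, List.mem_range.1 hi, hu⟩
  · rintro ⟨i, hi, hu⟩
    exact ⟨i + 1, List.mem_map.2 ⟨i, List.mem_range.2 hi, rfl⟩, hu⟩

/-- the list of candidates for the group `⟨1, …, Z⟩` -/
def outL (p Z : ℕ) : List ℕ := candsL (Z * Z * p.size) p (upTo Z)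

theorem length_outL (p Z : ℕ) : (outL p Z).length = Z * Z * p.size := length_candsL _ _ _

open Classical in
theorem outL_spec (p Z : ℕ) (hpp : p.Prime) :
    Z * #{i ∈ range (outL p Z).length |
      ¬ Generates p (Gam p Z) ((outL p Z).getD i 0)} ≤ (outL p Z).length := by
  have h1 := coreL (Z * Z * p.size) p hpp (upTo Z)
  rw [listGroup_upTo] at h1
  have h2 : (upTo Z).length = Z := by simp [upTo]
  rw [h2] at h1
  unfold outL
  rw [length_candsL]
  calc Z * _ ≤ Z * (Z * p.size) := Nat.mul_le_mul_left _ h1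
    _ = Z * Z * p.size := by ring

theorem sz_replicate (m : ℕ) : sz (List.replicate m ()) = 2 * m + 1 := by
  induction m with
  | zero => rfl
  | succ m ih =>
    rw [List.replicate_succ, sz_list_cons, ih]
    simp only [sz_unit]
    ring

section poly

variable {α : Type} [TEnc α]

theorem poly_outL {p Z : α → ℕ} (hp : NPC.Poly p) (hZ : UPoly Z) :
    NPC.Poly (fun a => outL (p a) (Z a)) := by
  have hs : NPC.Poly (fun a => upTo (Z a)) :=
    NPC.Poly.map (l := fun a => List.range (Z a)) (F := fun _ i => i + 1) hZ.range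
      (NPC.Poly.succ (NPC.Poly.snd NPC.Poly.id))
  have hL : UPoly (fun a => Z a * Z a * (p a).size) :=
    (hZ.mul hZ).mul (upoly_size.comp hp)
  refine NPC.Poly.map (l := fun a => List.range (Z a * Z a * (p a).size))
    (F := fun a e => candS (p a) (p a).size (Z a * Z a * (p a).size) (upTo (Z a)) e)
    hL.range ?_
  have hp' : NPC.Poly (fun q : α × ℕ => p q.1) := hp.comp (NPC.Poly.fst NPC.Poly.id)
  exact poly_candS hp' (upoly_size.comp hp') (UPoly.comp hL (NPC.Poly.fst NPC.Poly.id))
    (hs.comp (NPC.Poly.fst NPC.Poly.id)) (NPC.Poly.snd NPC.Poly.id)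

end poly

/-- **The list of candidates is computed in time polynomial in `2 ^ h` and the length.** -/
theorem outL_time {h : ℕ → ℕ} (hh : UPoly h) (hle : ∀ p, h p ≤ p.size) :
    PCB (fun x : List Bool => x) (bits : List ℕ → List Bool)
      (fun x => 2 ^ h (valB x) + x.length) (fun x => outL (valB x) (2 ^ h (valB x))) := by
  have hp : NPC.Poly (fun x : List Bool => valB x) := NPC.Poly.valBits NPC.Poly.id
  have hs0 : NPC.Poly (fun x : List Bool => ((valB x, List.replicate (h (valB x)) (), [()]) : DS)) :=
    NPC.Poly.pair hp (NPC.Poly.pair (hh.comp hp) (NPC.Poly.const [()]))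
  have hx : PC (fun x : List Bool => x) (bits : DS → List Bool)
      (fun x => ((valB x, List.replicate (h (valB x)) (), [()]) : DS)) :=
    PC.comp (g := fun x : List Bool => ((valB x, List.replicate (h (valB x)) (), [()]) : DS))
      (f := fun x => x) hs0 PC.rawIn
  obtain ⟨r, hr⟩ := hp.sz_le
  have hN : ∀ x : List Bool, h (valB x) ≤ x.length := fun x => (hle _).trans (size_valB_le x)
  -- the size bound
  set q : Polynomial ℕ := r.comp (Polynomial.C 4 * Polynomial.X + 1) +
    (Polynomial.C 4 * Polynomial.X + 4) with hq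
  have hqe : ∀ m : ℕ, q.eval m = r.eval (4 * m + 1) + (4 * m + 4) := by
    intro m
    rw [hq]
    simp only [Polynomial.eval_add, Polynomial.eval_comp, Polynomial.eval_mul, Polynomial.eval_C,
      Polynomial.eval_X, Polynomial.eval_one, Polynomial.eval_ofNat]
  have hsz : ∀ (x : List Bool), ∀ k ≤ h (valB x),
      sz (dbl^[k] ((valB x, List.replicate (h (valB x)) (), [()]) : DS)) ≤
        q.eval (2 ^ h (valB x) + x.length) := by
    intro x k hk
    rw [dbl_it _ _ _ hk, sz_pair, sz_pair, sz_replicate, sz_replicate, hqe]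
    have h1 := hr x
    have h0 : 1 ≤ 2 ^ h (valB x) := Nat.one_le_two_pow
    have h2 : r.eval (sz x) ≤ r.eval (4 * (2 ^ h (valB x) + x.length) + 1) :=
      eval_mono r ((sz_raw_le x).trans (by omega))
    have h3 : 2 ^ k ≤ 2 ^ h (valB x) := Nat.pow_le_pow_right (by norm_num) hk
    have h4 := hN x
    omega
  have hloop := PCB.whileLoop (ea := fun x : List Bool => x) (tb := fun s : DS => toT s)
    (x := fun x => ((valB x, List.replicate (h (valB x)) (), [()]) : DS)) (f := dbl)
    (g := fun s : DS => toT s.2.1) (B := fun x => 2 ^ h (valB x) + x.length) hx poly_dbl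
    (NPC.Poly.fst (NPC.Poly.snd NPC.Poly.id)) q (fun x => h (valB x))
    (fun x => Nat.le_add_left _ _) (fun x => (hN x).trans (Nat.le_add_left _ _)) hsz
    (fun x k hk => by
      rw [dbl_it _ _ _ hk.le]
      obtain ⟨m, hm⟩ : ∃ m, h (valB x) - k = m + 1 := ⟨h (valB x) - k - 1, by omega⟩
      dsimp only
      rw [hm, List.replicate_succ, toT_list_cons]
      simp)
    (fun x => by
      rw [dbl_it _ _ _ le_rfl, Nat.sub_self]
      rfl)
  have hlast : NPC.Poly (fun s : DS => outL s.1 s.2.2.length) :=
    poly_outL (NPC.Poly.fst NPC.Poly.id) (UPoly.length (NPC.Poly.snd (NPC.Poly.snd NPC.Poly.id)))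
  refine (PCB.comp hlast hloop q (fun x => hsz x _ le_rfl)).congr fun x => ?_
  rw [dbl_it _ _ _ le_rfl]
  simp

/-- A function computed by a program within a time bound is computed by a Turing machine. -/
theorem PCB.toTM {f : List Bool → List Bool} {B : List Bool → ℕ}
    (h : PCB (fun x : List Bool => x) (fun x : List Bool => x) B f) {T : ℕ → ℕ}
    (hT : ∀ x, B x ≤ T x.length) :
    ∃ (M : TM2ComputableInTime (id : List Bool → List Bool) (id : List Bool → List Bool) f)
      (p : Polynomial ℕ), ∀ n, M.time n = p.eval (T n) + 1 := by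
  obtain ⟨c, p, h⟩ := h
  have key : ∀ x : List Bool, ∃ t, t ≤ p.eval (B x) + 1 ∧
      Nonempty (TM2OutputsInTime (c.map (Fin.ofNat (c.bd + 1))).toTM x (some (f x)) t) := by
    intro x
    obtain ⟨t, ht, hr⟩ := h x
    have h1 := hr.restrict (n := c.bd) (by omega)
    refine ⟨t + 1, by simpa using ht, toTM_outputs ?_⟩
    convert! h1 using 1
    · funext i
      by_cases hi : i = 0
      · subst hi; simp [inp]
      · have : (i : ℕ) ≠ 0 := fun h => hi (Fin.ext h)
        simp [inp, hi, this]
    · funext i
      by_cases hi : i = 0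
      · subst hi; simp [inp]
      · have : (i : ℕ) ≠ 0 := fun h => hi (Fin.ext h)
        simp [inp, hi, this]
  refine ⟨{ tm := (c.map (Fin.ofNat (c.bd + 1))).toTM
            inputAlphabet := Equiv.refl Bool
            outputAlphabet := Equiv.refl Bool
            time := fun n => p.eval (T n) + 1
            outputsFun := ?_ }, p, fun n => rfl⟩
  intro x
  have hx := key x
  have ht := hx.choose_spec.1
  have hm := hx.choose_spec.2.some
  refine outputs_conv (List.map_id x).symm (List.map_id (f x)).symm (ht.trans ?_) hm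
  exact Nat.add_le_add_right (eval_mono p (hT x)) 1

end Pool.Agent.Run7.h440
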