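import Pool.Agent.Run7.h440.Time

set_option autoImplicit false

/-!
# The group generated by the numbers which have been found
-/

namespace Pool.Agent.Run7.h440

open Pool.Agent.NPC Function Pool.Agent.H595R2.PR Pool.Agent.R562.PR Pool.Agent.TH668.PR

/-- In a finite cyclic group a subgroup whose index is divided by the index of another one is
contained in it. -/
theorem le_of_index_dvd {G : Type*} [Group G] [Finite G] [IsCyclic G] {H K : Subgroup G}
    (h : K.index ∣ H.index) : H ≤ K := by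
  classical
  have h1 := H.card_mul_index
  have h2 := K.card_mul_index
  have hK0 : 0 < K.index := Nat.pos_of_ne_zero Subgroup.index_ne_zero_of_finite
  have hcard : Nat.card H ∣ Nat.card K := by
    obtain ⟨m, hm⟩ := h
    refine ⟨m, ?_⟩
    rw [← h2, hm] at h1
    have : K.index * (Nat.card H * m) = K.index * Nat.card K := by
      rw [← mul_assoc, mul_comm K.index (Nat.card H), mul_assoc, h1, mul_comm]
    exact (Nat.eq_of_mul_eq_mul_left hK0 this).symm
  intro u hu
  have hu1 : u ^ Nat.card K = 1 := by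
    obtain ⟨m, hm⟩ := hcard
    rw [hm, pow_mul]
    have : u ^ Nat.card H = 1 := congrArg Subtype.val (pow_card_eq_one' (x := (⟨u, hu⟩ : H)))
    rw [this, one_pow]
  haveI : Fintype G := Fintype.ofFinite G
  have hsub : (Finset.univ.filter (· ∈ K)) ⊆ Finset.univ.filter (fun g : G => g ^ Nat.card K = 1) := by
    intro g hg
    rw [Finset.mem_filter] at hg ⊢
    exact ⟨hg.1, congrArg Subtype.val (pow_card_eq_one' (x := (⟨g, hg.2⟩ : K)))⟩
  have hle : (Finset.univ.filter (fun g : G => g ^ Nat.card K = 1)).card ≤ Nat.card K :=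
    IsCyclic.card_pow_eq_one_le Nat.card_pos
  have hKc : (Finset.univ.filter (· ∈ K)).card = Nat.card K := by
    rw [Nat.card_eq_fintype_card]
    exact (Fintype.card_subtype _).symm
  have heq := Finset.eq_of_subset_of_card_le hsub (by rw [hKc]; exact hle)
  have : u ∈ Finset.univ.filter (fun g : G => g ^ Nat.card K = 1) :=
    Finset.mem_filter.2 ⟨Finset.mem_univ _, hu1⟩
  rw [← heq, Finset.mem_filter] at this
  exact this.2

variable {p : ℕ} [hp : Fact p.Prime]

/-- the residues of the numbers `1, …, Y` are units -/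
theorem cast_ne_zero {x Y : ℕ} (hx : 1 ≤ x) (hxY : x ≤ Y) (hY : Y < p) : (x : ZMod p) ≠ 0 := by
  intro h0
  rw [ZMod.natCast_eq_zero_iff] at h0
  have := Nat.le_of_dvd hx h0
  omega

/-- If `l` does not divide the index of `⟨1, …, Y⟩`, there is an `l`-th power nonresidue. -/
theorem exists_of_not_dvd {Y l : ℕ} (hl : l ∣ p - 1) (hl0 : 0 < l)
    (h : ¬ l ∣ (Gam p Y).index) :
    ∃ x, 1 ≤ x ∧ x ≤ Y ∧ (x : ZMod p) ^ ((p - 1) / l) ≠ 1 := by
  by_contra hc
  push Not at hc
  apply h
  have h1 : Gam p Y ≤ (powMonoidHom ((p - 1) / l) : (ZMod p)ˣ →* _).ker := by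
    unfold Gam
    rw [Subgroup.closure_le]
    rintro u ⟨i, hi, hu⟩
    rw [SetLike.mem_coe, MonoidHom.mem_ker]
    apply Units.ext
    have := hc (i + 1) (by omega) (by omega)
    simpa [hu] using this
  obtain ⟨g, hg⟩ := IsCyclic.exists_generator (α := Gam p Y)
  have h2 : orderOf g = Nat.card (Gam p Y) := orderOf_eq_card_of_forall_mem_zpowers hg
  have h3 : (g : (ZMod p)ˣ) ^ ((p - 1) / l) = 1 := by
    have := h1 g.2
    rwa [MonoidHom.mem_ker] at this
  have h4 : g ^ ((p - 1) / l) = 1 := Subtype.ext h3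
  have h5 := orderOf_dvd_of_pow_eq_one h4
  rw [h2] at h5
  have h6 := card_mul_index (Gam p Y)
  obtain ⟨m, hm⟩ := h5
  obtain ⟨d, hd⟩ := hl
  have h7 : (p - 1) / l = d := by rw [hd, Nat.mul_div_cancel_left _ hl0]
  rw [h7] at hm
  rw [hd, hm] at h6
  refine ⟨m, ?_⟩
  have hc0 : 0 < Nat.card (Gam p Y) := Nat.card_pos
  apply Nat.eq_of_mul_eq_mul_left hc0
  rw [h6]
  ring

/-- **The group generated by the numbers found and the small numbers contains `1, …, Y`.** -/
theorem gam_le {Y₀ Z Y : ℕ} (ε : ℝ) (hG : (p : ℝ) ^ (1 - ε) ≤ Nat.card (Gam p Y₀))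
    (hZ : (p : ℝ) ^ ε ≤ Z) (hZ1 : 1 ≤ Z) (hY : Y < p) :
    Gam p Y ≤ listGroup p (withSmall Y₀ (found p Z Y)) := by
  set Γ := listGroup p (withSmall Y₀ (found p Z Y)) with hΓ
  have hcard : (p : ℝ) ^ (1 - ε) ≤ Nat.card Γ := by
    refine hG.trans ?_
    have := Subgroup.card_le_of_le (Gam_le p Y₀ (found p Z Y))
    exact_mod_cast this
  apply le_of_index_dvd
  refine (Nat.dvd_iff_prime_pow_dvd_dvd _ _).2 fun l a hl hd => ?_
  rcases Nat.eq_zero_or_pos a with rfl | ha
  · simp
  by_contra hno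
  have h1 := dvd_index_lt Γ ε hcard hd
  have h2 : l ^ a ∣ p - 1 := dvd_sub_one Γ hd
  have h3 : l ^ a < Z := by exact_mod_cast h1.trans_le hZ
  have h4 : l ≤ l ^ a := Nat.le_self_pow (by omega) l
  obtain ⟨x, hx1, hx2, hx3⟩ := exists_of_not_dvd h2 (pow_pos hl.pos a) hno
  obtain ⟨y, hy1, hy2⟩ := found_spec (Y := Y) hp.out.two_le hZ1 hl (by omega) ha h2 hx1 hx2
    ((isres_false_iff x _).2 hx3)
  rw [isres_false_iff] at hy2
  have hy3 := mem_found hp.out.two_le hZ1 hy1
  exact not_dvd_of_has Γ (list_le p Y₀ (found p Z Y)) (pow_pos hl.pos a)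
    ⟨y, hy1, cast_ne_zero hy3.1 hy3.2 hY, hy2⟩ hd

end Pool.Agent.Run7.h440
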