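import Pool.Agent.Run7.h440.While

set_option autoImplicit false

/-!
# Functions computed in time polynomial in a given bound
-/

namespace Pool.Agent.Run7.h440

open Pool.Agent.NPC Function Turing

/-- computable by a program within a number of steps which is a polynomial in `B a` -/
def PCB {α β : Type} (ea : α → List Bool) (eb : β → List Bool) (B : α → ℕ) (f : α → β) : Prop :=
  ∃ (c : Cmd ℕ) (p : Polynomial ℕ), ∀ a, Runs c (inp (ea a)) (inp (eb (f a))) (p.eval (B a))

section

variable {α β γ : Type} {ea : α → List Bool} {eb : β → List Bool} {ec : γ → List Bool}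

theorem PCB.of_PC {f : α → β} (h : PC ea eb f) {B : α → ℕ} (hB : ∀ a, (ea a).length ≤ B a) :
    PCB ea eb B f := by
  obtain ⟨c, p, h⟩ := h
  exact ⟨c, p, fun a => (h a).mono (eval_mono p (hB a))⟩

theorem PCB.congr {f g : α → β} {B : α → ℕ} (h : PCB ea eb B f) (hfg : ∀ a, f a = g a) :
    PCB ea eb B g := by
  have : f = g := funext hfg
  rwa [← this]

theorem PCB.comp {g : β → γ} {f : α → β} {B : α → ℕ} (hg : PC eb ec g) (hf : PCB ea eb B f)
    (q : Polynomial ℕ) (hq : ∀ a, (eb (f a)).length ≤ q.eval (B a)) :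
    PCB ea ec B (fun a => g (f a)) := by
  obtain ⟨c, p, hf⟩ := hf
  obtain ⟨d, r, hg⟩ := hg
  refine ⟨Cmd.seq c d, p + r.comp q, fun a => ?_⟩
  refine ((hf a).seq (hg (f a))).mono ?_
  simp only [Polynomial.eval_add, Polynomial.eval_comp]
  exact Nat.add_le_add_left (eval_mono r (hq a)) _

end

/-- **The while loop**, with a general bound. -/
theorem PCB.whileLoop {α β : Type} {ea : α → List Bool} {tb : β → T} {x : α → β} {f : β → β}
    {g : β → T} {B : α → ℕ} (hx : PC ea (fun b => (tb b).enc) x)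
    (hf : PC (fun b => (tb b).enc) (fun b => (tb b).enc) f)
    (hg : PC (fun b => (tb b).enc) T.enc g) (q : Polynomial ℕ) (N : α → ℕ)
    (hB : ∀ a, (ea a).length ≤ B a) (hN : ∀ a, N a ≤ B a)
    (hq : ∀ a, ∀ k ≤ N a, (tb (f^[k] (x a))).size ≤ q.eval (B a))
    (h1 : ∀ a, ∀ k < N a, g (f^[k] (x a)) ≠ T.nil) (h2 : ∀ a, g (f^[N a] (x a)) = T.nil) :
    PCB ea (fun b => (tb b).enc) B (fun a => f^[N a] (x a)) := by
  obtain ⟨qg, hqg⟩ := hg.length_le
  obtain ⟨d, r, hd⟩ := hx
  obtain ⟨c, p, hf⟩ := hf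
  obtain ⟨cg, pg, hg⟩ := hg
  set P : Polynomial ℕ := p.comp q + (Polynomial.C 9 * q + pg.comp q + Polynomial.C 2 * qg.comp q +
    Polynomial.C 10) + Polynomial.C 4 with hP
  refine ⟨Cmd.seq d (Cmd.seq (flagProg cg)
    (Cmd.loop 1 (Cmd.seq (clr 1) (Cmd.seq (ev c) (flagProg cg))))),
    r + P + (P * Polynomial.X + 1), fun a => ?_⟩
  rw [inp_eq_st, inp_eq_st]
  have k1 := hd a
  rw [inp_eq_st, inp_eq_st] at k1
  have k2 := flag_runs (eb := fun b => (tb b).enc) hg hqg (x a)
  have k3 := while_runs (eb := fun b => (tb b).enc) hf hg hqg (q.eval (B a)) (N a) (x a)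
    (fun k hk => hq a k hk) (h1 a) (h2 a)
  refine (k1.seq (k2.seq k3)).mono ?_
  have hB0 : (tb (x a)).enc.length ≤ q.eval (B a) := hq a 0 (Nat.zero_le _)
  have e2 : pg.eval (tb (x a)).enc.length ≤ pg.eval (q.eval (B a)) := eval_mono pg hB0
  have e3 : qg.eval (tb (x a)).enc.length ≤ qg.eval (q.eval (B a)) := eval_mono qg hB0
  have e4 : P.eval (B a) = p.eval (q.eval (B a)) + (9 * q.eval (B a) +
      pg.eval (q.eval (B a)) + 2 * qg.eval (q.eval (B a)) + 10) + 4 := by
    simp only [hP, Polynomial.eval_add, Polynomial.eval_mul, Polynomial.eval_C,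
      Polynomial.eval_comp]
  rw [← e4]
  simp only [Polynomial.eval_add, Polynomial.eval_mul, Polynomial.eval_X, Polynomial.eval_one]
  have e5 : 9 * (tb (x a)).enc.length + pg.eval (tb (x a)).enc.length +
      2 * qg.eval (tb (x a)).enc.length + 10 + 4 ≤ P.eval (B a) := by
    rw [e4]
    omega
  have e6 : r.eval (ea a).length ≤ r.eval (B a) := eval_mono r (hB a)
  have e7 : P.eval (B a) * N a ≤ P.eval (B a) * B a := Nat.mul_le_mul_left _ (hN a)
  dsimp only at *
  omega

end Pool.Agent.Run7.h440
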