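import Pool.Agent.Run7.h440.Main
import Pool.Agent.Run7.h440.PCB

set_option autoImplicit false

/-!
# The integer part of `n ^ (a / b)`, and unary strings of length `2 ^ h`
-/

namespace Pool.Agent.Run7.h440

open Finset Pool.Agent.NPC Function Turing Pool.Agent.H595R2.PR Pool.Agent.NPC.H595POL

/-- the largest `m ≤ k` with `m ^ b ≤ N` -/
def root (b N k : ℕ) : ℕ := (List.range k).foldl (fun acc m => if (m + 1) ^ b ≤ N then m + 1 else acc) 0

theorem root_succ (b N k : ℕ) :
    root b N (k + 1) = if (k + 1) ^ b ≤ N then k + 1 else root b N k := by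
  unfold root
  rw [List.range_succ, List.foldl_append, List.foldl_cons, List.foldl_nil]

theorem root_spec {b : ℕ} (N : ℕ) (hb : 1 ≤ b) (k : ℕ) :
    root b N k ≤ k ∧ (root b N k) ^ b ≤ N ∧ ∀ m ≤ k, m ^ b ≤ N → m ≤ root b N k := by
  induction k with
  | zero =>
    refine ⟨le_rfl, ?_, fun m hm _ => hm⟩
    show 0 ^ b ≤ N
    rw [zero_pow (by omega)]
    exact Nat.zero_le _
  | succ k ih =>
    rw [root_succ]
    split_ifs with h
    · exact ⟨le_rfl, h, fun m hm _ => hm⟩
    · refine ⟨ih.1.trans (Nat.le_succ k), ih.2.1, fun m hm hmN => ?_⟩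
      rcases Nat.lt_or_ge m (k + 1) with h1 | h1
      · exact ih.2.2 m (by omega) hmN
      · have : m = k + 1 := by omega
        exact absurd (this ▸ hmN) h

/-- the integer part of `n ^ (a / b)`, `n = size p` -/
def hh (a b p : ℕ) : ℕ := root b (p.size ^ a) p.size

theorem hh_le (a : ℕ) {b : ℕ} (hb : 1 ≤ b) (p : ℕ) : (hh a b p) ^ b ≤ p.size ^ a :=
  (root_spec _ hb _).2.1

theorem hh_le_size (a : ℕ) {b : ℕ} (hb : 1 ≤ b) (p : ℕ) : hh a b p ≤ p.size :=
  (root_spec _ hb _).1

theorem lt_hh {a b : ℕ} (hb : 1 ≤ b) (hab : a < b) {p : ℕ} (hp : 2 ≤ p.size) :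
    p.size ^ a < (hh a b p + 1) ^ b := by
  by_contra hc
  push Not at hc
  rcases Nat.lt_or_ge p.size (hh a b p + 1) with h | h
  · have h1 : p.size ^ b ≤ p.size ^ a :=
      (Nat.pow_le_pow_left (by omega) b).trans hc
    have h2 : p.size ^ a < p.size ^ b := Nat.pow_lt_pow_right (by omega) hab
    omega
  · have := (root_spec (p.size ^ a) hb p.size).2.2 _ h hc
    unfold hh at this
    omega

theorem upoly_hh (a : ℕ) {b : ℕ} (hb : 1 ≤ b) : UPoly (hh a b) := by
  refine UPoly.of_le ?_ upoly_size (hh_le_size a hb)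
  have hs : NPC.Poly (fun p : ℕ => p.size) := upoly_size.toPoly
  refine foldlN (l := fun p : ℕ => List.range p.size) (s := fun _ => 0)
    (F := fun p acc m => if (m + 1) ^ b ≤ p.size ^ a then m + 1 else acc) (B := fun p => p.size)
    upoly_size.range (NPC.Poly.const 0) ?_ hs (fun p => Nat.zero_le _) ?_
  · have hm : NPC.Poly (fun q : ℕ × ℕ × ℕ => q.2.2 + 1) :=
      NPC.Poly.succ (NPC.Poly.snd (NPC.Poly.snd NPC.Poly.id))
    have hacc : NPC.Poly (fun q : ℕ × ℕ × ℕ => q.2.1) := NPC.Poly.fst (NPC.Poly.snd NPC.Poly.id)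
    exact NPC.Poly.ite (NPC.Poly.decide_le (poly_npow hm (UPoly.const b))
      (poly_npow (hs.comp (NPC.Poly.fst NPC.Poly.id)) (UPoly.const a))) hm hacc
  · intro p m hm x hx
    rw [List.mem_range] at hm
    split_ifs <;> omega

/-! ### Doubling -/

/-- the states of the doubling: `p`, the number of the steps which remain, the string -/
abbrev DS : Type := ℕ × List Unit × List Unit

/-- one step -/
def dbl (s : DS) : DS := (s.1, s.2.1.tail, s.2.2 ++ s.2.2)

theorem poly_dbl : NPC.Poly dbl :=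
  NPC.Poly.pair (NPC.Poly.fst NPC.Poly.id) (NPC.Poly.pair
    (NPC.Poly.tail (NPC.Poly.fst (NPC.Poly.snd NPC.Poly.id)))
    (NPC.Poly.append (NPC.Poly.snd (NPC.Poly.snd NPC.Poly.id))
      (NPC.Poly.snd (NPC.Poly.snd NPC.Poly.id))))

theorem dbl_it (p h k : ℕ) (hk : k ≤ h) :
    dbl^[k] (p, List.replicate h (), [()]) =
      (p, List.replicate (h - k) (), List.replicate (2 ^ k) ()) := by
  induction k with
  | zero => rfl
  | succ k ih =>
    rw [iterate_succ_apply', ih (by omega)]
    unfold dbl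
    dsimp only
    rw [List.tail_replicate, List.replicate_append_replicate, pow_succ, mul_two]
    congr 3

end Pool.Agent.Run7.h440
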