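import Mathlib
import Pool.Agent.Helper923.HLower
import Pool.Agent.Helper923.HMertens

set_option autoImplicit false

/-!
# A lower bound for the number of smooth numbers
-/

namespace Pool.Agent.Run7.h440

open Finset Filter Topology Pool.Agent.Helper923.HRho Pool.Agent.Helper923.HKey
  Pool.Agent.Helper923.HMertens Pool.Agent.Helper923.HCount Pool.Agent.Helper923.HB
  Pool.Agent.Helper923.HLower

/-- the numbers up to `X` all of whose prime factors are at most `y` -/
def smo (X y : ℕ) : Finset ℕ := (Icc 1 X).filter (fun m => ∀ l ∈ m.primeFactors, l ≤ y)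

theorem mem_smo {X y m : ℕ} : m ∈ smo X y ↔ (1 ≤ m ∧ m ≤ X) ∧ ∀ l : ℕ, l.Prime → l ∣ m → l ≤ y := by
  unfold smo
  rw [mem_filter, mem_Icc]
  constructor
  · rintro ⟨h1, h2⟩
    exact ⟨h1, fun l hl hd => h2 l (Nat.mem_primeFactors.2 ⟨hl, hd, by omega⟩)⟩
  · rintro ⟨h1, h2⟩
    exact ⟨h1, fun l hl => h2 l (Nat.prime_of_mem_primeFactors hl) (Nat.dvd_of_mem_primeFactors hl)⟩

/-- the primes between `y` and `X` -/
def PB (y X : ℕ) : Finset ℕ := (Ioc y X).filter Nat.Prime

theorem F_le_smo (X y : ℕ) : F (∅ ∪ PB y X) X ≤ (smo X y).card := by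
  unfold F
  refine card_le_card fun m hm => ?_
  rw [mem_free] at hm
  rw [mem_smo]
  refine ⟨hm.1, fun l hl hd => ?_⟩
  by_contra hc
  push Not at hc
  refine hm.2 l ?_ hd
  rw [empty_union, PB, mem_filter, mem_Ioc]
  exact ⟨⟨hc, (Nat.le_of_dvd hm.1.1 hd).trans hm.1.2⟩, hl⟩

/-- **Smooth numbers.** -/
theorem smo_ge {v ε : ℝ} (hv : 1 ≤ v) (hε : 0 < ε) : ∃ X₀ : ℕ, ∀ X : ℕ, X₀ ≤ X → ∀ y : ℕ,
    (X : ℝ) ^ (1 / v) ≤ y → y ≤ X → X * (rho v - ε) ≤ (smo X y).card := by
  obtain ⟨C, hC0, hC⟩ := mertens_ratio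
  obtain ⟨W₀, hW₀⟩ := lower ∅ (by simp) (by simp) 1 le_rfl (by simp) (ε / 2) (by positivity)
  -- continuity of `rho`
  have hcont : ∀ᶠ X : ℝ in atTop, rho v - ε / 2 ≤ rho (v * Real.exp (C / (Real.log X / v))) := by
    have h1 : Tendsto (fun X : ℝ => v * Real.exp (C / (Real.log X / v))) atTop (𝓝 (v * 1)) := by
      refine Tendsto.const_mul _ ?_
      rw [← Real.exp_zero]
      refine (Real.continuous_exp.tendsto 0).comp ?_
      refine tendsto_const_nhds.div_atTop ?_
      exact Real.tendsto_log_atTop.atTop_div_const (by linarith)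
    rw [mul_one] at h1
    have h2 := (rho_cont.tendsto v).comp h1
    exact h2.eventually_const_le (by linarith)
  have hbig : ∀ᶠ X : ℝ in atTop, ((max W₀ 2 : ℕ) : ℝ) ≤ X ^ (1 / v) :=
    (tendsto_rpow_atTop (by positivity)).eventually_ge_atTop _
  obtain ⟨X₀, hX₀⟩ := eventually_atTop.1
    (tendsto_natCast_atTop_atTop.eventually (hcont.and (hbig.and (eventually_ge_atTop (2 : ℝ)))))
  refine ⟨X₀, fun X hX y hy hyX => ?_⟩
  obtain ⟨h1, h2, h3⟩ := hX₀ X hX
  have hy2 : max W₀ 2 ≤ y := by exact_mod_cast h2.trans hy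
  have hyW : W₀ ≤ y := (le_max_left _ _).trans hy2
  have hy2' : 2 ≤ y := (le_max_right _ _).trans hy2
  have hX0 : (0 : ℝ) < X := by linarith
  have hy0 : (0 : ℝ) < y := by exact_mod_cast (by omega : 0 < y)
  have hly : 0 < Real.log y := Real.log_pos (by exact_mod_cast (by omega : 1 < y))
  have hlX : 0 < Real.log X := Real.log_pos (by linarith)
  have h4 := hW₀ y hyW (PB y X) (fun p hp => by
    rw [PB, mem_filter, mem_Ioc] at hp
    exact ⟨hp.2, hp.1.1⟩) X hyX
  have hk : kap ∅ = 1 := by simp [kap]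
  rw [hk, one_mul] at h4
  have h5 : (F (∅ ∪ PB y X) X : ℝ) ≤ (smo X y).card := by exact_mod_cast F_le_smo X y
  refine le_trans ?_ (h4.trans h5)
  apply mul_le_mul_of_nonneg_left _ hX0.le
  have h6 : rho (v * Real.exp (C / (Real.log X / v))) ≤ mm (PB y X) X := by
    unfold mm
    apply rho_anti
    have h7 : Pool.Agent.Helper923.HKey.W (rr (PB y X)) (X + 1) =
        ∑ p ∈ (Ioc y X).filter Nat.Prime, (1 : ℝ) / p := by
      unfold Pool.Agent.Helper923.HKey.W rr
      rw [← sum_filter]
      apply sum_congr _ (fun _ _ => rfl)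
      ext p
      rw [mem_filter, mem_range, PB, mem_filter, mem_Ioc]
      constructor
      · rintro ⟨_, h⟩; exact h
      · rintro h; exact ⟨by omega, h⟩
    have h8 := (abs_le.mp (hC y X hy2' hyX)).2
    have hlyX : Real.log X / v ≤ Real.log y := by
      have h9 := Real.log_le_log (Real.rpow_pos_of_pos hX0 _) hy
      rw [Real.log_rpow hX0] at h9
      have e : Real.log X / v = 1 / v * Real.log X := by ring
      rw [e]
      exact h9
    have hv0 : 0 < v := by linarith
    unfold E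
    rw [h7]
    calc Real.exp (∑ p ∈ (Ioc y X).filter Nat.Prime, (1 : ℝ) / p)
        ≤ Real.exp (Real.log (Real.log X / Real.log y) + C / Real.log y) :=
          Real.exp_le_exp.mpr (by linarith)
      _ = Real.log X / Real.log y * Real.exp (C / Real.log y) := by
          rw [Real.exp_add, Real.exp_log (by positivity)]
      _ ≤ v * Real.exp (C / (Real.log X / v)) := by
          apply mul_le_mul _ _ (Real.exp_pos _).le hv0.le
          · rw [div_le_iff₀ hly]
            rw [div_le_iff₀ hv0] at hlyX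
            linarith
          · apply Real.exp_le_exp.mpr
            apply div_le_div_of_nonneg_left hC0 (by positivity) hlyX
  linarith

end Pool.Agent.Run7.h440
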