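import Pool.Agent.Run7.h440.Chr
import Pool.Agent.Run7.h440.Smo
import Pool.Agent.Run7.h440.Every

set_option autoImplicit false

/-!
# The index of the group generated by the numbers up to a power of `p`
-/

namespace Pool.Agent.Run7.h440

open Finset Filter Topology Pool.Agent.H595R2.PR Pool.Agent.R562.PR Pool.Agent.TH668.PR
  Pool.Agent.H471R4.BW Pool.Agent.Helper923.HRho

section

variable {p : ℕ} [hp : Fact p.Prime]

theorem nat_ne_zero {n : ℕ} (h1 : 1 ≤ n) (h2 : n < p) : (n : ZMod p) ≠ 0 := by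
  intro h0
  rw [ZMod.natCast_eq_zero_iff] at h0
  have := Nat.le_of_dvd h1 h0
  omega

/-- smooth numbers are in the group -/
theorem un_mem {Y : ℕ} : ∀ n : ℕ, 1 ≤ n → n < p → (∀ l : ℕ, l.Prime → l ∣ n → l ≤ Y) →
    un p n ∈ Gam p Y := by
  intro n
  induction n using Nat.strong_induction_on with
  | _ n ih =>
  intro h1 h2 h3
  rcases Nat.lt_or_ge 1 n with hn | hn
  · have hl : n.minFac.Prime := Nat.minFac_prime (by omega)
    obtain ⟨m, hm⟩ := Nat.minFac_dvd n
    set l := n.minFac with hldef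
    have hm1 : 1 ≤ m := by
      rcases Nat.eq_zero_or_pos m with h0 | h0
      · rw [h0, mul_zero] at hm; omega
      · exact h0
    have hmn : m < n := by
      rw [hm]
      exact lt_mul_of_one_lt_left (by omega) hl.one_lt
    have hln : l ≤ n := Nat.le_of_dvd h1 (Nat.minFac_dvd n)
    have hmem := ih m hmn hm1 (by omega) (fun q hq hd => h3 q hq (hm ▸ dvd_mul_of_dvd_right hd l))
    have hl' : un p l ∈ Gam p Y :=
      mem_Gam hl.one_le (h3 l hl (Nat.minFac_dvd n)) _ (un_val (nat_ne_zero hl.one_le (by omega)))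
    have e : un p n = un p l * un p m := by
      apply Units.ext
      rw [Units.val_mul, un_val (nat_ne_zero h1 h2), un_val (nat_ne_zero hl.one_le (by omega)),
        un_val (nat_ne_zero hm1 (by omega)), ← Nat.cast_mul, ← hm]
    rw [e]
    exact Subgroup.mul_mem _ hl' hmem
  · have : n = 1 := by omega
    subst this
    have e : un p 1 = 1 := by
      apply Units.ext
      rw [un_val (nat_ne_zero h1 h2), Nat.cast_one, Units.val_one]
    rw [e]
    exact Subgroup.one_mem _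

theorem index_smo (Γ : Subgroup (ZMod p)ˣ) {X Y : ℕ} {δ : ℝ} (hδ : 0 ≤ δ) (hX : X < p)
    (hΓ : Gam p Y ≤ Γ) (hS : ∀ χ : DirichletCharacter ℂ p, χ ≠ 1 → ‖shortSum p χ X‖ ≤ δ * X) :
    (Γ.index : ℝ) * ((smo X Y).card - δ * X) ≤ X := by
  classical
  have h1 : ∑ χ ∈ ann Γ, shortSum p χ X =
      (Γ.index : ℂ) * (((Icc 1 X).filter (fun n => un p n ∈ Γ)).card : ℂ) := by
    unfold shortSum
    rw [sum_comm]
    have h2 : ∀ n ∈ Icc 1 X, ∑ χ ∈ ann Γ, χ (n : ZMod p) =
        if un p n ∈ Γ then (Γ.index : ℂ) else 0 := by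
      intro n hn
      rw [mem_Icc] at hn
      have h3 := sum_ann Γ (un p n)
      rw [un_val (nat_ne_zero hn.1 (by omega)), card_ann] at h3
      exact h3
    rw [sum_congr rfl h2, ← sum_filter, sum_const, nsmul_eq_mul, mul_comm]
  have h3 : ‖∑ χ ∈ ann Γ, shortSum p χ X‖ ≤ X + Γ.index * (δ * X) := by
    refine (norm_sum_le _ _).trans ?_
    rw [← add_sum_erase (ann Γ) _ (one_mem_ann Γ)]
    apply add_le_add
    · unfold shortSum
      refine (norm_sum_le _ _).trans ?_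
      refine (sum_le_sum (g := fun _ => (1 : ℝ)) fun n _ => ?_).trans ?_
      · exact DirichletCharacter.norm_le_one _ _
      · simp
    · refine (sum_le_sum (g := fun _ => δ * (X : ℝ)) fun χ hχ => ?_).trans ?_
      · exact hS χ (ne_of_mem_erase hχ)
      · rw [sum_const, nsmul_eq_mul]
        apply mul_le_mul_of_nonneg_right _ (by positivity)
        have : ((ann Γ).erase 1).card ≤ Γ.index := by
          rw [← card_ann Γ]
          exact card_le_card (erase_subset _ _)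
        exact_mod_cast this
  rw [h1, norm_mul, Complex.norm_natCast, Complex.norm_natCast] at h3
  have h4 : (smo X Y).card ≤ ((Icc 1 X).filter (fun n => un p n ∈ Γ)).card := by
    refine card_le_card fun n hn => ?_
    rw [mem_smo] at hn
    rw [mem_filter, mem_Icc]
    exact ⟨hn.1, hΓ (un_mem n hn.1.1 (by omega) hn.2)⟩
  have h5 : (Γ.index : ℝ) * (smo X Y).card ≤
      (Γ.index : ℝ) * ((Icc 1 X).filter (fun n => un p n ∈ Γ)).card :=
    mul_le_mul_of_nonneg_left (by exact_mod_cast h4) (Nat.cast_nonneg _)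
  rw [mul_sub]
  linarith

end

theorem short_bound {κ δ : ℝ} (hκ : 0 < κ) (hδ : 0 < δ) : ∃ p₀ : ℕ, ∀ p : ℕ, p₀ ≤ p → p.Prime →
    ∀ χ : DirichletCharacter ℂ p, χ ≠ 1 → ∀ X : ℕ, (p : ℝ) ^ (1 / 4 + κ) ≤ X →
      (X : ℝ) ≤ Real.sqrt p → ‖shortSum p χ X‖ ≤ δ * X := by
  have hbfm : BFM := bfm (bin (mom tup) nu1 nu2b shf hol)
  obtain ⟨N0, hN0⟩ := hbfm κ δ 1 (fun r => 2 * (r : ℝ)) hκ hδ one_pos (fun r => by positivity)
  refine ⟨N0, fun p hp hpp χ hχ X h1 h2 => ?_⟩
  have : Fact p.Prime := ⟨hpp⟩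
  have : NeZero p := ⟨hpp.ne_zero⟩
  exact hN0 p hp χ (Pool.Agent.Y165.HN.fam_all p χ hχ) X h1 h2

/-- **The index is at most `1 / ρ(1 / (4 θ))`.** -/
theorem index_bound {θ : ℝ} (hθ : 0 < θ) : ∃ η : ℝ, 0 < η ∧ η < θ ∧
    ∃ p₀ : ℕ, ∀ p : ℕ, p₀ ≤ p → p.Prime → ∀ Y : ℕ, (p : ℝ) ^ η ≤ Y →
      ∀ Γ : Subgroup (ZMod p)ˣ, Gam p Y ≤ Γ → (Γ.index : ℝ) * rho (1 / (4 * θ)) ≤ 1 := by
  set c : ℝ := rho (1 / (4 * θ)) with hc
  have hc0 : 0 < c := rho_pos _
  set d₀ : ℕ := ⌊1 / c⌋₊ + 1 with hd₀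
  have hd1 : 1 / c < d₀ := by rw [hd₀]; push_cast; exact Nat.lt_floor_add_one _
  have hd0 : (0 : ℝ) < d₀ := by rw [hd₀]; positivity
  have hgap : 1 / (d₀ : ℝ) < c := by
    rw [div_lt_iff₀ hd0]
    rw [div_lt_iff₀ hc0] at hd1
    linarith
  set γ : ℝ := (c - 1 / d₀) / 4 with hγ
  have hγ0 : 0 < γ := by rw [hγ]; linarith
  -- continuity
  have hcont : Tendsto (fun t : ℝ => rho ((1 / 4 + 2 * t) / (θ - t))) (𝓝 0) (𝓝 c) := by
    have h1 : Tendsto (fun t : ℝ => (1 / 4 + 2 * t) / (θ - t)) (𝓝 0)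
        (𝓝 ((1 / 4 + 2 * 0) / (θ - 0))) := by
      apply Tendsto.div
      · exact (tendsto_const_nhds.add (tendsto_const_nhds.mul tendsto_id))
      · exact tendsto_const_nhds.sub tendsto_id
      · simpa using hθ.ne'
    have e : (1 / 4 + 2 * 0) / (θ - 0) = 1 / (4 * θ) := by
      rw [mul_zero, add_zero, sub_zero]
      field_simp
    rw [e] at h1
    exact (rho_cont.tendsto _).comp h1
  have hev := hcont.eventually_const_lt (show c - γ < c by linarith)
  obtain ⟨t, ht0, ht1, ht2⟩ : ∃ t : ℝ, 0 < t ∧ t < min (1 / 8) (θ / 2) ∧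
      c - γ < rho ((1 / 4 + 2 * t) / (θ - t)) := by
    rw [Metric.eventually_nhds_iff] at hev
    obtain ⟨e, he, h⟩ := hev
    have hm : 0 < min (1 / 8) (θ / 2) := lt_min (by norm_num) (by linarith)
    refine ⟨min (e / 2) (min (1 / 8) (θ / 2) / 2), by positivity, ?_, h ?_⟩
    · exact lt_of_le_of_lt (min_le_right _ _) (by linarith)
    · rw [Real.dist_eq, sub_zero, abs_of_pos (by positivity)]
      exact lt_of_le_of_lt (min_le_left _ _) (by linarith)
  have ht3 : t < 1 / 8 := lt_of_lt_of_le ht1 (min_le_left _ _)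
  have ht4 : t < θ / 2 := lt_of_lt_of_le ht1 (min_le_right _ _)
  set η : ℝ := θ - t with hη
  have hη0 : 0 < η := by rw [hη]; linarith
  set a : ℝ := 1 / 4 + 2 * t with ha
  set v : ℝ := max 1 (a / η) with hv
  have hv1 : 1 ≤ v := le_max_left _ _
  have hrv : c - γ < rho v := by
    rcases le_total (a / η) 1 with h | h
    · rw [hv, max_eq_left h, rho_one le_rfl]
      rw [rho_one h] at ht2
      exact ht2
    · rw [hv, max_eq_right h]
      exact ht2
  obtain ⟨X₀, hX₀⟩ := smo_ge hv1 hγ0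
  obtain ⟨p₁, hp₁⟩ := short_bound ht0 hγ0
  -- the range of the sum
  have hev2 : ∀ᶠ x : ℝ in atTop, (x : ℝ) ^ (1 / 4 + t) + 1 ≤ x ^ a ∧ (X₀ : ℝ) ≤ x ^ (1 / 4 + t) ∧
      1 < x := by
    have h1 : Tendsto (fun x : ℝ => x ^ t) atTop atTop := tendsto_rpow_atTop ht0
    have h2 : Tendsto (fun x : ℝ => x ^ (1 / 4 + t)) atTop atTop :=
      tendsto_rpow_atTop (by linarith)
    filter_upwards [h1.eventually_ge_atTop 2, h2.eventually_ge_atTop (max 1 (X₀ : ℝ)),
      eventually_gt_atTop 1] with x h3 h4 h5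
    refine ⟨?_, (le_max_right _ _).trans h4, h5⟩
    have e : x ^ a = x ^ (1 / 4 + t) * x ^ t := by
      rw [← Real.rpow_add (by linarith), ha]
      congr 1
      ring
    have h6 : 1 ≤ x ^ (1 / 4 + t) := (le_max_left _ _).trans h4
    rw [e]
    nlinarith
  obtain ⟨p₂, hp₂⟩ := eventually_atTop.1 (tendsto_natCast_atTop_atTop.eventually hev2)
  refine ⟨η, hη0, by linarith, max p₁ p₂, fun p hp hpp Y hY Γ hΓ => ?_⟩
  have : Fact p.Prime := ⟨hpp⟩
  obtain ⟨h1, h2, h3⟩ := hp₂ p (le_of_max_le_right hp)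
  have hp0 : (0 : ℝ) < p := by linarith
  set X : ℕ := ⌊(p : ℝ) ^ a⌋₊ with hX
  have hXle : (X : ℝ) ≤ (p : ℝ) ^ a := Nat.floor_le (Real.rpow_nonneg hp0.le _)
  have hXge : (p : ℝ) ^ (1 / 4 + t) ≤ X := by
    have := Nat.lt_floor_add_one ((p : ℝ) ^ a)
    rw [← hX] at this
    linarith
  have hXs : (X : ℝ) ≤ Real.sqrt p := by
    rw [Real.sqrt_eq_rpow]
    refine hXle.trans (Real.rpow_le_rpow_of_exponent_le h3.le ?_)
    rw [ha]; linarith
  have hXX : X₀ ≤ X := by exact_mod_cast h2.trans hXge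
  have hX1 : (1 : ℝ) ≤ X := by
    refine le_trans ?_ hXge
    exact Real.one_le_rpow h3.le (by linarith)
  have hXp : X < p := by
    have h4 : (X : ℝ) < p := by
      refine lt_of_le_of_lt hXs ?_
      rw [Real.sqrt_lt' hp0]
      nlinarith
    exact_mod_cast h4
  -- the smoothness bound
  have hyv : (X : ℝ) ^ (1 / v) ≤ (min Y X : ℕ) := by
    rw [Nat.cast_min]
    apply le_min
    · refine le_trans ?_ hY
      calc (X : ℝ) ^ (1 / v) ≤ ((p : ℝ) ^ a) ^ (1 / v) :=
            Real.rpow_le_rpow (by linarith) hXle (by positivity)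
        _ = (p : ℝ) ^ (a * (1 / v)) := by rw [← Real.rpow_mul hp0.le]
        _ ≤ (p : ℝ) ^ η := by
            apply Real.rpow_le_rpow_of_exponent_le h3.le
            rw [mul_one_div, div_le_iff₀ (by linarith)]
            have h5 : a / η ≤ v := le_max_right _ _
            rw [div_le_iff₀ hη0] at h5
            linarith
    · calc (X : ℝ) ^ (1 / v) ≤ (X : ℝ) ^ (1 : ℝ) := by
            apply Real.rpow_le_rpow_of_exponent_le hX1
            rw [div_le_one (by linarith)]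
            exact hv1
        _ = X := Real.rpow_one _
  have hsm := hX₀ X hXX (min Y X) hyv (min_le_right _ _)
  have hsub : smo X (min Y X) ⊆ smo X Y := by
    intro n hn
    rw [mem_smo] at hn ⊢
    exact ⟨hn.1, fun l hl hd => (hn.2 l hl hd).trans (min_le_left _ _)⟩
  have hsm2 : (X : ℝ) * (rho v - γ) ≤ (smo X Y).card := by
    refine hsm.trans ?_
    exact_mod_cast card_le_card hsub
  have hidx := index_smo Γ hγ0.le hXp hΓ (fun χ hχ =>
    hp₁ p (le_of_max_le_left hp) hpp χ hχ X hXge hXs)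
  -- conclusion
  have hd : (Γ.index : ℝ) * (c - 3 * γ) ≤ 1 := by
    have h5 : (Γ.index : ℝ) * (X * (c - 3 * γ)) ≤ X := by
      refine le_trans (mul_le_mul_of_nonneg_left ?_ (Nat.cast_nonneg _)) hidx
      nlinarith
    have h6 : (X : ℝ) * (Γ.index * (c - 3 * γ)) ≤ X * 1 := by
      rw [mul_one]
      linarith
    exact le_of_mul_le_mul_left h6 (by linarith)
  have h7 : 1 / (d₀ : ℝ) < c - 3 * γ := by rw [hγ]; linarith
  have h8 : (Γ.index : ℝ) < d₀ := by
    by_contra hcon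
    push Not at hcon
    have h9 : (d₀ : ℝ) * (c - 3 * γ) ≤ 1 := by
      refine le_trans (mul_le_mul_of_nonneg_right hcon ?_) hd
      exact (lt_trans (by positivity) h7).le
    rw [div_lt_iff₀ hd0] at h7
    linarith
  have h9 : Γ.index < d₀ := by exact_mod_cast h8
  have h10 : Γ.index ≤ ⌊1 / c⌋₊ := by omega
  have h11 : (Γ.index : ℝ) ≤ 1 / c := (Nat.cast_le.2 h10).trans (Nat.floor_le (by positivity))
  rwa [le_div_iff₀ hc0] at h11

end Pool.Agent.Run7.h440
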