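import Pool.Agent.Run7.h440.Search

set_option autoImplicit false

/-!
# Invariants of the search
-/

namespace Pool.Agent.Run7.h440

open Pool.Agent.NPC Function Pool.Agent.H595R2.PR Pool.Agent.NPC.H595POL

theorem stepS_fst (s : St) : (stepS s).1 = s.1 := by
  unfold stepS
  split_ifs <;> rfl

theorem stepS_i (s : St) : (stepS s).2.1 = s.2.1 + 1 := by
  unfold stepS
  split_ifs <;> rfl

theorem it_fst (p Z Y k : ℕ) : (stepS^[k] (init p Z Y)).1 = (p, Z, Y) := by
  induction k with
  | zero => rfl
  | succ k ih => rw [iterate_succ_apply', stepS_fst, ih]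

theorem it_i (p Z Y k : ℕ) : (stepS^[k] (init p Z Y)).2.1 = k + 2 := by
  induction k with
  | zero => rfl
  | succ k ih => rw [iterate_succ_apply', stepS_i, ih]

/-- the number of steps -/
theorem more_iff (p Z Y k : ℕ) : more (stepS^[k] (init p Z Y)) = true ↔ k + 2 ≤ Z + Y := by
  unfold more
  rw [it_fst, it_i, decide_eq_true_iff]

theorem strip_pos {l k N : ℕ} (hl : 1 ≤ l) (hN : 1 ≤ N) : 1 ≤ strip l k N := by
  unfold strip
  induction k with
  | zero => exact hN
  | succ k ih =>
    rw [iterate_succ_apply']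
    split_ifs with h
    · exact Nat.div_pos (Nat.le_of_dvd ih (Nat.dvd_of_mod_eq_zero h)) hl
    · exact ih

theorem strip_stat {l N : ℕ} (h : ¬ N % l = 0) (k : ℕ) : strip l k N = N := by
  unfold strip
  induction k with
  | zero => rfl
  | succ k ih => rw [iterate_succ_apply, if_neg h, ih]

theorem pows_succ (i k M : ℕ) : (pows i (k + 1) M).length =
    (if M % i = 0 then 1 else 0) +
      (((List.range k).map (fun a => i ^ (a + 2))).filter (fun q => decide (M % q = 0))).length := by
  unfold pows
  rw [List.range_succ_eq_map, List.map_cons, List.map_map, List.filter_cons]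
  have e : ((fun a => i ^ (a + 1)) ∘ Nat.succ) = fun a => i ^ (a + 2) := by
    funext a
    rfl
  rw [e, zero_add, pow_one]
  split_ifs with h1 h2 h2
  · rw [List.length_cons, add_comm]
  · simp_all
  · simp_all
  · rw [zero_add]

theorem mem_pows {i k M q : ℕ} : q ∈ pows i k M ↔ ∃ a < k, q = i ^ (a + 1) ∧ q ∣ M := by
  unfold pows
  rw [List.mem_filter, List.mem_map]
  simp only [decide_eq_true_eq, List.mem_range]
  constructor
  · rintro ⟨⟨a, ha, rfl⟩, h⟩
    exact ⟨a, ha, rfl, Nat.dvd_of_mod_eq_zero h⟩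
  · rintro ⟨a, ha, rfl, h⟩
    exact ⟨⟨a, ha, rfl⟩, Nat.mod_eq_zero_of_dvd h⟩

theorem strip_pows {i : ℕ} (hi : 2 ≤ i) (k : ℕ) : ∀ M : ℕ, 1 ≤ M →
    strip i k M * 2 ^ (pows i k M).length ≤ M := by
  induction k with
  | zero =>
    intro M _
    simp [strip, pows]
  | succ k ih =>
    intro M hM
    by_cases h : M % i = 0
    · have h1 : strip i (k + 1) M = strip i k (M / i) := by
        unfold strip
        rw [iterate_succ_apply, if_pos h]
      have hd : i ∣ M := Nat.dvd_of_mod_eq_zero h
      have hM' : 1 ≤ M / i := Nat.div_pos (Nat.le_of_dvd hM hd) (by omega)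
      have h2 : (pows i (k + 1) M).length = 1 + (pows i k (M / i)).length := by
        rw [pows_succ, if_pos h]
        congr 1
        unfold pows
        rw [List.filter_map, List.filter_map, List.length_map, List.length_map]
        congr 1
        refine List.filter_congr fun a _ => ?_
        simp only [comp_apply, decide_eq_decide]
        rw [← Nat.dvd_iff_mod_eq_zero, ← Nat.dvd_iff_mod_eq_zero, Nat.dvd_div_iff_mul_dvd hd,
          ← pow_succ']
      rw [h1, h2]
      calc strip i k (M / i) * 2 ^ (1 + (pows i k (M / i)).length)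
          = 2 * (strip i k (M / i) * 2 ^ (pows i k (M / i)).length) := by ring
        _ ≤ 2 * (M / i) := Nat.mul_le_mul_left _ (ih _ hM')
        _ ≤ i * (M / i) := Nat.mul_le_mul_right _ hi
        _ ≤ M := Nat.mul_div_le M i
    · have h1 : pows i (k + 1) M = [] := by
        rw [List.eq_nil_iff_forall_not_mem]
        intro q hq
        obtain ⟨a, _, rfl, h2⟩ := mem_pows.1 hq
        exact h (Nat.mod_eq_zero_of_dvd ((dvd_pow_self i (by omega)).trans h2))
      rw [strip_stat h, h1, List.length_nil, pow_zero, mul_one]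

/-- the size invariants -/
structure Bd (s : St) : Prop where
  two : 2 ≤ s.2.1
  pos : 1 ≤ s.2.2.1
  prod : s.2.2.1 * 2 ^ (s.2.2.2.1.length + s.2.2.2.2.length) ≤ max s.1.1 1
  r : ∀ x ∈ s.2.2.2.1, x ≤ max s.1.1 1
  f : ∀ x ∈ s.2.2.2.2, x ≤ s.2.1

theorem Bd.init (p Z Y : ℕ) : Bd (init p Z Y) where
  two := le_rfl
  pos := le_max_right _ _
  prod := by
    show max (p - 1) 1 * 2 ^ (0 + 0) ≤ max p 1
    rw [pow_zero, mul_one]
    omega
  r := by intro x hx; cases hx
  f := by intro x hx; cases hx

theorem Bd.step {s : St} (h : Bd s) : Bd (stepS s) := by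
  obtain ⟨⟨p, Z, Y⟩, i, M, r, f⟩ := s
  have h1 : 2 ≤ i := h.two
  have h2 : 1 ≤ M := h.pos
  have h3 : M * 2 ^ (r.length + f.length) ≤ max p 1 := h.prod
  have h4 : ∀ x ∈ r, x ≤ max p 1 := h.r
  have h5 : ∀ x ∈ f, x ≤ i := h.f
  have hMp : M ≤ max p 1 := le_trans (Nat.le_mul_of_pos_right _ (by positivity)) h3
  unfold stepS
  dsimp only
  split_ifs with g1 g2 g3
  · refine ⟨by dsimp only; omega, strip_pos (by omega) h2, ?_, ?_, ?_⟩
    · have h6 := strip_pows h1 p.size M h2
      dsimp only
      rw [List.length_append]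
      calc strip i p.size M * 2 ^ ((pows i p.size M).length + r.length + f.length) =
          strip i p.size M * 2 ^ (pows i p.size M).length * 2 ^ (r.length + f.length) := by
            rw [add_assoc, pow_add]
            ring
        _ ≤ M * 2 ^ (r.length + f.length) := Nat.mul_le_mul_right _ h6
        _ ≤ _ := h3
    · intro x hx
      dsimp only at hx ⊢
      rcases List.mem_append.1 hx with hx | hx
      · obtain ⟨a, _, _, h6⟩ := mem_pows.1 hx
        exact (Nat.le_of_dvd h2 h6).trans hMp
      · exact h4 x hx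
    · intro x hx
      have := h5 x hx
      dsimp only
      omega
  · refine ⟨by dsimp only; omega, h2, h3, h4, ?_⟩
    intro x hx
    have := h5 x hx
    dsimp only
    omega
  · refine ⟨by dsimp only; omega, h2, ?_, ?_, ?_⟩
    · dsimp only
      refine le_trans (Nat.mul_le_mul_left _ (Nat.pow_le_pow_right (by norm_num) ?_)) h3
      exact Nat.add_le_add_right (List.length_filter_le _ _) _
    · intro x hx
      exact h4 x (List.mem_of_mem_filter hx)
    · intro x hx
      have := h5 x hx
      dsimp only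
      omega
  · refine ⟨by dsimp only; omega, h2, ?_, ?_, ?_⟩
    · dsimp only
      refine le_trans (Nat.mul_le_mul_left _ (Nat.pow_le_pow_right (by norm_num) ?_)) h3
      have h6 : (r.filter (isres p (i - Z))).length < r.length := by
        rw [List.length_filter_lt_length_iff_exists]
        simpa using g3
      rw [List.length_cons]
      omega
    · intro x hx
      exact h4 x (List.mem_of_mem_filter hx)
    · intro x hx
      dsimp only at hx ⊢
      rcases List.mem_cons.1 hx with rfl | hx
      · omega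
      · have := h5 x hx; omega

theorem bd_it (p Z Y k : ℕ) : Bd (stepS^[k] (init p Z Y)) := by
  induction k with
  | zero => exact Bd.init p Z Y
  | succ k ih => rw [iterate_succ_apply']; exact ih.step

theorem Bd.length {s : St} (h : Bd s) : s.2.2.2.1.length + s.2.2.2.2.length ≤ s.1.1.size := by
  have h1 : 2 ^ (s.2.2.2.1.length + s.2.2.2.2.length) ≤ max s.1.1 1 :=
    le_trans (Nat.le_mul_of_pos_left _ h.pos) h.prod
  by_contra hc
  push Not at hc
  have h2 : s.1.1 < 2 ^ s.1.1.size := Nat.lt_size_self _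
  have h3 : 2 ^ (s.1.1.size + 1) ≤ 2 ^ (s.2.2.2.1.length + s.2.2.2.2.length) :=
    Nat.pow_le_pow_right (by norm_num) hc
  have h4 : 1 ≤ 2 ^ s.1.1.size := Nat.one_le_two_pow
  rw [pow_succ] at h3
  omega

/-- the size of a list of bounded numbers -/
theorem sz_list_le (l : List ℕ) (B n : ℕ) (hB : ∀ x ∈ l, x ≤ B) (hn : l.length ≤ n) :
    sz l ≤ n * (2 * sz B + 1) + 1 := by
  have h1 : sz l ≤ l.length * (2 * sz B + 1) + 1 :=
    sz_le_length_mul l (2 * sz B) (fun x hx => sz_nat_mono_le (hB x hx))
  exact h1.trans (Nat.add_le_add_right (Nat.mul_le_mul_right _ hn) _)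

/-- the size of the states -/
theorem sz_it (p Z Y k : ℕ) (hk : k ≤ Z + Y) :
    sz (stepS^[k] (init p Z Y)) ≤ (sz p + sz Z + sz Y + 2) + 2 * sz (Z + Y + 2) +
      2 * sz (max p 1) + (sz p * (2 * sz (max p 1) + 1) + 1) +
      (sz p * (2 * (2 * sz (Z + Y + 2)) + 1) + 1) + 6 := by
  have hb := bd_it p Z Y k
  have h1 := it_fst p Z Y k
  have h2 := it_i p Z Y k
  have h3 := hb.length
  generalize stepS^[k] (init p Z Y) = s at *
  obtain ⟨⟨p', Z', Y'⟩, i, M, r, f⟩ := s
  dsimp only at h1 h2 h3
  obtain ⟨rfl, rfl, rfl⟩ : p' = p ∧ Z' = Z ∧ Y' = Y := by simpa using h1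
  have hi : i ≤ Z' + Y' + 2 := by omega
  have hpr : r.length ≤ sz p' := by
    have := size_le_sz p'
    omega
  have hpf : f.length ≤ sz p' := by
    have := size_le_sz p'
    omega
  have hszi : sz i ≤ 2 * sz (Z' + Y' + 2) := sz_nat_mono_le hi
  have hM : M ≤ max p' 1 := by
    have h4 : M * 2 ^ (r.length + f.length) ≤ max p' 1 := hb.prod
    exact (Nat.le_mul_of_pos_right _ (by positivity)).trans h4
  have hszM : sz M ≤ 2 * sz (max p' 1) := sz_nat_mono_le hM
  have hszr := sz_list_le r (max p' 1) (sz p') hb.r hpr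
  have hszf := sz_list_le f i (sz p') hb.f hpf
  have h5 : sz p' * (2 * sz i + 1) ≤ sz p' * (2 * (2 * sz (Z' + Y' + 2)) + 1) :=
    Nat.mul_le_mul_left _ (by omega)
  simp only [sz_pair]
  omega

end Pool.Agent.Run7.h440
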