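import Pool.Agent.Run7.h440.Grp

set_option autoImplicit false

/-!
# Lists whose entries generate a group containing all numbers up to a power of `p`
-/

namespace Pool.Agent.Run7.h440

open Finset Pool.Agent.NPC Turing Pool.Agent.H595R2.PR Pool.Agent.NPC.H595POL
  Pool.Agent.NPC.R562POL Pool.Agent.R562.PR Filter Topology

/-- `F` is computable in time `K * 2 ^ (θ n)`: some function on bit strings computed by a
deterministic Turing machine (Mathlib's `TM2ComputableInTime`) which makes at most `K * 2 ^ (θ n)`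
steps on inputs of length `n` sends the binary digits of `p` to the code of the list `F p`. -/
def ExpTimeList (θ : ℝ) (F : ℕ → List ℕ) : Prop :=
  ∃ (f : List Bool → List Bool)
    (M : TM2ComputableInTime (id : List Bool → List Bool) (id : List Bool → List Bool) f) (K : ℝ),
    (∀ n : ℕ, (M.time n : ℝ) ≤ K * 2 ^ (θ * n)) ∧ ∀ p : ℕ, f (Nat.bits p) = NPC.bits (F p)

/-- polynomials are bounded by exponentials -/
theorem poly_le_exp (P : Polynomial ℕ) {δ : ℝ} (hδ : 0 < δ) :
    ∃ K : ℝ, 0 ≤ K ∧ ∀ n : ℕ, ((P.eval n : ℕ) : ℝ) ≤ K * (2 : ℝ) ^ (δ * n) := by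
  set r : ℝ := (2 : ℝ) ^ (-δ) with hr
  have hr0 : 0 < r := Real.rpow_pos_of_pos (by norm_num) _
  have hr1 : r < 1 := Real.rpow_lt_one_of_one_lt_of_neg (by norm_num) (by linarith)
  have h1 : Tendsto (fun n : ℕ => ((P.eval n : ℕ) : ℝ) * r ^ n) atTop (𝓝 0) := by
    have h2 : ∀ n : ℕ, ((P.eval n : ℕ) : ℝ) * r ^ n =
        ∑ i ∈ range (P.natDegree + 1), (P.coeff i : ℝ) * ((n : ℝ) ^ i * r ^ n) := by
      intro n
      rw [Polynomial.eval_eq_sum_range, Nat.cast_sum, Finset.sum_mul]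
      refine Finset.sum_congr rfl fun i _ => ?_
      push_cast
      ring
    have h3 : Tendsto (fun n : ℕ => ∑ i ∈ range (P.natDegree + 1),
        (P.coeff i : ℝ) * ((n : ℝ) ^ i * r ^ n)) atTop (𝓝 (∑ i ∈ range (P.natDegree + 1),
          (P.coeff i : ℝ) * 0)) := by
      refine tendsto_finsetSum _ fun i _ => Tendsto.const_mul _ ?_
      exact tendsto_pow_const_mul_const_pow_of_abs_lt_one i (by rwa [abs_of_pos hr0])
    simp only [mul_zero, Finset.sum_const_zero] at h3
    exact h3.congr fun n => (h2 n).symm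
  obtain ⟨K, hK⟩ := h1.bddAbove_range
  refine ⟨max K 0, le_max_right _ _, fun n => ?_⟩
  have h4 : ((P.eval n : ℕ) : ℝ) * r ^ n ≤ max K 0 := (hK ⟨n, rfl⟩).trans (le_max_left _ _)
  have h5 : r ^ n * (2 : ℝ) ^ (δ * n) = 1 := by
    rw [hr, ← Real.rpow_natCast, ← Real.rpow_mul (by norm_num), ← Real.rpow_add (by norm_num)]
    rw [show -δ * (n : ℝ) + δ * n = 0 by ring, Real.rpow_zero]
  have h6 : (0 : ℝ) < 2 ^ (δ * n) := Real.rpow_pos_of_pos (by norm_num) _
  calc ((P.eval n : ℕ) : ℝ) = (((P.eval n : ℕ) : ℝ) * r ^ n) * (2 : ℝ) ^ (δ * n) := by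
        rw [mul_assoc, h5, mul_one]
    _ ≤ max K 0 * (2 : ℝ) ^ (δ * n) := mul_le_mul_of_nonneg_right h4 h6.le

/-- the exponent of the search range -/
def mm (a b p : ℕ) : ℕ := a * p.size / b + 1

theorem upoly_mm (a b : ℕ) : UPoly (mm a b) := by
  refine UPoly.of_le (NPC.Poly.succ (NPC.Poly.div (NPC.Poly.mul (NPC.Poly.const a)
    upoly_size.toPoly) (NPC.Poly.const b)))
    ((((UPoly.const a).mul upoly_size)).add (UPoly.const 1)) fun p => ?_
  exact Nat.add_le_add_right (Nat.div_le_self _ _) 1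

/-- the search range -/
def ZZ (a b p : ℕ) : ℕ := 2 ^ mm a b p

theorem poly_ZZ (a b : ℕ) : NPC.Poly (ZZ a b) := poly_npow (NPC.Poly.const 2) (upoly_mm a b)

theorem ZZ_pos (a b p : ℕ) : 1 ≤ ZZ a b p := Nat.one_le_two_pow

theorem size_valB_le (x : List Bool) : (valB x).size ≤ x.length := Nat.size_le.2 (valB_lt x)

theorem ZZ_ge {a b : ℕ} (hb : 0 < b) {η : ℝ} (h0 : 0 ≤ η) (h : η ≤ (a : ℝ) / b) (p : ℕ) :
    (p : ℝ) ^ η ≤ ZZ a b p := by
  have h1 : (p : ℝ) ≤ (2 : ℝ) ^ (p.size : ℝ) := by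
    rw [Real.rpow_natCast]
    exact_mod_cast (Nat.lt_size_self p).le
  have hb' : (0 : ℝ) < b := by exact_mod_cast hb
  calc (p : ℝ) ^ η ≤ ((2 : ℝ) ^ (p.size : ℝ)) ^ η :=
        Real.rpow_le_rpow (Nat.cast_nonneg _) h1 h0
    _ = (2 : ℝ) ^ ((p.size : ℝ) * η) := by rw [← Real.rpow_mul (by norm_num)]
    _ ≤ (2 : ℝ) ^ ((mm a b p : ℕ) : ℝ) := by
        apply Real.rpow_le_rpow_of_exponent_le (by norm_num)
        have h2 : a * p.size < b * mm a b p := by
          unfold mm
          have := Nat.lt_mul_div_succ (a * p.size) hb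
          exact this
        have h3 : (a : ℝ) * p.size < b * (mm a b p : ℕ) := by exact_mod_cast h2
        have h4 : (p.size : ℝ) * η ≤ (p.size : ℝ) * ((a : ℝ) / b) :=
          mul_le_mul_of_nonneg_left h (Nat.cast_nonneg _)
        have h5 : (p.size : ℝ) * ((a : ℝ) / b) = (a : ℝ) * p.size / b := by ring
        rw [h5] at h4
        refine h4.trans ?_
        rw [div_le_iff₀ hb']
        nlinarith
    _ = ZZ a b p := by
        unfold ZZ
        rw [Real.rpow_natCast]
        push_cast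
        rfl

theorem ZZ_lt {a b : ℕ} (hab : a < b) {p : ℕ} (hp : 3 * b ≤ p.size) : ZZ a b p < p := by
  have hb : 0 < b := by omega
  have h1 : mm a b p < p.size - 1 := by
    unfold mm
    have h2 : a * p.size / b + p.size / b ≤ p.size := by
      calc a * p.size / b + p.size / b ≤ (a * p.size + p.size) / b := Nat.div_add_div_le_add_div
        _ = (a + 1) * p.size / b := by rw [add_mul, one_mul]
        _ ≤ b * p.size / b := Nat.div_le_div_right (Nat.mul_le_mul_right _ hab)
        _ = p.size := Nat.mul_div_cancel_left _ hb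
    have h3 : 3 ≤ p.size / b := (Nat.le_div_iff_mul_le hb).2 hp
    omega
  have h2 : 2 ^ (p.size - 1) ≤ p := Nat.lt_size.1 (by omega)
  have h3 : ZZ a b p < 2 ^ (p.size - 1) := Nat.pow_lt_pow_right (by norm_num) h1
  omega

open Classical in
/-- **The core theorem.** -/
theorem core_time {η θ : ℝ} (h0 : 0 < η) (h1 : η < 1) (h2 : η < θ) (B : ℕ) :
    ∃ (C : ℕ) (F : ℕ → List ℕ), ExpTimeList θ F ∧ (∀ p : ℕ, (F p).length = p.size ^ C) ∧
      ∃ p₀ : ℕ, ∀ p : ℕ, p₀ ≤ p → p.Prime → ∃ (Γ : Subgroup (ZMod p)ˣ) (Y : ℕ),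
        (p : ℝ) ^ η ≤ Y ∧ Y < p ∧ Gam p Y ≤ Γ ∧ -1 ∈ Γ ∧
        p.size ^ B * #{i ∈ range (F p).length | ¬ Generates p Γ ((F p).getD i 0)} ≤
          (F p).length := by
  obtain ⟨q, hq1, hq2⟩ := exists_rat_btwn (show η < min θ 1 from lt_min h2 h1)
  have hqθ : (q : ℝ) < θ := hq2.trans_le (min_le_left _ _)
  have hq1' : (q : ℝ) < 1 := hq2.trans_le (min_le_right _ _)
  have hq0 : (0 : ℝ) < q := h0.trans hq1
  set a : ℕ := q.num.toNat with ha
  set b : ℕ := q.den with hb
  have hb0 : 0 < b := q.pos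
  have hqn : (0 : ℤ) ≤ q.num := Rat.num_nonneg.2 (by exact_mod_cast hq0.le)
  have hqab : (q : ℝ) = (a : ℝ) / b := by
    have h3 : ((a : ℤ) : ℝ) = (q.num : ℝ) := by
      rw [ha, Int.toNat_of_nonneg hqn]
    rw [Rat.cast_def, ← h3, hb]
    simp
  have hb0' : (0 : ℝ) < b := by exact_mod_cast hb0
  have hab : a < b := by
    rw [hqab, div_lt_one hb0'] at hq1'
    exact_mod_cast hq1'
  obtain ⟨A₂, hA₂⟩ := Gam_large η h0
  obtain ⟨p₂, hp₂⟩ := hA₂ A₂ le_rfl
  set C := 2 + A₂ + B + 2 with hC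
  set G : ℕ → List ℕ → List ℕ := fun p s => candsS C p (withSmall (p.size ^ A₂) ((p - 1) :: s))
    with hGdef
  have hG : NPC.Poly (fun r : ℕ × List ℕ => G r.1 r.2) :=
    poly_candsS C (NPC.Poly.fst NPC.Poly.id) (poly_withSmall
      ((upoly_sizepow A₂).comp (NPC.Poly.fst NPC.Poly.id))
      (NPC.Poly.cons (NPC.Poly.sub (NPC.Poly.fst NPC.Poly.id) (NPC.Poly.const 1))
        (NPC.Poly.snd NPC.Poly.id)))
  have hT := search_time (poly_ZZ a b) (ZZ_pos a b) hG
  refine ⟨C, fun p => G p (found p (ZZ a b p) (ZZ a b p)), ?_, fun p => length_candsS _ _ _, ?_⟩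
  · -- the time
    obtain ⟨M, P, hM⟩ := PCT.toTM (f := fun x => bits (G (valB x)
      (found (valB x) (ZZ a b (valB x)) (ZZ a b (valB x))))) (N := fun x => 2 * ZZ a b (valB x))
      hT (T := fun n => 2 ^ (a * n / b + 2)) (fun x => by
        show 2 * 2 ^ (a * (valB x).size / b + 1) ≤ 2 ^ (a * x.length / b + 2)
        rw [← pow_succ']
        refine Nat.pow_le_pow_right (by norm_num) ?_
        have := size_valB_le x
        have h3 : a * (valB x).size / b ≤ a * x.length / b :=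
          Nat.div_le_div_right (Nat.mul_le_mul_left _ this)
        omega)
    obtain ⟨K, hK0, hK⟩ := poly_le_exp P (sub_pos.2 hqθ)
    refine ⟨_, M, 4 * K + 1, fun n => ?_, fun p => ?_⟩
    · rw [hM]
      push_cast
      have h3 : (2 : ℝ) ^ (a * n / b + 2) ≤ 4 * (2 : ℝ) ^ ((q : ℝ) * n) := by
        rw [pow_add]
        have h4 : (2 : ℝ) ^ (a * n / b) ≤ (2 : ℝ) ^ ((q : ℝ) * n) := by
          rw [← Real.rpow_natCast]
          apply Real.rpow_le_rpow_of_exponent_le (by norm_num)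
          have h5 : ((a * n / b : ℕ) : ℝ) ≤ ((a * n : ℕ) : ℝ) / b := Nat.cast_div_le
          refine h5.trans (le_of_eq ?_)
          rw [hqab]
          push_cast
          ring
        linarith
      have h6 : (0 : ℝ) ≤ ((P.eval n : ℕ) : ℝ) := Nat.cast_nonneg _
      have h7 : (1 : ℝ) ≤ (2 : ℝ) ^ (θ * n) :=
        Real.one_le_rpow (by norm_num) (mul_nonneg (h0.trans h2).le (Nat.cast_nonneg _))
      have h8 : (2 : ℝ) ^ ((q : ℝ) * n) * (2 : ℝ) ^ ((θ - q) * n) = (2 : ℝ) ^ (θ * n) := by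
        rw [← Real.rpow_add (by norm_num)]
        congr 1
        ring
      calc (2 : ℝ) ^ (a * n / b + 2) * ((P.eval n : ℕ) : ℝ) + 1
          ≤ 4 * (2 : ℝ) ^ ((q : ℝ) * n) * (K * (2 : ℝ) ^ ((θ - q) * n)) + 1 := by
            gcongr
            exact hK n
        _ = 4 * K * (2 : ℝ) ^ (θ * n) + 1 := by rw [← h8]; ring
        _ ≤ (4 * K + 1) * (2 : ℝ) ^ (θ * n) := by linarith
    · simp only [valB_bits]
  · refine ⟨max p₂ (2 ^ (3 * b)), fun p hp hpp => ?_⟩
    have : Fact p.Prime := ⟨hpp⟩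
    set Z := ZZ a b p with hZ
    set s := found p Z Z with hs
    have hsz : 3 * b ≤ p.size := (Nat.lt_size.2 (le_of_max_le_right hp)).le
    have hZp : Z < p := ZZ_lt hab hsz
    have hZη : (p : ℝ) ^ η ≤ Z := ZZ_ge hb0 h0.le (by rw [← hqab]; exact hq1.le) p
    refine ⟨listGroup p (withSmall (p.size ^ A₂) ((p - 1) :: s)), Z, hZη, hZp, ?_, ?_, ?_⟩
    · refine (gam_le η (hp₂ p (le_of_max_le_left hp) hpp) hZη (ZZ_pos a b p) hZp).trans ?_
      unfold listGroup
      refine Subgroup.closure_mono ?_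
      rintro u ⟨x, hx, hu⟩
      refine ⟨x, ?_, hu⟩
      unfold withSmall at hx ⊢
      rcases List.mem_append.1 hx with hx | hx
      · exact List.mem_append_left _ (List.mem_cons_of_mem _ hx)
      · exact List.mem_append_right _ hx
    · apply Subgroup.subset_closure
      refine ⟨p - 1, List.mem_append_left _ List.mem_cons_self, ?_⟩
      rw [Units.val_neg, Units.val_one, Nat.cast_sub hpp.one_lt.le, ZMod.natCast_self, zero_sub,
        Nat.cast_one]
    · have hlen : (G p s).length = p.size ^ C := length_candsS _ _ _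
      show p.size ^ B * #{i ∈ range (G p s).length | ¬ Generates p
        (listGroup p (withSmall (p.size ^ A₂) ((p - 1) :: s))) ((G p s).getD i 0)} ≤
          (G p s).length
      rw [hlen]
      have h3 := coreS C p hpp (withSmall (p.size ^ A₂) ((p - 1) :: s))
      rw [length_withSmall, List.length_cons] at h3
      have h4 : s.length + 1 ≤ p.size ^ 2 := by
        have h5 := length_found p Z Z
        have h6 := two_le_size hpp
        rw [← hs] at h5
        nlinarith
      exact fits (n := p.size) (A := 2) (A' := A₂) (B := B)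
        (L := s.length + 1 + p.size ^ A₂) (two_le_size hpp) (Nat.add_le_add_right h4 _) h3

end Pool.Agent.Run7.h440
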