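import Pool.Agent.Run7.h440.While
import Pool.Agent.R562.PR.Non

set_option autoImplicit false

/-!
# The search for power nonresidues

The states are `((p, Z, Y), i, M, r, f)`.  While `i ≤ Z` the number `i` is tested as a divisor of the
remaining part `M` of `p - 1`; the powers of the divisors (which are primes) are put into the list
`r`.  Then `j = i - Z` is tested: if `j` is a `q`-th power nonresidue for some `q` in `r`, all these
`q` are removed and `j` is put into the list `f`.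
-/

namespace Pool.Agent.Run7.h440

open Pool.Agent.NPC Function Pool.Agent.H595R2.PR Pool.Agent.NPC.H595POL

/-- is `j` an `l`-th power residue? -/
def isres (p j l : ℕ) : Bool := decide (pw p j ((p - 1) / l) = md p 1)

/-- the powers of `i` which divide `M` -/
def pows (i k M : ℕ) : List ℕ :=
  ((List.range k).map (fun a => i ^ (a + 1))).filter (fun q => decide (M % q = 0))

/-- the states -/
abbrev St : Type := (ℕ × ℕ × ℕ) × ℕ × ℕ × List ℕ × List ℕ

/-- one step -/
def stepS (s : St) : St :=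
  if s.2.1 ≤ s.1.2.1 then
    (if s.2.2.1 % s.2.1 = 0 then
      (s.1, s.2.1 + 1, strip s.2.1 s.1.1.size s.2.2.1,
        pows s.2.1 s.1.1.size s.2.2.1 ++ s.2.2.2.1, s.2.2.2.2)
    else (s.1, s.2.1 + 1, s.2.2.1, s.2.2.2.1, s.2.2.2.2))
  else (s.1, s.2.1 + 1, s.2.2.1, s.2.2.2.1.filter (isres s.1.1 (s.2.1 - s.1.2.1)),
    if s.2.2.2.1.all (isres s.1.1 (s.2.1 - s.1.2.1)) then s.2.2.2.2
      else (s.2.1 - s.1.2.1) :: s.2.2.2.2)

/-- the initial state -/
def init (p Z Y : ℕ) : St := ((p, Z, Y), 2, max (p - 1) 1, [], [])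

/-- go on? -/
def more (s : St) : Bool := decide (s.2.1 ≤ s.1.2.1 + s.1.2.2)

theorem size_pow_le (x k : ℕ) : (x ^ k).size ≤ k * x.size + 1 := by
  rw [Nat.size_le]
  calc x ^ k ≤ (2 ^ x.size) ^ k := Nat.pow_le_pow_left (Nat.lt_size_self x).le k
    _ = 2 ^ (k * x.size) := by rw [← pow_mul, mul_comm]
    _ < 2 ^ (k * x.size + 1) := Nat.pow_lt_pow_right (by norm_num) (by omega)

section poly

variable {α : Type} [TEnc α]

theorem poly_npow {x k : α → ℕ} (hx : NPC.Poly x) (hk : UPoly k) :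
    NPC.Poly (fun a => x a ^ k a) := by
  obtain ⟨r, hr⟩ := hx.sz_le
  obtain ⟨r', hr'⟩ := NPC.Poly.sz_le (show NPC.Poly (fun a => List.replicate (k a) ()) from hk)
  have key : ∀ (a : α) (j : ℕ), (fun y => y * x a)^[j] 1 = x a ^ j := by
    intro a j
    induction j with
    | zero => rfl
    | succ j ih => rw [iterate_succ_apply', ih, pow_succ]
  refine (NPC.Poly.iterLen (l := fun a => List.replicate (k a) ()) (s := fun _ => 1)
    (F := fun a y => y * x a) hk (NPC.Poly.const 1)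
    (NPC.Poly.mul (NPC.Poly.snd NPC.Poly.id) (hx.comp (NPC.Poly.fst NPC.Poly.id)))
    (Polynomial.C 4 * (r' * r + 1) + 1) fun a j hj => ?_).congr fun a => ?_
  · rw [List.length_replicate] at hj
    rw [key]
    refine (sz_nat_le _).trans ?_
    have h1 := size_pow_le (x a) j
    have h2 : (x a).size ≤ r.eval (sz a) := by
      have := size_le_sz (x a)
      have := hr a
      omega
    have h3 : j ≤ r'.eval (sz a) := by
      have h4 := length_lt_sz (List.replicate (k a) ())
      rw [List.length_replicate] at h4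
      have := hr' a
      omega
    have h5 : j * (x a).size ≤ r'.eval (sz a) * r.eval (sz a) := Nat.mul_le_mul h3 h2
    simp only [Polynomial.eval_add, Polynomial.eval_mul, Polynomial.eval_C, Polynomial.eval_one]
    omega
  · rw [key, List.length_replicate]

theorem poly_isres {p j l : α → ℕ} (hp : NPC.Poly p) (hj : NPC.Poly j) (hl : NPC.Poly l) :
    NPC.Poly (fun a => isres (p a) (j a) (l a)) :=
  NPC.Poly.decide_eq (poly_pw hp hj (NPC.Poly.div (NPC.Poly.sub hp (NPC.Poly.const 1)) hl))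
    (poly_md hp (NPC.Poly.const 1))

theorem poly_pows {i k M : α → ℕ} (hi : NPC.Poly i) (hk : UPoly k) (hM : NPC.Poly M) :
    NPC.Poly (fun a => pows (i a) (k a) (M a)) := by
  have h1 : NPC.Poly (fun a => (List.range (k a)).map (fun b => i a ^ (b + 1))) := by
    have h2 : UPoly (fun q : α × ℕ => min (q.2 + 1) (k q.1)) :=
      UPoly.of_le (NPC.Poly.min (NPC.Poly.succ (NPC.Poly.snd NPC.Poly.id))
        ((UPoly.toPoly hk).comp (NPC.Poly.fst NPC.Poly.id)))
        (hk.comp (NPC.Poly.fst NPC.Poly.id)) (fun q => min_le_right _ _)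
    refine (NPC.Poly.map (l := fun a => List.range (k a))
      (F := fun a b => i a ^ (min (b + 1) (k a))) hk.range
      (poly_npow (hi.comp (NPC.Poly.fst NPC.Poly.id)) h2)).congr fun a => ?_
    refine List.map_congr_left fun b hb => ?_
    rw [List.mem_range] at hb
    rw [min_eq_left hb]
  exact NPC.Poly.filter (l := fun a => (List.range (k a)).map (fun b => i a ^ (b + 1)))
    (p := fun a q => decide (M a % q = 0)) h1
    (NPC.Poly.decide_eq (NPC.Poly.mod (hM.comp (NPC.Poly.fst NPC.Poly.id))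
      (NPC.Poly.snd NPC.Poly.id)) (NPC.Poly.const 0))

theorem poly_more : NPC.Poly more :=
  NPC.Poly.decide_le (NPC.Poly.fst (NPC.Poly.snd NPC.Poly.id)) (NPC.Poly.add (NPC.Poly.fst (NPC.Poly.snd (NPC.Poly.fst NPC.Poly.id)))
    (NPC.Poly.snd (NPC.Poly.snd (NPC.Poly.fst NPC.Poly.id))))

theorem poly_stepS : NPC.Poly stepS := by
  have h1 : NPC.Poly (fun s : St => s.1) := NPC.Poly.fst NPC.Poly.id
  have hp : NPC.Poly (fun s : St => s.1.1) := NPC.Poly.fst h1
  have hZ : NPC.Poly (fun s : St => s.1.2.1) := NPC.Poly.fst (NPC.Poly.snd h1)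
  have hi : NPC.Poly (fun s : St => s.2.1) := NPC.Poly.fst (NPC.Poly.snd NPC.Poly.id)
  have hM : NPC.Poly (fun s : St => s.2.2.1) := NPC.Poly.fst (NPC.Poly.snd (NPC.Poly.snd NPC.Poly.id))
  have hr : NPC.Poly (fun s : St => s.2.2.2.1) :=
    NPC.Poly.fst (NPC.Poly.snd (NPC.Poly.snd (NPC.Poly.snd NPC.Poly.id)))
  have hf : NPC.Poly (fun s : St => s.2.2.2.2) :=
    NPC.Poly.snd (NPC.Poly.snd (NPC.Poly.snd (NPC.Poly.snd NPC.Poly.id)))
  have hj : NPC.Poly (fun s : St => s.2.1 - s.1.2.1) := NPC.Poly.sub hi hZ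
  have hi1 : NPC.Poly (fun s : St => s.2.1 + 1) := NPC.Poly.succ hi
  have hn : UPoly (fun s : St => s.1.1.size) := upoly_size.comp hp
  refine NPC.Poly.ite (NPC.Poly.decide_le hi hZ) (NPC.Poly.ite (NPC.Poly.decide_eq (NPC.Poly.mod hM hi)
    (NPC.Poly.const 0)) ?_ ?_) ?_
  · exact NPC.Poly.pair h1 (NPC.Poly.pair hi1 (NPC.Poly.pair (poly_strip hi hn hM)
      (NPC.Poly.pair (NPC.Poly.append (poly_pows hi hn hM) hr) hf)))
  · exact NPC.Poly.pair h1 (NPC.Poly.pair hi1 (NPC.Poly.pair hM (NPC.Poly.pair hr hf)))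
  · refine NPC.Poly.pair h1 (NPC.Poly.pair hi1 (NPC.Poly.pair hM (NPC.Poly.pair ?_ ?_)))
    · exact NPC.Poly.filter (l := fun s : St => s.2.2.2.1)
        (p := fun s l => isres s.1.1 (s.2.1 - s.1.2.1) l) hr
        (poly_isres (hp.comp (NPC.Poly.fst NPC.Poly.id)) (hj.comp (NPC.Poly.fst NPC.Poly.id)) (NPC.Poly.snd NPC.Poly.id))
    · refine NPC.Poly.ite (p := fun s : St => s.2.2.2.1.all (isres s.1.1 (s.2.1 - s.1.2.1)) = true)
        (NPC.Poly.decide_bool ?_) hf (NPC.Poly.cons hj hf)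
      exact NPC.Poly.all (l := fun s : St => s.2.2.2.1)
        (p := fun s l => isres s.1.1 (s.2.1 - s.1.2.1) l) hr
        (poly_isres (hp.comp (NPC.Poly.fst NPC.Poly.id)) (hj.comp (NPC.Poly.fst NPC.Poly.id)) (NPC.Poly.snd NPC.Poly.id))

end poly

end Pool.Agent.Run7.h440
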