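import Pool.Agent.Run7.h440.GenL
import Pool.Agent.Run7.h440.ThmB

set_option autoImplicit false

/-!
# The index of `⟨1, …, Z⟩` for `Z = exp (n ^ β)`
-/

namespace Pool.Agent.Run7.h440

open Finset Filter Topology Pool.Agent.H595R2.PR Pool.Agent.R562.PR Pool.Agent.TH668.PR

theorem ev_rpow_log {γ δ C D : ℝ} (hδ : 0 < δ) :
    ∀ᶠ n : ℝ in atTop, C * n ^ γ * (D + 2 * Real.log n) ≤ n ^ (γ + δ) := by
  have h1 : Tendsto (fun n : ℝ => C * (D + 2 * Real.log n) / n ^ δ) atTop (𝓝 0) := by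
    have h2 : Tendsto (fun n : ℝ => Real.log n / n ^ δ) atTop (𝓝 0) :=
      (isLittleO_log_rpow_atTop hδ).tendsto_div_nhds_zero
    have h3 : Tendsto (fun n : ℝ => (1 : ℝ) / n ^ δ) atTop (𝓝 0) :=
      tendsto_const_nhds.div_atTop (tendsto_rpow_atTop hδ)
    have h4 := (h3.const_mul (C * D)).add (h2.const_mul (2 * C))
    simp only [mul_zero, add_zero] at h4
    refine h4.congr fun n => ?_
    ring
  filter_upwards [h1.eventually_le_const (show (0 : ℝ) < 1 by norm_num), eventually_gt_atTop 0]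
    with n hn h0
  have h5 : 0 < n ^ δ := Real.rpow_pos_of_pos h0 _
  rw [div_le_one h5] at hn
  rw [Real.rpow_add h0]
  calc C * n ^ γ * (D + 2 * Real.log n) = n ^ γ * (C * (D + 2 * Real.log n)) := by ring
    _ ≤ n ^ γ * n ^ δ := mul_le_mul_of_nonneg_left hn (Real.rpow_nonneg h0.le _)

theorem index_sub {β δ : ℝ} (hβ1 : β < 1) (hβ0 : 0 < β) (hδ : 0 < δ) :
    ∃ p₀ : ℕ, ∀ p : ℕ, p₀ ≤ p → p.Prime → ∀ Z : ℕ, (2 : ℝ) ^ ((p.size : ℝ) ^ β - 1) ≤ Z →
      ((Gam p Z).index : ℝ) ≤ Real.exp ((p.size : ℝ) ^ (1 - β + δ)) := by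
  obtain ⟨y₀, hy3, hy₀⟩ := siz_pi_lower
  have hev : ∀ᶠ n : ℝ in atTop, 2 ≤ n ^ β ∧ 1 ≤ n ^ (1 - β) ∧ 1 ≤ n ∧
      3 * n ^ (1 - β) * Real.log y₀ < (n - 1) * Real.log 2 ∧
      3 * n ^ (1 - β) * (Real.log 12 + 2 * Real.log n) ≤ n ^ (1 - β + δ) := by
    have h1 := (tendsto_rpow_atTop hβ0).eventually_ge_atTop
      (max 2 (6 * Real.log y₀ / Real.log 2 + 1))
    have h2 := (tendsto_rpow_atTop (show 0 < 1 - β by linarith)).eventually_ge_atTop 1
    filter_upwards [h1, h2, eventually_ge_atTop 2, ev_rpow_log (γ := 1 - β) (C := 3)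
      (D := Real.log 12) hδ] with n h1 h2 h3 h4
    have hl2 : 0 < Real.log 2 := Real.log_pos (by norm_num)
    refine ⟨(le_max_left _ _).trans h1, h2, by linarith, ?_, h4⟩
    have h5 : 6 * Real.log y₀ / Real.log 2 + 1 ≤ n ^ β := (le_max_right _ _).trans h1
    have h6 : n = n ^ (1 - β) * n ^ β := by
      rw [← Real.rpow_add (by linarith), sub_add_cancel, Real.rpow_one]
    have h7 : 6 * Real.log y₀ < n ^ β * Real.log 2 := by
      rw [← div_lt_iff₀ hl2]
      linarith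
    have h8 : 0 < n ^ (1 - β) := by linarith
    have h9 : 6 * n ^ (1 - β) * Real.log y₀ < n * Real.log 2 := by
      calc 6 * n ^ (1 - β) * Real.log y₀ = n ^ (1 - β) * (6 * Real.log y₀) := by ring
        _ < n ^ (1 - β) * (n ^ β * Real.log 2) := mul_lt_mul_of_pos_left h7 h8
        _ = n * Real.log 2 := by rw [← mul_assoc, ← h6]
    nlinarith
  obtain ⟨n₀, hn₀⟩ := eventually_atTop.1 (tendsto_natCast_atTop_atTop.eventually hev)
  refine ⟨2 ^ n₀, fun p hp hpp Z hZ => ?_⟩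
  have : Fact p.Prime := ⟨hpp⟩
  obtain ⟨h1, h2, h3, h4, h5⟩ := hn₀ p.size (Nat.lt_size.2 hp).le
  set n : ℝ := (p.size : ℝ) with hn
  have hn0 : 0 < n := by linarith
  have hp0 : (0 : ℝ) < p := by exact_mod_cast hpp.pos
  set w : ℝ := n ^ (1 - β) with hw
  set u : ℕ := ⌈2 * w⌉₊ with hu
  have hu1 : 2 * w ≤ u := Nat.le_ceil _
  have hu2 : (u : ℝ) ≤ 3 * w := by
    have := (Nat.ceil_lt_add_one (show 0 ≤ 2 * w by linarith)).le
    rw [← hu] at this
    linarith
  have hu0 : 1 ≤ u := by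
    have : (1 : ℝ) ≤ u := by linarith
    exact_mod_cast this
  -- `p < 2 ^ n`
  have hp2n : (p : ℝ) < (2 : ℝ) ^ n := by
    rw [hn, Real.rpow_natCast]
    exact_mod_cast Nat.lt_size_self p
  have hwn : n = w * n ^ β := by
    rw [hw, ← Real.rpow_add hn0, sub_add_cancel, Real.rpow_one]
  -- `Y`
  have hex : ∃ Y : ℕ, Y ^ u < p ∧ p ≤ (Y + 1) ^ u := by
    refine ⟨Nat.findGreatest (fun y => y ^ u < p) p, ?_, ?_⟩
    · exact Nat.findGreatest_spec (P := fun y => y ^ u < p) (Nat.zero_le p)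
        (by rw [zero_pow (by omega)]; exact hpp.pos)
    · by_contra hc
      push Not at hc
      have h6 : Nat.findGreatest (fun y => y ^ u < p) p + 1 ≤ p := by
        by_contra hc2
        push Not at hc2
        have h7 : p ^ 1 ≤ p ^ u := Nat.pow_le_pow_right hpp.pos hu0
        have h8 : p ^ u ≤ (Nat.findGreatest (fun y => y ^ u < p) p + 1) ^ u :=
          Nat.pow_le_pow_left (by omega) u
        rw [pow_one] at h7
        omega
      have := Nat.le_findGreatest (P := fun y => y ^ u < p) h6 hc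
      omega
  obtain ⟨Y, hY1, hY2⟩ := hex
  have hYZ : Y < Z := by
    by_contra hc
    push Not at hc
    have h6 : (2 : ℝ) ^ n ≤ (Z : ℝ) ^ u := by
      calc (2 : ℝ) ^ n ≤ (2 : ℝ) ^ ((n ^ β - 1) * u) := by
            apply Real.rpow_le_rpow_of_exponent_le (by norm_num)
            calc n = w * n ^ β := hwn
              _ ≤ (n ^ β - 1) * (2 * w) := by nlinarith
              _ ≤ (n ^ β - 1) * u := mul_le_mul_of_nonneg_left hu1 (by linarith)
        _ = ((2 : ℝ) ^ (n ^ β - 1)) ^ u := by rw [Real.rpow_mul (by norm_num), Real.rpow_natCast]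
        _ ≤ (Z : ℝ) ^ u := pow_le_pow_left₀ (Real.rpow_nonneg (by norm_num) _) hZ u
    have h7 : (Z : ℝ) ^ u ≤ (Y : ℝ) ^ u := pow_le_pow_left₀ (Nat.cast_nonneg _) (by exact_mod_cast hc) u
    have h8 : (Y : ℝ) ^ u < p := by exact_mod_cast hY1
    linarith
  have hYp : Y < p := by
    have : Y ^ 1 ≤ Y ^ u := by
      rcases Nat.eq_zero_or_pos Y with h0 | h0
      · rw [h0]; simp
      · exact Nat.pow_le_pow_right h0 hu0
    rw [pow_one] at this
    omega
  have hYy : y₀ ≤ Y := by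
    by_contra hc
    push Not at hc
    have h6 : (p : ℝ) ≤ (y₀ : ℝ) ^ u := by
      have h7 : p ≤ y₀ ^ u := hY2.trans (Nat.pow_le_pow_left (by omega) u)
      exact_mod_cast h7
    have h7 : (2 : ℝ) ^ (n - 1) ≤ p := by
      have h8 : 2 ^ (p.size - 1) ≤ p := by
        have h9 : 0 < p.size := Nat.size_pos.2 hpp.pos
        exact Nat.lt_size.1 (by omega)
      have h9 : ((p.size - 1 : ℕ) : ℝ) = n - 1 := by
        rw [Nat.cast_sub (Nat.size_pos.2 hpp.pos), Nat.cast_one]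
      rw [← h9, Real.rpow_natCast]
      exact_mod_cast h8
    have h8 := Real.log_le_log (Real.rpow_pos_of_pos (by norm_num) _) (h7.trans h6)
    rw [Real.log_rpow (by norm_num), Real.log_pow] at h8
    have h9 : 0 ≤ Real.log y₀ := Real.log_natCast_nonneg _
    have h10 : (u : ℝ) * Real.log y₀ ≤ 3 * w * Real.log y₀ := mul_le_mul_of_nonneg_right hu2 h9
    linarith
  have hpi := hy₀ Y hYy
  have hcnt := card_Gam_ge (p := p) (Y := Y) (u := u) hYp hY1
  have hY3 : 3 ≤ Y := by omega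
  have hY0 : (0 : ℝ) < Y := by exact_mod_cast (by omega : 0 < Y)
  have hlY : 0 < Real.log Y := Real.log_pos (by exact_mod_cast (by omega : 1 < Y))
  have hlYn : Real.log Y ≤ n := by
    have h6 : Real.log Y ≤ Real.log ((2 : ℝ) ^ n) := by
      apply Real.log_le_log hY0
      have : (Y : ℝ) < p := by exact_mod_cast hYp
      linarith
    rw [Real.log_rpow (by norm_num)] at h6
    have h7 : Real.log 2 ≤ 1 := by have := Real.log_two_lt_d9; linarith
    nlinarith
  -- the index of `Gam p Y`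
  set I : ℝ := ((Gam p Y).index : ℝ) with hI
  have hI0 : 0 ≤ I := Nat.cast_nonneg _
  set P : ℝ := (Nat.primeCounting Y : ℝ) with hP
  have hP0 : 0 < P := lt_of_lt_of_le (by positivity) hpi
  have hfac : (u.factorial : ℝ) ≤ (u : ℝ) ^ u := by exact_mod_cast Nat.factorial_le_pow u
  have h6 : I * P ^ u ≤ (((Y : ℝ) + 1) * u) ^ u := by
    have h7 : P ^ u ≤ u.factorial * (Nat.card (Gam p Y) : ℝ) := by
      rw [hP]
      exact_mod_cast hcnt
    have h8 : (Nat.card (Gam p Y) : ℝ) * I ≤ p := by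
      have h9 := card_mul_index (Gam p Y)
      have h10 : Nat.card (Gam p Y) * (Gam p Y).index ≤ p := by omega
      rw [hI]
      exact_mod_cast h10
    have h9 : (p : ℝ) ≤ ((Y : ℝ) + 1) ^ u := by exact_mod_cast hY2
    calc I * P ^ u ≤ I * (u.factorial * (Nat.card (Gam p Y) : ℝ)) :=
          mul_le_mul_of_nonneg_left h7 hI0
      _ = u.factorial * ((Nat.card (Gam p Y) : ℝ) * I) := by ring
      _ ≤ (u : ℝ) ^ u * ((Y : ℝ) + 1) ^ u := by gcongr; exact h8.trans h9
      _ = _ := by rw [mul_pow, mul_comm]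
  have h7 : ((Y : ℝ) + 1) * u ≤ (12 * n ^ 2) * P := by
    have h8 : (u : ℝ) ≤ 3 * n := by
      have : w ≤ n := by
        rw [hwn]
        nlinarith
      linarith
    have h9 : (Y : ℝ) + 1 ≤ 2 * Y := by
      have : (1 : ℝ) ≤ Y := by exact_mod_cast (by omega : 1 ≤ Y)
      linarith
    have h10 : (Y : ℝ) ≤ P * (2 * Real.log Y) := by
      rwa [div_le_iff₀ (by positivity)] at hpi
    calc ((Y : ℝ) + 1) * u ≤ 2 * Y * (3 * n) := by gcongr
      _ ≤ 2 * (P * (2 * Real.log Y)) * (3 * n) := by gcongr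
      _ ≤ 2 * (P * (2 * n)) * (3 * n) := by gcongr
      _ = (12 * n ^ 2) * P := by ring
  have h8 : I ≤ (12 * n ^ 2) ^ u := by
    have h9 : I * P ^ u ≤ (12 * n ^ 2) ^ u * P ^ u := by
      rw [← mul_pow]
      exact h6.trans (pow_le_pow_left₀ (by positivity) h7 u)
    exact le_of_mul_le_mul_right h9 (by positivity)
  have hmono : ((Gam p Z).index : ℝ) ≤ I := by
    have h9 : (Gam p Z).index ∣ (Gam p Y).index := Subgroup.index_dvd_of_le (gam_mono hYZ.le)
    have h10 := Nat.le_of_dvd (Nat.pos_of_ne_zero Subgroup.index_ne_zero_of_finite) h9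
    rw [hI]
    exact_mod_cast h10
  refine hmono.trans (h8.trans ?_)
  have h9 : (12 * n ^ 2) ^ u = Real.exp (u * (Real.log 12 + 2 * Real.log n)) := by
    rw [← Real.exp_log (show (0 : ℝ) < (12 * n ^ 2) ^ u by positivity), Real.log_pow,
      Real.log_mul (by norm_num) (by positivity), Real.log_pow]
    norm_num
  rw [h9]
  apply Real.exp_le_exp.mpr
  refine le_trans (mul_le_mul_of_nonneg_right hu2 ?_) h5
  have : 0 ≤ Real.log n := Real.log_nonneg h3
  have : 0 ≤ Real.log (12 : ℝ) := Real.log_nonneg (by norm_num)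
  linarith

end Pool.Agent.Run7.h440
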