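import Pool.Agent.Run7.h440.Sub

set_option autoImplicit false

/-!
# Few primes for which the numbers up to `exp (n ^ β)` do not generate the group
-/

namespace Pool.Agent.Run7.h440

open Finset Filter Topology Pool.Agent.H595R2.PR Pool.Agent.R562.PR Pool.Agent.TH668.PR
  Pool.Agent.H386R2.Artin

/-- the exceptional primes -/
def BadS (β : ℝ) (p : ℕ) : Prop :=
  p.Prime ∧ ∃ Z : ℕ, (2 : ℝ) ^ ((p.size : ℝ) ^ β - 1) ≤ Z ∧ Z < p ∧ Gam p Z ≠ ⊤

/-- the calculation at the end -/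
theorem final_calc {y r : ℕ} {e X L B w : ℝ} (he0 : 0 < e) (hX1 : 2 ≤ X) (hL0 : 0 < L)
    (hLle : L ≤ X) (he1 : (y : ℝ) / (2 * L) ≤ e) (hr : (r : ℝ) ≤ 13 * w) (hw1 : 1 ≤ w)
    (hwX : w ≤ X) (hB : B * (e / 2) ^ (2 * r) ≤ 12 * (y : ℝ) ^ r * (r.factorial : ℝ) * e ^ r) :
    B ≤ Real.exp (13 * w * ((Real.log 104 + Real.log 12) + 2 * Real.log X)) := by
  have hX0 : 0 < X := by linarith
  have hfac : ((r.factorial : ℕ) : ℝ) ≤ (r : ℝ) ^ r := by exact_mod_cast Nat.factorial_le_pow r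
  have key : (y : ℝ) * r * e ≤ (104 * X ^ 2) * (e / 2) ^ 2 := by
    have h6 : (r : ℝ) ≤ 13 * X := by linarith
    have h7 : (y : ℝ) ≤ e * (2 * L) := by
      rwa [div_le_iff₀ (by positivity)] at he1
    have h8 : (104 * X ^ 2) * (e / 2) ^ 2 = (e * (2 * X)) * (13 * X) * e := by ring
    rw [h8]
    apply mul_le_mul_of_nonneg_right _ he0.le
    apply mul_le_mul _ h6 (Nat.cast_nonneg _) (by positivity)
    refine h7.trans (mul_le_mul_of_nonneg_left (by linarith) he0.le)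
  have hB2 : B * ((e / 2) ^ 2) ^ r ≤ 12 * (104 * X ^ 2) ^ r * ((e / 2) ^ 2) ^ r := by
    calc B * ((e / 2) ^ 2) ^ r = B * (e / 2) ^ (2 * r) := by rw [← pow_mul]
      _ ≤ 12 * (y : ℝ) ^ r * (r.factorial : ℝ) * e ^ r := hB
      _ ≤ 12 * (y : ℝ) ^ r * (r : ℝ) ^ r * e ^ r := by gcongr
      _ = 12 * ((y : ℝ) * r * e) ^ r := by rw [mul_pow, mul_pow]; ring
      _ ≤ 12 * ((104 * X ^ 2) * (e / 2) ^ 2) ^ r := by gcongr
      _ = 12 * (104 * X ^ 2) ^ r * ((e / 2) ^ 2) ^ r := by rw [mul_pow]; ring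
  have hB3 : B ≤ 12 * (104 * X ^ 2) ^ r := le_of_mul_le_mul_right hB2 (by positivity)
  refine hB3.trans ?_
  have h9 : 12 * (104 * X ^ 2) ^ r =
      Real.exp (Real.log 12 + r * (Real.log 104 + 2 * Real.log X)) := by
    rw [← Real.exp_log (show (0 : ℝ) < 12 * (104 * X ^ 2) ^ r by positivity),
      Real.log_mul (by norm_num) (by positivity), Real.log_pow,
      Real.log_mul (by norm_num) (by positivity), Real.log_pow]
    norm_num
  rw [h9]
  apply Real.exp_le_exp.mpr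
  have hlX : 0 ≤ Real.log X := Real.log_nonneg (by linarith)
  have hl104 : 0 ≤ Real.log (104 : ℝ) := Real.log_nonneg (by norm_num)
  have hl12 : 0 ≤ Real.log (12 : ℝ) := Real.log_nonneg (by norm_num)
  have h10 : (r : ℝ) * (Real.log 104 + 2 * Real.log X) ≤
      13 * w * (Real.log 104 + 2 * Real.log X) :=
    mul_le_mul_of_nonneg_right hr (by linarith)
  have h11 : Real.log 12 ≤ 13 * w * Real.log 12 := by nlinarith
  calc Real.log 12 + r * (Real.log 104 + 2 * Real.log X)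
      ≤ 13 * w * Real.log 12 + 13 * w * (Real.log 104 + 2 * Real.log X) := by linarith
    _ = 13 * w * ((Real.log 104 + Real.log 12) + 2 * Real.log X) := by ring

open Classical in
theorem bad_sub {β δ : ℝ} (hβ0 : 0 < β) (hβ1 : β < 1) (hδ : 0 < δ) : ∃ Q₀ : ℕ, ∀ Q : ℕ, Q₀ ≤ Q →
    (#{p ∈ range (Q + 1) | Q < p ^ 2 ∧ BadS β p} : ℝ) ≤
      Real.exp (Real.log Q ^ (1 - β + δ)) := by
  obtain ⟨y₀, hy3, hy₀⟩ := siz_pi_lower
  have hev : ∀ᶠ X : ℝ in atTop, 8 ≤ X ^ β ∧ 1 ≤ X ^ (1 - β) ∧ 2 ≤ X ∧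
      Real.log y₀ ≤ X ^ β / 6 ∧
      13 * X ^ (1 - β) * ((Real.log 104 + Real.log 12) + 2 * Real.log X) ≤ X ^ (1 - β + δ) := by
    filter_upwards [(tendsto_rpow_atTop hβ0).eventually_ge_atTop (max 8 (6 * Real.log y₀)),
      (tendsto_rpow_atTop (show 0 < 1 - β by linarith)).eventually_ge_atTop 1,
      eventually_ge_atTop 2, ev_rpow_log (γ := 1 - β) (C := 13)
      (D := Real.log 104 + Real.log 12) hδ] with X h1 h2 h3 h4
    refine ⟨(le_max_left _ _).trans h1, h2, h3, ?_, h4⟩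
    have := (le_max_right _ _).trans h1
    linarith
  obtain ⟨Q₀, hQ₀⟩ := eventually_atTop.1 ((Real.tendsto_log_atTop.comp
    tendsto_natCast_atTop_atTop).eventually hev)
  refine ⟨Q₀, fun Q hQ => ?_⟩
  obtain ⟨h1, h2, h3, h4, h5⟩ := hQ₀ Q hQ
  simp only [Function.comp] at h1 h2 h3 h4 h5
  set X : ℝ := Real.log Q with hX
  have hX0 : 0 < X := by linarith
  have hQ1 : (1 : ℝ) < Q := by
    by_contra hc
    push Not at hc
    have : X ≤ 0 := Real.log_nonpos (Nat.cast_nonneg _) hc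
    linarith
  have hQ0 : (0 : ℝ) < Q := by linarith
  have hl2 : (0.6931471803 : ℝ) < Real.log 2 := Real.log_two_gt_d9
  have hl2' : Real.log 2 < 0.6931471808 := Real.log_two_lt_d9
  -- `y`
  set a : ℝ := (X / 2) ^ β - 1 with ha
  have hXβ : X ^ β / 2 ≤ (X / 2) ^ β := by
    rw [Real.div_rpow hX0.le (by norm_num)]
    apply div_le_div_of_nonneg_left (Real.rpow_nonneg hX0.le _) (by positivity)
    calc (2 : ℝ) ^ β ≤ (2 : ℝ) ^ (1 : ℝ) :=
          Real.rpow_le_rpow_of_exponent_le (by norm_num) hβ1.le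
      _ = 2 := Real.rpow_one _
  have ha1 : 3 ≤ a := by rw [ha]; linarith
  set y : ℕ := ⌊(2 : ℝ) ^ a⌋₊ with hy
  have hyle : (y : ℝ) ≤ (2 : ℝ) ^ a := Nat.floor_le (Real.rpow_nonneg (by norm_num) _)
  have h2a : (2 : ℝ) ≤ (2 : ℝ) ^ a := by
    calc (2 : ℝ) = (2 : ℝ) ^ (1 : ℝ) := (Real.rpow_one _).symm
      _ ≤ (2 : ℝ) ^ a := Real.rpow_le_rpow_of_exponent_le (by norm_num) (by linarith)
  have hyge : (2 : ℝ) ^ (a - 1) ≤ y := by
    have h6 : (2 : ℝ) ^ a < y + 1 := Nat.lt_floor_add_one _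
    rw [Real.rpow_sub (by norm_num), Real.rpow_one]
    linarith
  have hy0 : (0 : ℝ) < y := lt_of_lt_of_le (Real.rpow_pos_of_pos (by norm_num) _) hyge
  set L : ℝ := Real.log y with hL
  have hLge : X ^ β / 6 ≤ L := by
    have h6 := Real.log_le_log (Real.rpow_pos_of_pos (by norm_num) _) hyge
    rw [Real.log_rpow (by norm_num)] at h6
    have h7 : X ^ β / 4 ≤ a - 1 := by rw [ha]; linarith
    nlinarith
  have hLle : L ≤ X := by
    have h6 := Real.log_le_log hy0 hyle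
    rw [Real.log_rpow (by norm_num)] at h6
    have h7 : (X / 2) ^ β ≤ X / 2 := by
      calc (X / 2) ^ β ≤ (X / 2) ^ (1 : ℝ) :=
            Real.rpow_le_rpow_of_exponent_le (by linarith) hβ1.le
        _ = X / 2 := Real.rpow_one _
    have h8 : a ≤ X / 2 := by rw [ha]; linarith
    nlinarith
  have hL0 : 0 < L := lt_of_lt_of_le (by linarith) hLge
  have hyy : y₀ ≤ y := by
    by_contra hc
    push Not at hc
    have h6 : L < Real.log y₀ := Real.log_lt_log hy0 (by exact_mod_cast hc)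
    linarith
  have hpi := hy₀ y hyy
  have hcard : #(PP y) = Nat.primeCounting y := by
    rw [PP, Nat.primeCounting, Nat.primeCounting', Nat.count_eq_card_filter_range]
  set e : ℝ := (#(PP y) : ℝ) with he
  have he1 : (y : ℝ) / (2 * L) ≤ e := by rw [he, hcard]; exact hpi
  have he0 : 0 < e := lt_of_lt_of_le (by positivity) he1
  -- `r`
  set r : ℕ := ⌈2 * X / L⌉₊ with hr
  have hr1 : 2 * X / L ≤ r := Nat.le_ceil _
  have hXX : X = X ^ (1 - β) * X ^ β := by
    rw [← Real.rpow_add hX0, sub_add_cancel, Real.rpow_one]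
  have hr2 : (r : ℝ) ≤ 13 * X ^ (1 - β) := by
    have h6 : (r : ℝ) ≤ 2 * X / L + 1 := (Nat.ceil_lt_add_one (by positivity)).le
    have h7 : 2 * X / L ≤ 12 * X ^ (1 - β) := by
      rw [div_le_iff₀ hL0]
      calc 2 * X = 2 * (X ^ (1 - β) * X ^ β) := by rw [← hXX]
        _ = 12 * X ^ (1 - β) * (X ^ β / 6) := by ring
        _ ≤ 12 * X ^ (1 - β) * L := mul_le_mul_of_nonneg_left hLge (by positivity)
    linarith
  have hpow : Q ^ 2 ≤ y ^ r := by
    have h6 : Real.log ((Q : ℝ) ^ 2) ≤ Real.log ((y : ℝ) ^ r) := by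
      rw [Real.log_pow, Real.log_pow]
      rw [div_le_iff₀ hL0] at hr1
      push_cast
      exact hr1
    have h7 := (Real.log_le_log_iff (by positivity) (by positivity)).1 h6
    exact_mod_cast h7
  have hB := badCount (PP y) y Q r (e / 2) (fun q hq => by
      rw [PP, mem_filter, mem_range] at hq
      exact ⟨hq.2, by omega⟩) (half_pos he0) hpow
  set B : ℝ := (#{p ∈ PP Q | ¬ Good (PP y) (e / 2) p} : ℝ) with hBdef
  have hsub : (#{p ∈ range (Q + 1) | Q < p ^ 2 ∧ BadS β p} : ℝ) ≤ B := by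
    rw [hBdef]
    have h6 : #{p ∈ range (Q + 1) | Q < p ^ 2 ∧ BadS β p} ≤
        #{p ∈ PP Q | ¬ Good (PP y) (e / 2) p} := by
      refine card_le_card fun p hp => ?_
      rw [mem_filter] at hp
      obtain ⟨hp1, hp2, hpp, Z, hZ, hZp, hne⟩ := hp
      rw [mem_filter, PP, mem_filter]
      refine ⟨⟨hp1, hpp⟩, ?_⟩
      have hp0 : (0 : ℝ) < p := by exact_mod_cast hpp.pos
      have hn : X / 2 ≤ (p.size : ℝ) := by
        have h7 : (Q : ℝ) ≤ (p : ℝ) ^ 2 := by exact_mod_cast hp2.le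
        have h8 := Real.log_le_log hQ0 h7
        rw [Real.log_pow] at h8
        have h9 : (p : ℝ) ≤ (2 : ℝ) ^ p.size := by exact_mod_cast (Nat.lt_size_self p).le
        have h10 := Real.log_le_log hp0 h9
        rw [Real.log_pow] at h10
        have h11 : (0 : ℝ) ≤ p.size := Nat.cast_nonneg _
        push_cast at h8
        nlinarith
      have hyZ : y ≤ Z := by
        have h7 : (2 : ℝ) ^ a ≤ (2 : ℝ) ^ ((p.size : ℝ) ^ β - 1) := by
          apply Real.rpow_le_rpow_of_exponent_le (by norm_num)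
          have := Real.rpow_le_rpow (by positivity) hn hβ0.le
          rw [ha]
          linarith
        exact_mod_cast hyle.trans (h7.trans hZ)
      exact FEW.not_good hpp hZp hyZ hne (by rw [← he]; exact he0)
    exact_mod_cast h6
  refine (hsub.trans (final_calc he0 h3 hL0 hLle he1 hr2 h2 ?_ hB)).trans ?_
  · have h60 : X ^ (1 - β) * 1 ≤ X ^ (1 - β) * X ^ β :=
      mul_le_mul_of_nonneg_left (by linarith) (by linarith)
    rwa [← hXX, mul_one] at h60
  · exact Real.exp_le_exp.mpr h5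

end Pool.Agent.Run7.h440
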