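import Pool.Agent.Run7.h440.SubExc

set_option autoImplicit false

/-!
# Lists of candidates computed within `exp (n ^ α)` steps
-/

namespace Pool.Agent.Run7.h440

open Finset Pool.Agent.NPC Turing Pool.Agent.H595R2.PR Pool.Agent.NPC.H595POL
  Pool.Agent.NPC.R562POL Pool.Agent.R562.PR Pool.Agent.TH668.PR Filter Topology

/-- `F` is computable within `K * exp (n ^ α)` steps. -/
def SubexpTimeList (α : ℝ) (F : ℕ → List ℕ) : Prop :=
  ∃ (f : List Bool → List Bool)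
    (M : TM2ComputableInTime (id : List Bool → List Bool) (id : List Bool → List Bool) f) (K : ℝ),
    (∀ n : ℕ, (M.time n : ℝ) ≤ K * Real.exp ((n : ℝ) ^ α)) ∧
      ∀ p : ℕ, f (Nat.bits p) = NPC.bits (F p)

theorem exists_bound {a b : ℕ → ℝ} (hb : ∀ n, 1 ≤ b n) (h : ∀ᶠ n in atTop, a n ≤ b n) :
    ∃ K : ℝ, ∀ n, a n ≤ K * b n := by
  obtain ⟨n₀, hn₀⟩ := eventually_atTop.1 h
  refine ⟨1 + ∑ i ∈ range n₀, |a i|, fun n => ?_⟩
  have h0 : 0 ≤ ∑ i ∈ range n₀, |a i| := sum_nonneg fun _ _ => abs_nonneg _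
  have hbn := hb n
  rcases Nat.lt_or_ge n n₀ with hn | hn
  · have h1 : |a n| ≤ ∑ i ∈ range n₀, |a i| :=
      single_le_sum (f := fun i => |a i|) (fun _ _ => abs_nonneg _) (mem_range.2 hn)
    have h2 := le_abs_self (a n)
    nlinarith
  · have h1 := hn₀ n hn
    nlinarith

theorem poly_le_pow (P : Polynomial ℕ) : ∃ c d : ℕ, ∀ m : ℕ, 1 ≤ m → P.eval m ≤ c * m ^ d := by
  refine ⟨P.eval 1, P.natDegree, fun m hm => ?_⟩
  rw [Polynomial.eval_eq_sum_range, Polynomial.eval_eq_sum_range, Finset.sum_mul]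
  refine Finset.sum_le_sum fun i hi => ?_
  rw [one_pow, mul_one]
  exact Nat.mul_le_mul_left _ (Nat.pow_le_pow_right hm (by
    have := Finset.mem_range.1 hi; omega))

theorem time_sub (P : Polynomial ℕ) {β α : ℝ} (hβ : 0 < β) (hα : β < α) :
    ∃ K : ℝ, ∀ n : ℕ, ((P.eval (2 ^ ⌊(n : ℝ) ^ β⌋₊ + n) + 1 : ℕ) : ℝ) ≤
      K * Real.exp ((n : ℝ) ^ α) := by
  obtain ⟨c, d, hP⟩ := poly_le_pow P
  have hev : ∀ᶠ n : ℕ in atTop, (((2 ^ ⌊(n : ℝ) ^ β⌋₊ + n) ^ d : ℕ) : ℝ) ≤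
      Real.exp ((n : ℝ) ^ α) := by
    have h1 : ∀ᶠ n : ℝ in atTop, 1 ≤ n ^ β ∧ 1 ≤ n ∧
        (d : ℝ) * n ^ β * (2 + 2 * Real.log n) ≤ n ^ (β + (α - β)) := by
      filter_upwards [(tendsto_rpow_atTop hβ).eventually_ge_atTop 1, eventually_ge_atTop 1,
        ev_rpow_log (γ := β) (C := d) (D := 2) (show 0 < α - β by linarith)] with n h1 h2 h3
      exact ⟨h1, h2, h3⟩
    filter_upwards [tendsto_natCast_atTop_atTop.eventually h1] with n hn
    obtain ⟨h1, h2, h3⟩ := hn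
    rw [show β + (α - β) = α by ring] at h3
    have hn0 : (0 : ℝ) < n := by linarith
    have h4 : ((2 ^ ⌊(n : ℝ) ^ β⌋₊ + n : ℕ) : ℝ) ≤ Real.exp ((n : ℝ) ^ β + (1 + Real.log n)) := by
      have h5 : (2 : ℝ) ^ ⌊(n : ℝ) ^ β⌋₊ ≤ Real.exp ((n : ℝ) ^ β) := by
        calc (2 : ℝ) ^ ⌊(n : ℝ) ^ β⌋₊ ≤ (Real.exp 1) ^ ⌊(n : ℝ) ^ β⌋₊ := by
              apply pow_le_pow_left₀ (by norm_num)
              have := Real.add_one_le_exp (1 : ℝ)
              linarith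
          _ = Real.exp (⌊(n : ℝ) ^ β⌋₊ : ℝ) := by
              rw [← Real.exp_nat_mul, mul_one]
          _ ≤ Real.exp ((n : ℝ) ^ β) :=
              Real.exp_le_exp.mpr (Nat.floor_le (Real.rpow_nonneg hn0.le _))
      have h6 : (1 : ℝ) ≤ Real.exp ((n : ℝ) ^ β) := Real.one_le_exp (by linarith)
      have h7 : Real.exp (1 + Real.log n) = Real.exp 1 * n := by
        rw [Real.exp_add, Real.exp_log hn0]
      have h8 : (2 : ℝ) ≤ Real.exp 1 := by
        have := Real.add_one_le_exp (1 : ℝ)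
        linarith
      rw [Real.exp_add, h7]
      push_cast
      have h9 : (n : ℝ) ≤ Real.exp ((n : ℝ) ^ β) * n := by nlinarith
      have h10 : Real.exp ((n : ℝ) ^ β) ≤ Real.exp ((n : ℝ) ^ β) * n := by nlinarith
      calc (2 : ℝ) ^ ⌊(n : ℝ) ^ β⌋₊ + n ≤ Real.exp ((n : ℝ) ^ β) * n + Real.exp ((n : ℝ) ^ β) * n := by
            linarith
        _ = Real.exp ((n : ℝ) ^ β) * (2 * n) := by ring
        _ ≤ Real.exp ((n : ℝ) ^ β) * (Real.exp 1 * n) := by gcongr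
    rw [Nat.cast_pow]
    calc (((2 ^ ⌊(n : ℝ) ^ β⌋₊ + n : ℕ) : ℝ)) ^ d
        ≤ (Real.exp ((n : ℝ) ^ β + (1 + Real.log n))) ^ d :=
          pow_le_pow_left₀ (Nat.cast_nonneg _) h4 d
      _ = Real.exp (d * ((n : ℝ) ^ β + (1 + Real.log n))) := by rw [← Real.exp_nat_mul]
      _ ≤ Real.exp ((n : ℝ) ^ α) := by
          apply Real.exp_le_exp.mpr
          refine le_trans ?_ h3
          have hlog : 0 ≤ Real.log n := Real.log_nonneg h2
          have h5 : (n : ℝ) ^ β + (1 + Real.log n) ≤ (n : ℝ) ^ β * (2 + 2 * Real.log n) := by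
            nlinarith
          calc (d : ℝ) * ((n : ℝ) ^ β + (1 + Real.log n))
              ≤ d * ((n : ℝ) ^ β * (2 + 2 * Real.log n)) :=
                mul_le_mul_of_nonneg_left h5 (Nat.cast_nonneg _)
            _ = (d : ℝ) * (n : ℝ) ^ β * (2 + 2 * Real.log n) := by ring
  obtain ⟨K, hK⟩ := exists_bound (fun n : ℕ =>
    Real.one_le_exp (Real.rpow_nonneg (Nat.cast_nonneg n) α)) hev
  refine ⟨c * K + 1, fun n => ?_⟩
  have h1 : 1 ≤ 2 ^ ⌊(n : ℝ) ^ β⌋₊ + n := by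
    have := Nat.one_le_two_pow (n := ⌊(n : ℝ) ^ β⌋₊)
    omega
  have h2 := hP _ h1
  have h3 := hK n
  have h4 : (1 : ℝ) ≤ Real.exp ((n : ℝ) ^ α) :=
    Real.one_le_exp (Real.rpow_nonneg (Nat.cast_nonneg n) α)
  have h5 : ((P.eval (2 ^ ⌊(n : ℝ) ^ β⌋₊ + n) : ℕ) : ℝ) ≤
      c * (((2 ^ ⌊(n : ℝ) ^ β⌋₊ + n) ^ d : ℕ) : ℝ) := by exact_mod_cast h2
  rw [Nat.cast_add, Nat.cast_one]
  calc ((P.eval (2 ^ ⌊(n : ℝ) ^ β⌋₊ + n) : ℕ) : ℝ) + 1
      ≤ c * (K * Real.exp ((n : ℝ) ^ α)) + Real.exp ((n : ℝ) ^ α) := by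
        refine add_le_add (h5.trans (mul_le_mul_of_nonneg_left h3 (Nat.cast_nonneg _))) h4
    _ = (c * K + 1) * Real.exp ((n : ℝ) ^ α) := by ring

open Classical in
/-- **The core theorem for times `exp (n ^ α)`.** -/
theorem core_sub {β α : ℝ} (hβ : 0 < β) (hβα : β < α) (hα : α < 1) :
    ∃ F : ℕ → List ℕ, SubexpTimeList α F ∧ ∃ p₀ : ℕ, ∀ p : ℕ, p₀ ≤ p → p.Prime →
      ∃ Z : ℕ, (2 : ℝ) ^ ((p.size : ℝ) ^ β - 1) ≤ Z ∧ Z < p ∧ 0 < (F p).length ∧
        Z * #{i ∈ range (F p).length | ¬ Generates p (Gam p Z) ((F p).getD i 0)} ≤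
          (F p).length := by
  obtain ⟨q, hq1, hq2⟩ := exists_rat_btwn hβα
  have hq0 : (0 : ℝ) < q := hβ.trans hq1
  have hq1' : (q : ℝ) < 1 := hq2.trans hα
  set a : ℕ := q.num.toNat with ha
  set b : ℕ := q.den with hb
  have hb0 : 0 < b := q.pos
  have hqn : (0 : ℤ) ≤ q.num := Rat.num_nonneg.2 (by exact_mod_cast hq0.le)
  have hqab : (q : ℝ) = (a : ℝ) / b := by
    have h3 : ((a : ℤ) : ℝ) = (q.num : ℝ) := by
      rw [ha, Int.toNat_of_nonneg hqn]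
    rw [Rat.cast_def, ← h3, hb]
    simp
  have hb0' : (0 : ℝ) < b := by exact_mod_cast hb0
  have hab : a < b := by
    rw [hqab, div_lt_one hb0'] at hq1'
    exact_mod_cast hq1'
  -- comparison of powers
  have hle : ∀ h n : ℕ, h ^ b ≤ n ^ a → (h : ℝ) ≤ (n : ℝ) ^ (q : ℝ) := by
    intro h n hhn
    have h1 : (h : ℝ) ^ (b : ℝ) ≤ (n : ℝ) ^ (a : ℝ) := by
      rw [Real.rpow_natCast, Real.rpow_natCast]
      exact_mod_cast hhn
    have h2 := Real.rpow_le_rpow (Real.rpow_nonneg (Nat.cast_nonneg _) _) h1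
      (show 0 ≤ 1 / (b : ℝ) by positivity)
    rw [← Real.rpow_mul (Nat.cast_nonneg _), ← Real.rpow_mul (Nat.cast_nonneg _),
      mul_one_div_cancel hb0'.ne', Real.rpow_one, mul_one_div, ← hqab] at h2
    exact h2
  have hlt : ∀ h n : ℕ, n ^ a < h ^ b → (n : ℝ) ^ (q : ℝ) < (h : ℝ) := by
    intro h n hhn
    have h1 : (n : ℝ) ^ (a : ℝ) < (h : ℝ) ^ (b : ℝ) := by
      rw [Real.rpow_natCast, Real.rpow_natCast]
      exact_mod_cast hhn
    have h2 := Real.rpow_lt_rpow (Real.rpow_nonneg (Nat.cast_nonneg _) _) h1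
      (show 0 < 1 / (b : ℝ) by positivity)
    rw [← Real.rpow_mul (Nat.cast_nonneg _), ← Real.rpow_mul (Nat.cast_nonneg _),
      mul_one_div_cancel hb0'.ne', Real.rpow_one, mul_one_div, ← hqab] at h2
    exact h2
  have hev : ∀ᶠ n : ℝ in atTop, n ^ (q : ℝ) < n - 1 ∧ n ^ β ≤ n ^ (q : ℝ) := by
    filter_upwards [(tendsto_rpow_atTop (show 0 < 1 - (q : ℝ) by linarith)).eventually_ge_atTop 2,
      eventually_gt_atTop 2] with n h1 h2
    have h3 : n = n ^ (q : ℝ) * n ^ (1 - (q : ℝ)) := by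
      rw [← Real.rpow_add (by linarith), add_sub_cancel, Real.rpow_one]
    have h4 : 0 < n ^ (q : ℝ) := Real.rpow_pos_of_pos (by linarith) _
    refine ⟨?_, Real.rpow_le_rpow_of_exponent_le (by linarith) hq1.le⟩
    have h5 : 2 * n ^ (q : ℝ) ≤ n := by
      calc 2 * n ^ (q : ℝ) = n ^ (q : ℝ) * 2 := by ring
        _ ≤ n ^ (q : ℝ) * n ^ (1 - (q : ℝ)) := mul_le_mul_of_nonneg_left h1 h4.le
        _ = n := h3.symm
    linarith
  obtain ⟨n₀, hn₀⟩ := eventually_atTop.1 (tendsto_natCast_atTop_atTop.eventually hev)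
  refine ⟨fun p => outL p (2 ^ hh a b p), ?_, 2 ^ (max n₀ 2), fun p hp hpp => ?_⟩
  · obtain ⟨M, P, hM⟩ := PCB.toTM (f := fun x => bits (outL (valB x) (2 ^ hh a b (valB x))))
      (B := fun x => 2 ^ hh a b (valB x) + x.length)
      (outL_time (upoly_hh a hb0) (hh_le_size a hb0))
      (T := fun n => 2 ^ ⌊(n : ℝ) ^ (q : ℝ)⌋₊ + n) (fun x => by
        refine Nat.add_le_add_right (Nat.pow_le_pow_right (by norm_num) ?_) _
        apply Nat.le_floor
        refine hle _ _ ((hh_le a hb0 _).trans (Nat.pow_le_pow_left (size_valB_le x) a)))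
    obtain ⟨K, hK⟩ := time_sub P hq0 hq2
    refine ⟨_, M, K, fun n => ?_, fun p => ?_⟩
    · rw [hM]
      exact hK n
    · simp only [valB_bits]
  · have hsz : max n₀ 2 < p.size := Nat.lt_size.2 hp
    have hsz0 : n₀ ≤ p.size := by omega
    have hsz2 : 2 ≤ p.size := by omega
    obtain ⟨h1, h2⟩ := hn₀ p.size hsz0
    refine ⟨2 ^ hh a b p, ?_, ?_, ?_, outL_spec p _ hpp⟩
    · push_cast
      rw [← Real.rpow_natCast]
      apply Real.rpow_le_rpow_of_exponent_le (by norm_num)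
      have h3 := hlt _ _ (lt_hh hb0 hab hsz2)
      push_cast at h3
      linarith
    · have h3 := hle _ _ (hh_le a hb0 p)
      have h4 : (hh a b p : ℝ) < ((p.size - 1 : ℕ) : ℝ) := by
        rw [Nat.cast_sub (by omega), Nat.cast_one]
        linarith
      have h5 : hh a b p < p.size - 1 := by exact_mod_cast h4
      have h6 : 2 ^ (p.size - 1) ≤ p := Nat.lt_size.1 (by omega)
      exact lt_of_lt_of_le (Nat.pow_lt_pow_right (by norm_num) h5) h6
    · show 0 < (outL p (2 ^ hh a b p)).length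
      rw [length_outL]
      positivity

end Pool.Agent.Run7.h440
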