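import Pool.Agent.Run7.h440.Cor

set_option autoImplicit false

/-!
# The running time of the search
-/

namespace Pool.Agent.Run7.h440

open Pool.Agent.NPC Function Turing Pool.Agent.H595R2.PR Pool.Agent.NPC.H595POL
  Pool.Agent.NPC.R562POL Pool.Agent.R562.PR

/-- A function computed by a program within a time bound is computed by a Turing machine. -/
theorem PCT.toTM {f : List Bool → List Bool} {N : List Bool → ℕ}
    (h : PCT (fun x : List Bool => x) (fun x : List Bool => x) N f) {T : ℕ → ℕ}
    (hT : ∀ x, N x ≤ T x.length) :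
    ∃ (M : TM2ComputableInTime (id : List Bool → List Bool) (id : List Bool → List Bool) f)
      (p : Polynomial ℕ), ∀ n, M.time n = T n * p.eval n + 1 := by
  obtain ⟨c, p, h⟩ := h
  have key : ∀ x : List Bool, ∃ t, t ≤ N x * p.eval x.length + 1 ∧
      Nonempty (TM2OutputsInTime (c.map (Fin.ofNat (c.bd + 1))).toTM x (some (f x)) t) := by
    intro x
    obtain ⟨t, ht, hr⟩ := h x
    have h1 := hr.restrict (n := c.bd) (by omega)
    refine ⟨t + 1, by simpa using ht, toTM_outputs ?_⟩
    convert! h1 using 1
    · funext i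
      by_cases hi : i = 0
      · subst hi; simp [inp]
      · have : (i : ℕ) ≠ 0 := fun h => hi (Fin.ext h)
        simp [inp, hi, this]
    · funext i
      by_cases hi : i = 0
      · subst hi; simp [inp]
      · have : (i : ℕ) ≠ 0 := fun h => hi (Fin.ext h)
        simp [inp, hi, this]
  refine ⟨{ tm := (c.map (Fin.ofNat (c.bd + 1))).toTM
            inputAlphabet := Equiv.refl Bool
            outputAlphabet := Equiv.refl Bool
            time := fun n => T n * p.eval n + 1
            outputsFun := ?_ }, p, fun n => rfl⟩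
  intro x
  have hx := key x
  have ht := hx.choose_spec.1
  have hm := hx.choose_spec.2.some
  refine outputs_conv (List.map_id x).symm (List.map_id (f x)).symm (ht.trans ?_) hm
  exact Nat.add_le_add_right (Nat.mul_le_mul_right _ (hT x)) 1

theorem sz_raw_le (x : List Bool) : sz x ≤ 4 * x.length + 1 := sz_listBool_le x

/-- **The search within a time bound.** -/
theorem search_time {Z : ℕ → ℕ} (hZ : NPC.Poly Z) (hZ1 : ∀ p, 1 ≤ Z p) {G : ℕ → List ℕ → List ℕ}
    (hG : NPC.Poly (fun q : ℕ × List ℕ => G q.1 q.2)) :
    PCT (fun x : List Bool => x) (bits : List ℕ → List Bool) (fun x => 2 * Z (valB x))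
      (fun x => G (valB x) (found (valB x) (Z (valB x)) (Z (valB x)))) := by
  have hp : NPC.Poly (fun x : List Bool => valB x) := NPC.Poly.valBits NPC.Poly.id
  have hZ' : NPC.Poly (fun x : List Bool => Z (valB x)) := hZ.comp hp
  have hs0 : NPC.Poly (fun x : List Bool => init (valB x) (Z (valB x)) (Z (valB x))) :=
    NPC.Poly.pair (NPC.Poly.pair hp (NPC.Poly.pair hZ' hZ')) (NPC.Poly.pair (NPC.Poly.const 2)
      (NPC.Poly.pair (NPC.Poly.max (NPC.Poly.sub hp (NPC.Poly.const 1)) (NPC.Poly.const 1))
        (NPC.Poly.const ([], []))))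
  have hx : PC (fun x : List Bool => x) (bits : St → List Bool)
      (fun x => init (valB x) (Z (valB x)) (Z (valB x))) :=
    PC.comp (g := fun x : List Bool => init (valB x) (Z (valB x)) (Z (valB x)))
      (f := fun x => x) hs0 PC.rawIn
  -- the bound for the sizes
  have ht : NPC.Poly (fun x : List Bool => (valB x, Z (valB x), Z (valB x) + Z (valB x) + 2,
      max (valB x) 1)) :=
    NPC.Poly.pair hp (NPC.Poly.pair hZ' (NPC.Poly.pair
      (NPC.Poly.add (NPC.Poly.add hZ' hZ') (NPC.Poly.const 2))
      (NPC.Poly.max hp (NPC.Poly.const 1))))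
  obtain ⟨r, hr⟩ := ht.sz_le
  set R : Polynomial ℕ := r.comp (Polynomial.C 4 * Polynomial.X + 1) with hR
  have hbound : ∀ x : List Bool, sz (valB x) + sz (Z (valB x)) + sz (Z (valB x) + Z (valB x) + 2) +
      sz (max (valB x) 1) ≤ R.eval x.length := by
    intro x
    have h1 := hr x
    have h2 : r.eval (sz x) ≤ r.eval (4 * x.length + 1) := eval_mono r (sz_raw_le x)
    have h3 : R.eval x.length = r.eval (4 * x.length + 1) := by
      rw [hR]
      simp only [Polynomial.eval_comp, Polynomial.eval_add, Polynomial.eval_mul,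
        Polynomial.eval_C, Polynomial.eval_X, Polynomial.eval_one]
    simp only [sz_pair] at h1
    omega
  set q : Polynomial ℕ := (Polynomial.C 3 * R + 2) + Polynomial.C 2 * R + Polynomial.C 2 * R +
    (R * (Polynomial.C 2 * R + 1) + 1) + (R * (Polynomial.C 2 * (Polynomial.C 2 * R) + 1) + 1) + 6
    with hq
  have hqb : ∀ x : List Bool, ∀ k ≤ Z (valB x) + Z (valB x),
      sz (stepS^[k] (init (valB x) (Z (valB x)) (Z (valB x)))) ≤ q.eval x.length := by
    intro x k hk
    refine (sz_it _ _ _ k hk).trans ?_
    have h1 := hbound x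
    generalize sz (valB x) = A at *
    generalize sz (Z (valB x)) = B at *
    generalize sz (Z (valB x) + Z (valB x) + 2) = C at *
    generalize sz (max (valB x) 1) = D at *
    have e : q.eval x.length = (3 * R.eval x.length + 2) + 2 * R.eval x.length +
        2 * R.eval x.length + (R.eval x.length * (2 * R.eval x.length + 1) + 1) +
        (R.eval x.length * (2 * (2 * R.eval x.length) + 1) + 1) + 6 := by
      rw [hq]
      simp only [Polynomial.eval_add, Polynomial.eval_mul, Polynomial.eval_C,
        Polynomial.eval_one, Polynomial.eval_ofNat]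
    rw [e]
    generalize R.eval x.length = E at *
    have h2 : A * (2 * D + 1) ≤ E * (2 * E + 1) := Nat.mul_le_mul (by omega) (by omega)
    have h3 : A * (2 * (2 * C) + 1) ≤ E * (2 * (2 * E) + 1) := Nat.mul_le_mul (by omega) (by omega)
    omega
  have hloop : PCT (fun x : List Bool => x) (bits : St → List Bool)
      (fun x => (Z (valB x) + Z (valB x) - 1) + 1)
      (fun x => stepS^[Z (valB x) + Z (valB x) - 1]
        (init (valB x) (Z (valB x)) (Z (valB x)))) := by
    refine PCT.whileLoop (tb := fun s : St => toT s) (g := fun s : St => toT (more s)) hx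
      poly_stepS poly_more q (fun x => Z (valB x) + Z (valB x) - 1) ?_ ?_ ?_
    · intro x k hk
      exact hqb x k (by omega)
    · intro x k hk
      have h1 := (more_iff (valB x) (Z (valB x)) (Z (valB x)) k).2 (by omega)
      show toT (more (stepS^[k] _)) ≠ T.nil
      rw [h1]
      simp
    · intro x
      have h0 := hZ1 (valB x)
      have h1 : more (stepS^[Z (valB x) + Z (valB x) - 1]
          (init (valB x) (Z (valB x)) (Z (valB x)))) = false := by
        rw [← Bool.not_eq_true, more_iff]
        omega
      show toT (more (stepS^[Z (valB x) + Z (valB x) - 1] _)) = T.nil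
      rw [h1]
      rfl
  have hlast : NPC.Poly (fun s : St => G s.1.1 s.2.2.2.2) :=
    hG.comp (NPC.Poly.pair (NPC.Poly.fst (NPC.Poly.fst NPC.Poly.id))
      (NPC.Poly.snd (NPC.Poly.snd (NPC.Poly.snd (NPC.Poly.snd NPC.Poly.id)))))
  have h1 := PCT.comp hlast hloop (fun x => by omega) q (fun x => hqb x _ (by omega))
  refine (h1.mono fun x => ?_).congr fun x => ?_
  · have := hZ1 (valB x)
    omega
  · rw [it_fst]
    rfl

end Pool.Agent.Run7.h440
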