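import Pool.Agent.NPC.Dec

set_option autoImplicit false

/-!
# Programs with a while loop

Functions computed by a program within a given number of steps, and the while loop.
-/

namespace Pool.Agent.Run7.h440

open Pool.Agent.NPC Function Turing

/-- computable by a program within `N a` times a polynomial of the length of the input steps -/
def PCT {α β : Type} (ea : α → List Bool) (eb : β → List Bool) (N : α → ℕ) (f : α → β) : Prop :=
  ∃ (c : Cmd ℕ) (p : Polynomial ℕ), ∀ a, Runs c (inp (ea a)) (inp (eb (f a)))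
    (N a * p.eval (ea a).length)

section

variable {α β γ : Type} {ea : α → List Bool} {eb : β → List Bool} {ec : γ → List Bool}

theorem PCT.of_PC {f : α → β} (h : PC ea eb f) {N : α → ℕ} (hN : ∀ a, 1 ≤ N a) :
    PCT ea eb N f := by
  obtain ⟨c, p, h⟩ := h
  refine ⟨c, p, fun a => (h a).mono ?_⟩
  calc p.eval (ea a).length = 1 * p.eval (ea a).length := (one_mul _).symm
    _ ≤ N a * p.eval (ea a).length := Nat.mul_le_mul_right _ (hN a)

theorem PCT.mono {f : α → β} {N N' : α → ℕ} (h : PCT ea eb N f) (hN : ∀ a, N a ≤ N' a) :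
    PCT ea eb N' f := by
  obtain ⟨c, p, h⟩ := h
  exact ⟨c, p, fun a => (h a).mono (Nat.mul_le_mul_right _ (hN a))⟩

theorem PCT.congr {f g : α → β} {N : α → ℕ} (h : PCT ea eb N f) (hfg : ∀ a, f a = g a) :
    PCT ea eb N g := by
  have : f = g := funext hfg
  rwa [← this]

/-- first a function with a time bound, then a polynomial-time function, if the intermediate
results are short -/
theorem PCT.comp {g : β → γ} {f : α → β} {N : α → ℕ} (hg : PC eb ec g) (hf : PCT ea eb N f)
    (hN : ∀ a, 1 ≤ N a) (q : Polynomial ℕ) (hq : ∀ a, (eb (f a)).length ≤ q.eval (ea a).length) :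
    PCT ea ec N (fun a => g (f a)) := by
  obtain ⟨c, p, hf⟩ := hf
  obtain ⟨d, r, hg⟩ := hg
  refine ⟨Cmd.seq c d, p + r.comp q, fun a => ?_⟩
  refine ((hf a).seq (hg (f a))).mono ?_
  simp only [Polynomial.eval_add, Polynomial.eval_comp]
  have h1 : r.eval (eb (f a)).length ≤ r.eval (q.eval (ea a).length) := eval_mono r (hq a)
  have h2 : 1 * r.eval (q.eval (ea a).length) ≤ N a * r.eval (q.eval (ea a).length) :=
    Nat.mul_le_mul_right _ (hN a)
  rw [mul_add]
  omega

/-- first a polynomial-time function, then a function with a time bound -/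
theorem PCT.comp' {g : β → γ} {f : α → β} {N : β → ℕ} (hg : PCT eb ec N g) (hf : PC ea eb f)
    (hN : ∀ a, 1 ≤ N (f a)) : PCT ea ec (fun a => N (f a)) (fun a => g (f a)) := by
  obtain ⟨q, hq⟩ := hf.length_le
  obtain ⟨c, p, hf⟩ := hf
  obtain ⟨d, r, hg⟩ := hg
  refine ⟨Cmd.seq c d, p + r.comp q, fun a => ?_⟩
  refine ((hf a).seq (hg (f a))).mono ?_
  simp only [Polynomial.eval_add, Polynomial.eval_comp]
  have h1 : r.eval (eb (f a)).length ≤ r.eval (q.eval (ea a).length) := eval_mono r (hq a)
  have h2 : 1 * p.eval (ea a).length ≤ N (f a) * p.eval (ea a).length :=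
    Nat.mul_le_mul_right _ (hN a)
  have h3 : N (f a) * r.eval (eb (f a)).length ≤ N (f a) * r.eval (q.eval (ea a).length) :=
    Nat.mul_le_mul_left _ h1
  rw [mul_add]
  omega


end

/-- the program which tests the content of stack `0` -/
def flagProg (cg : Cmd ℕ) : Cmd ℕ :=
  Cmd.seq (Cmd.seq (mv 0 2) (cp 2 0 1)) (Cmd.seq (od cg)
    (Cmd.cases 1 Cmd.skip (clr 1) (Cmd.seq (clr 1) (Cmd.push 1 true))))

/-- the flag -/
def flag (t : T) : List Bool := if t = T.nil then [] else [true]

theorem flag_runs {β : Type} {eb : β → List Bool} {g : β → T} {cg : Cmd ℕ} {pg qg : Polynomial ℕ}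
    (hg : ∀ b, Runs cg (inp (eb b)) (inp (g b).enc) (pg.eval (eb b).length))
    (hq : ∀ b, (g b).enc.length ≤ qg.eval (eb b).length) (b : β) :
    Runs (flagProg cg) (st (eb b) [] []) (st (eb b) (flag (g b)) [])
      (9 * (eb b).length + pg.eval (eb b).length + 2 * qg.eval (eb b).length + 10) := by
  have h1 := dup_runs (eb b)
  have h2 := od_runs (hg b) (eb b)
  have h3 := clr_runs (i := 1) (g b).enc (st (eb b) (g b).enc []) (st (eb b) [] []) (by simp)
    (by simp)
  have := hq b
  by_cases hn : g b = T.nil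
  · have h5 := Runs.casesFalse (k := 1) (l := []) (c₀ := Cmd.skip)
      (ct := Cmd.seq (clr 1) (Cmd.push 1 true)) (by simp [hn, T.enc]) h3
    refine (h1.seq (h2.seq h5)).conv rfl (by simp [hn, flag]) ?_
    omega
  · obtain ⟨x, y, hxy⟩ : ∃ x y, g b = T.node x y := by
      cases hfa : g b with
      | nil => exact absurd hfa hn
      | node x y => exact ⟨x, y, rfl⟩
    have h4 : Runs (Cmd.push 1 true) (st (eb b) [] []) (st (eb b) [true] []) 1 :=
      (Runs.push _ 1 true).conv rfl (by simp) le_rfl
    have h5 := Runs.casesTrue (k := 1) (l := x.enc ++ y.enc) (c₀ := Cmd.skip)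
      (cf := clr 1) (by simp [hxy, T.enc]) (h3.seq h4)
    refine (h1.seq (h2.seq h5)).conv rfl (by simp [hn, flag]) ?_
    omega

/-- the loop -/
theorem while_runs {β : Type} {eb : β → List Bool} {f : β → β} {g : β → T} {c cg : Cmd ℕ}
    {p pg qg : Polynomial ℕ}
    (hf : ∀ b : β, Runs c (inp (eb b)) (inp (eb (f b))) (p.eval (eb b).length))
    (hg : ∀ b, Runs cg (inp (eb b)) (inp (g b).enc) (pg.eval (eb b).length))
    (hq : ∀ b, (g b).enc.length ≤ qg.eval (eb b).length) (B : ℕ) :
    ∀ (N : ℕ) (x : β), (∀ k ≤ N, (eb (f^[k] x)).length ≤ B) → (∀ k < N, g (f^[k] x) ≠ T.nil) →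
      g (f^[N] x) = T.nil →
      Runs (Cmd.loop 1 (Cmd.seq (clr 1) (Cmd.seq (ev c) (flagProg cg))))
        (st (eb x) (flag (g x)) []) (st (eb (f^[N] x)) [] [])
        ((p.eval B + (9 * B + pg.eval B + 2 * qg.eval B + 10) + 4) * N + 1) := by
  intro N
  induction N with
  | zero =>
    intro x _ _ h0
    rw [Function.iterate_zero, id_eq] at h0
    rw [Function.iterate_zero, id_eq, mul_zero, zero_add]
    have e : flag (g x) = [] := by simp [flag, h0]
    rw [e]
    exact Runs.loopNil (by simp)
  | succ N ih =>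
    intro x hx hne h0
    have hx0 : g x ≠ T.nil := hne 0 (Nat.succ_pos _)
    have e : flag (g x) = [true] := by simp [flag, hx0]
    have h1 : Runs (clr 1) (st (eb x) [true] []) (st (eb x) [] []) (2 * 1 + 1) :=
      (clr_runs (i := 1) [true] (st (eb x) [true] []) (st (eb x) [] []) (by simp) (by simp)).mono
        (by simp)
    have h2 := ev_runs (hf x) []
    have h3 := flag_runs hg hq (f x)
    have h4 := ih (f x) (fun k hk => by
      rw [← Function.iterate_succ_apply]
      exact hx (k + 1) (by omega)) (fun k hk => by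
      rw [← Function.iterate_succ_apply]
      exact hne (k + 1) (by omega)) (by rw [← Function.iterate_succ_apply]; exact h0)
    rw [e]
    refine (Runs.loopCons (by simp) (h1.seq (h2.seq h3)) h4).conv rfl ?_ ?_
    · rw [Function.iterate_succ_apply]
    · have e1 : p.eval (eb x).length ≤ p.eval B := eval_mono p (hx 0 (Nat.zero_le _))
      have hB : (eb (f x)).length ≤ B := hx 1 (by omega)
      have e2 : pg.eval (eb (f x)).length ≤ pg.eval B := eval_mono pg hB
      have e3 : qg.eval (eb (f x)).length ≤ qg.eval B := eval_mono qg hB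
      have e4 : (p.eval B + (9 * B + pg.eval B + 2 * qg.eval B + 10) + 4) * (N + 1) =
          (p.eval B + (9 * B + pg.eval B + 2 * qg.eval B + 10) + 4) * N +
            (p.eval B + (9 * B + pg.eval B + 2 * qg.eval B + 10) + 4) := by ring
      rw [e4]
      omega

/-- **The while loop**: apply `f` as long as `g` is not `nil`. -/
theorem PCT.whileLoop {α β : Type} {ea : α → List Bool} {tb : β → T} {x : α → β} {f : β → β}
    {g : β → T} (hx : PC ea (fun b => (tb b).enc) x)
    (hf : PC (fun b => (tb b).enc) (fun b => (tb b).enc) f)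
    (hg : PC (fun b => (tb b).enc) T.enc g) (q : Polynomial ℕ) (N : α → ℕ)
    (hq : ∀ a, ∀ k ≤ N a, (tb (f^[k] (x a))).size ≤ q.eval (ea a).length)
    (h1 : ∀ a, ∀ k < N a, g (f^[k] (x a)) ≠ T.nil) (h2 : ∀ a, g (f^[N a] (x a)) = T.nil) :
    PCT ea (fun b => (tb b).enc) (fun a => N a + 1) (fun a => f^[N a] (x a)) := by
  obtain ⟨qg, hqg⟩ := hg.length_le
  obtain ⟨d, r, hd⟩ := hx
  obtain ⟨c, p, hf⟩ := hf
  obtain ⟨cg, pg, hg⟩ := hg
  set P : Polynomial ℕ := p.comp q + (Polynomial.C 9 * q + pg.comp q + Polynomial.C 2 * qg.comp q +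
    Polynomial.C 10) + Polynomial.C 4 with hP
  refine ⟨Cmd.seq d (Cmd.seq (flagProg cg)
    (Cmd.loop 1 (Cmd.seq (clr 1) (Cmd.seq (ev c) (flagProg cg))))),
    r + P + P, fun a => ?_⟩
  rw [inp_eq_st, inp_eq_st]
  have k1 := hd a
  rw [inp_eq_st, inp_eq_st] at k1
  have k2 := flag_runs (eb := fun b => (tb b).enc) hg hqg (x a)
  have k3 := while_runs (eb := fun b => (tb b).enc) hf hg hqg (q.eval (ea a).length) (N a) (x a)
    (fun k hk => hq a k hk) (h1 a) (h2 a)
  refine (k1.seq (k2.seq k3)).mono ?_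
  have hB : (tb (x a)).enc.length ≤ q.eval (ea a).length := hq a 0 (Nat.zero_le _)
  have e2 : pg.eval (tb (x a)).enc.length ≤ pg.eval (q.eval (ea a).length) := eval_mono pg hB
  have e3 : qg.eval (tb (x a)).enc.length ≤ qg.eval (q.eval (ea a).length) := eval_mono qg hB
  have e4 : P.eval (ea a).length = p.eval (q.eval (ea a).length) + (9 * q.eval (ea a).length +
      pg.eval (q.eval (ea a).length) + 2 * qg.eval (q.eval (ea a).length) + 10) + 4 := by
    simp only [hP, Polynomial.eval_add, Polynomial.eval_mul, Polynomial.eval_C,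
      Polynomial.eval_comp]
  rw [← e4]
  simp only [Polynomial.eval_add]
  have e5 : 9 * (tb (x a)).enc.length + pg.eval (tb (x a)).enc.length +
      2 * qg.eval (tb (x a)).enc.length + 10 + 4 ≤ P.eval (ea a).length := by
    rw [e4]
    omega
  have e6 : r.eval (ea a).length ≤ (N a + 1) * r.eval (ea a).length :=
    Nat.le_mul_of_pos_left _ (by omega)
  have e7 : (N a + 1) * (r.eval (ea a).length + P.eval (ea a).length + P.eval (ea a).length) =
      (N a + 1) * r.eval (ea a).length + (P.eval (ea a).length * N a + P.eval (ea a).length) +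
        (N a * P.eval (ea a).length + P.eval (ea a).length) := by ring
  rw [e7]
  dsimp only at *
  omega

end Pool.Agent.Run7.h440
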